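import Mathlib

/-! One-variable facts about the radial profile of the Gaussian Ball body in the plane. -/

set_option autoImplicit false

namespace Pool.Agent.P.MP_5a340a_gt.Def

open Real Set

/-- The radial profile. -/
noncomputable def rr (ρ : ℝ) : ℝ := √(2 * (1 - exp (-(ρ ^ 2 / 2))))

/-- Its derivative. -/
noncomputable def r1 (ρ : ℝ) : ℝ := ρ * exp (-(ρ ^ 2 / 2)) / rr ρ

/-- The intercept of the tangent line. -/
noncomputable def ss (ρ : ℝ) : ℝ := rr ρ - ρ * r1 ρ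

lemma E_lt {ρ : ℝ} (h : 0 < ρ) : exp (-(ρ ^ 2 / 2)) < 1 :=
  (Real.exp_lt_exp.2 (by have := pow_pos h 2; linarith)).trans_eq Real.exp_zero

lemma rr_pos {ρ : ℝ} (h : 0 < ρ) : 0 < rr ρ := Real.sqrt_pos.2 (by have := E_lt h; linarith)

lemma rr_nonneg (ρ : ℝ) : 0 ≤ rr ρ := Real.sqrt_nonneg _

lemma rr_sq (ρ : ℝ) : rr ρ ^ 2 = 2 * (1 - exp (-(ρ ^ 2 / 2))) :=
  Real.sq_sqrt (by
    have : exp (-(ρ ^ 2 / 2)) ≤ 1 := Real.exp_le_one_iff.2 (by have := sq_nonneg ρ; linarith)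
    linarith)

lemma rr_le (ρ : ℝ) : rr ρ ≤ 2 := by
  have := rr_sq ρ
  have := exp_pos (-(ρ ^ 2 / 2))
  nlinarith [rr_nonneg ρ]

lemma rr_cont : Continuous rr := by unfold rr; fun_prop

lemma E_deriv (ρ : ℝ) :
    HasDerivAt (fun x : ℝ => exp (-(x ^ 2 / 2))) (-(ρ * exp (-(ρ ^ 2 / 2)))) ρ := by
  have h : HasDerivAt (fun x : ℝ => -(x ^ 2 / 2)) (-ρ) ρ := by
    refine (((hasDerivAt_pow 2 ρ).div_const 2).fun_neg).congr_deriv ?_
    push_cast
    ring
  have := h.exp
  refine this.congr_deriv ?_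
  ring

lemma rr_deriv {ρ : ℝ} (h : 0 < ρ) : HasDerivAt rr (r1 ρ) ρ := by
  have h1 := (((E_deriv ρ).const_sub 1).const_mul 2).sqrt (by have := E_lt h; linarith)
  refine h1.congr_deriv ?_
  have := rr_pos h
  unfold r1
  unfold rr at this ⊢
  field_simp

lemma r1_pos {ρ : ℝ} (h : 0 < ρ) : 0 < r1 ρ := by
  have := rr_pos h
  unfold r1; positivity

lemma r1_deriv {ρ : ℝ} (h : 0 < ρ) : HasDerivAt r1
    (exp (-(ρ ^ 2 / 2)) * ((1 - ρ ^ 2) * rr ρ ^ 2 - ρ ^ 2 * exp (-(ρ ^ 2 / 2))) / rr ρ ^ 3) ρ := by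
  have h0 := rr_pos h
  have h1 := (((hasDerivAt_id ρ).mul (E_deriv ρ)).div (rr_deriv h) h0.ne')
  refine h1.congr_deriv ?_
  simp only [r1, id, Pi.mul_apply]
  field_simp
  ring

lemma one_sub_mul_exp (x : ℝ) : (1 - x) * exp x ≤ 1 := by
  have h := Real.add_one_le_exp (-x)
  have h2 : exp (-x) * exp x = 1 := by rw [← Real.exp_add]; simp
  nlinarith [exp_pos x]

lemma ineq1 {x : ℝ} (hx : 0 ≤ x) : (1 - 2 * x) * (1 - exp (-x)) ≤ x * exp (-x) := by
  have h := Real.add_one_le_exp (-x)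
  have h1 : exp (-x) ≤ 1 := Real.exp_le_one_iff.2 (by linarith)
  nlinarith [mul_nonneg hx (sub_nonneg.2 h1)]

lemma ineq2 {x : ℝ} (hx : 0 ≤ x) : (3 - 2 * x) * (1 - exp (-x)) ≤ 3 * x * exp (-x) := by
  have hd : ∀ y : ℝ, HasDerivAt (fun y : ℝ => 3 * y - (3 - 2 * y) * (exp y - 1))
      (1 - (1 - 2 * y) * exp y) y := fun y => by
    have := ((hasDerivAt_id y).const_mul 3).sub
      ((((hasDerivAt_id y).const_mul 2).const_sub 3).mul ((Real.hasDerivAt_exp y).sub_const 1))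
    refine this.congr_deriv ?_
    simp only [id]
    ring
  have mono : MonotoneOn (fun y : ℝ => 3 * y - (3 - 2 * y) * (exp y - 1)) (Ici 0) := by
    refine monotoneOn_of_deriv_nonneg (convex_Ici 0) (by fun_prop)
      (fun y _ => (hd y).differentiableAt.differentiableWithinAt) fun y hy => ?_
    rw [(hd y).deriv]
    rw [interior_Ici] at hy
    have h1 := one_sub_mul_exp y
    have : (0 : ℝ) < y := hy
    nlinarith [exp_pos y]
  have := mono (mem_Ici.2 le_rfl) hx hx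
  simp only [mul_zero, sub_zero, Real.exp_zero, sub_self] at this
  have h2 : exp (-x) * exp x = 1 := by rw [← Real.exp_add]; simp
  have h3 := mul_nonneg this (exp_pos (-x)).le
  have e : (3 * x - (3 - 2 * x) * (exp x - 1)) * exp (-x) =
      3 * x * exp (-x) - (3 - 2 * x) * (1 - exp (-x)) := by
    linear_combination (-(3 - 2 * x)) * h2
  linarith

lemma ss_nonneg {ρ : ℝ} (h : 0 < ρ) : 0 ≤ ss ρ := by
  have h0 := rr_pos h
  have h1 := rr_sq ρ
  have h2 := one_sub_mul_exp (-(ρ ^ 2 / 2))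
  unfold ss r1
  rw [sub_nonneg, ← mul_div_assoc, div_le_iff₀ h0]
  nlinarith

lemma ss_le {ρ : ℝ} (h : 0 < ρ) : ss ρ ≤ rr ρ := by
  have := mul_pos h (r1_pos h)
  unfold ss; linarith

lemma r1_contOn : ContinuousOn r1 (Ioi 0) := fun _ h => (r1_deriv h).continuousAt.continuousWithinAt

lemma ss_contOn : ContinuousOn ss (Ioi 0) :=
  rr_cont.continuousOn.sub (continuousOn_id.mul r1_contOn)

lemma ss_mono : MonotoneOn ss (Ioi 0) := by
  have hd : ∀ ρ : ℝ, 0 < ρ → HasDerivAt ss (-(ρ * (exp (-(ρ ^ 2 / 2)) * ((1 - ρ ^ 2) * rr ρ ^ 2 -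
      ρ ^ 2 * exp (-(ρ ^ 2 / 2))) / rr ρ ^ 3))) ρ := fun ρ h => by
    have := (rr_deriv h).sub ((hasDerivAt_id ρ).mul (r1_deriv h))
    refine this.congr_deriv ?_
    simp only [id]
    ring
  refine monotoneOn_of_deriv_nonneg (convex_Ioi 0) ss_contOn
    (fun y hy => by
      rw [interior_Ioi] at hy
      exact (hd y hy).differentiableAt.differentiableWithinAt) fun y hy => ?_
  rw [interior_Ioi] at hy
  have hy' : (0 : ℝ) < y := hy
  rw [(hd y hy).deriv, neg_nonneg]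
  refine mul_nonpos_of_nonneg_of_nonpos hy'.le (div_nonpos_of_nonpos_of_nonneg
    (mul_nonpos_of_nonneg_of_nonpos (exp_pos _).le ?_) (pow_pos (rr_pos hy') 3).le)
  have := ineq1 (x := y ^ 2 / 2) (by positivity)
  rw [rr_sq]
  nlinarith

lemma rr_mono : MonotoneOn rr (Ioi 0) := fun x hx y _ hxy => by
  refine Real.sqrt_le_sqrt ?_
  have hx' : (0 : ℝ) < x := hx
  have : exp (-(y ^ 2 / 2)) ≤ exp (-(x ^ 2 / 2)) := Real.exp_le_exp.2 (by nlinarith)
  linarith

/-- The slope of the gauge profile. -/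
noncomputable def kk (ρ : ℝ) : ℝ := r1 ρ * ρ ^ 2 / rr ρ ^ 2

lemma kk_anti : AntitoneOn kk (Ioi 0) := by
  have hd : ∀ ρ : ℝ, 0 < ρ → HasDerivAt kk (ρ ^ 2 * exp (-(ρ ^ 2 / 2)) *
      ((3 - ρ ^ 2) * rr ρ ^ 2 - 3 * ρ ^ 2 * exp (-(ρ ^ 2 / 2))) / rr ρ ^ 5) ρ := fun ρ h => by
    have h0 := rr_pos h
    have := ((r1_deriv h).mul (hasDerivAt_pow 2 ρ)).div ((rr_deriv h).pow 2) (pow_pos h0 2).ne'
    refine this.congr_deriv ?_
    simp only [r1, Pi.mul_apply, Pi.pow_apply]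
    field_simp
    push_cast
    ring
  refine antitoneOn_of_deriv_nonpos (convex_Ioi 0)
    (fun y hy => (hd y hy).continuousAt.continuousWithinAt)
    (fun y hy => by
      rw [interior_Ioi] at hy
      exact (hd y hy).differentiableAt.differentiableWithinAt) fun y hy => ?_
  rw [interior_Ioi] at hy
  have hy' : (0 : ℝ) < y := hy
  rw [(hd y hy).deriv]
  refine div_nonpos_of_nonpos_of_nonneg
    (mul_nonpos_of_nonneg_of_nonpos (by positivity) ?_) (pow_pos (rr_pos hy') 5).le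
  have := ineq2 (x := y ^ 2 / 2) (by positivity)
  rw [rr_sq]
  nlinarith

/-- The supporting inequality for the Ball body. -/
lemma tangent {ρ x : ℝ} (h : 0 < ρ) (hx : 0 < x) :
    rr x * (ss ρ + r1 ρ * ρ ^ 2 * x⁻¹) ≤ rr ρ ^ 2 := by
  have h0 := rr_pos h
  set η : ℝ → ℝ := fun y => rr ρ ^ 2 / rr y - r1 ρ * ρ ^ 2 * y⁻¹ with hη
  have hd : ∀ y : ℝ, 0 < y → HasDerivAt η (rr ρ ^ 2 / y ^ 2 * (kk ρ - kk y)) y := fun y hy => by
    have hy0 := rr_pos hy
    have := ((hasDerivAt_const y (rr ρ ^ 2)).div (rr_deriv hy) hy0.ne').sub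
      ((hasDerivAt_inv hy.ne').const_mul (r1 ρ * ρ ^ 2))
    refine this.congr_deriv ?_
    simp only [kk]
    field_simp
    ring
  have key : η ρ ≤ η x := by
    rcases le_total ρ x with hle | hle
    · have : MonotoneOn η (Ici ρ) := by
        refine monotoneOn_of_deriv_nonneg (convex_Ici ρ)
          (fun y hy => (hd y (h.trans_le hy)).continuousAt.continuousWithinAt)
          (fun y hy => by
            rw [interior_Ici] at hy
            exact (hd y (h.trans hy)).differentiableAt.differentiableWithinAt) fun y hy => ?_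
        rw [interior_Ici] at hy
        have hy' : ρ < y := hy
        rw [(hd y (h.trans hy')).deriv]
        exact mul_nonneg (by positivity) (sub_nonneg.2 (kk_anti h (h.trans hy') hy'.le))
      exact this (mem_Ici.2 le_rfl) hle hle
    · have : AntitoneOn η (Icc x ρ) := by
        refine antitoneOn_of_deriv_nonpos (convex_Icc x ρ)
          (fun y hy => (hd y (hx.trans_le hy.1)).continuousAt.continuousWithinAt)
          (fun y hy => by
            rw [interior_Icc] at hy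
            exact (hd y (hx.trans hy.1)).differentiableAt.differentiableWithinAt) fun y hy => ?_
        rw [interior_Icc] at hy
        rw [(hd y (hx.trans hy.1)).deriv]
        exact mul_nonpos_of_nonneg_of_nonpos (by positivity)
          (sub_nonpos.2 (kk_anti (hx.trans hy.1) h hy.2.le))
      exact this ⟨le_rfl, hle⟩ ⟨hle, le_rfl⟩ hle
  have e : η ρ = ss ρ := by
    simp only [hη, ss]
    field_simp
  rw [e] at key
  simp only [hη] at key
  have hx0 := rr_pos hx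
  have h2 : ss ρ + r1 ρ * ρ ^ 2 * x⁻¹ ≤ rr ρ ^ 2 / rr x := by linarith
  rwa [le_div_iff₀' hx0] at h2

end Pool.Agent.P.MP_5a340a_gt.Def
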