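import Pool.Agent.P.MP_5a340a_gt.D1

/-! Norms on the plane in polar form, and paths with right derivatives. -/

set_option autoImplicit false

namespace Pool.Agent.P.MP_5a340a_gt.Def

open Real Set MeasureTheory intervalIntegral Filter Topology

/-- A norm on the plane. -/
structure Nm (p : ℝ → ℝ → ℝ) : Prop where
  add : ∀ x y x' y', p (x + x') (y + y') ≤ p x y + p x' y'
  smul : ∀ c x y, p (c * x) (c * y) = |c| * p x y
  pos : ∀ x y, ¬(x = 0 ∧ y = 0) → 0 < p x y

variable {p : ℝ → ℝ → ℝ}

lemma Nm.neg (h : Nm p) (x y : ℝ) : p (-x) (-y) = p x y := by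
  simpa using h.smul (-1) x y

lemma Nm.nonneg (h : Nm p) (x y : ℝ) : 0 ≤ p x y := by
  by_cases h0 : x = 0 ∧ y = 0
  · have := h.smul 0 0 0
    simp only [mul_zero, abs_zero, zero_mul] at this
    rw [h0.1, h0.2, this]
  · exact (h.pos x y h0).le

lemma Nm.bound (h : Nm p) (x y : ℝ) : p x y ≤ |x| * p 1 0 + |y| * p 0 1 := by
  have := h.add (x * 1) (x * 0) (y * 0) (y * 1)
  rw [h.smul, h.smul] at this
  simpa using this

lemma Nm.lip (h : Nm p) (x y x' y' : ℝ) :
    |p x y - p x' y'| ≤ |x - x'| * p 1 0 + |y - y'| * p 0 1 := by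
  have h1 := h.add x' y' (x - x') (y - y')
  have h2 := h.add x y (-(x - x')) (-(y - y'))
  rw [h.neg] at h2
  have h3 := h.bound (x - x') (y - y')
  simp only [add_sub_cancel, neg_sub] at h1 h2
  rw [abs_le]
  constructor <;> linarith

lemma Nm.cont (h : Nm p) {f g : ℝ → ℝ} (hf : Continuous f) (hg : Continuous g) :
    Continuous fun t => p (f t) (g t) := by
  refine continuous_iff_continuousAt.2 fun t => ?_
  rw [ContinuousAt, tendsto_iff_norm_sub_tendsto_zero]
  have c : Continuous fun u => |f u - f t| * p 1 0 + |g u - g t| * p 0 1 := by fun_prop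
  refine squeeze_zero (fun _ => norm_nonneg _) (fun u => h.lip _ _ _ _) ?_
  simpa using c.tendsto t

lemma Nm.cont2 (h : Nm p) : Continuous fun z : ℝ × ℝ => p z.1 z.2 := by
  refine continuous_iff_continuousAt.2 fun t => ?_
  rw [ContinuousAt, tendsto_iff_norm_sub_tendsto_zero]
  have c : Continuous fun u : ℝ × ℝ => |u.1 - t.1| * p 1 0 + |u.2 - t.2| * p 0 1 := by fun_prop
  refine squeeze_zero (fun _ => norm_nonneg _) (fun u => h.lip _ _ _ _) ?_
  simpa using c.tendsto t

lemma Nm.comp (h : Nm p) {a b c d : ℝ} (hd : a * d - b * c ≠ 0) :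
    Nm fun x y => p (a * x + b * y) (c * x + d * y) where
  add x y x' y' := by
    have := h.add (a * x + b * y) (c * x + d * y) (a * x' + b * y') (c * x' + d * y')
    rwa [show a * x + b * y + (a * x' + b * y') = a * (x + x') + b * (y + y') by ring,
      show c * x + d * y + (c * x' + d * y') = c * (x + x') + d * (y + y') by ring] at this
  smul k x y := by
    rw [← h.smul]
    congr 1 <;> ring
  pos x y hxy := h.pos _ _ fun h0 => hxy ⟨by
    have : (a * d - b * c) * x = 0 := by linear_combination d * h0.1 - b * h0.2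
    exact (mul_eq_zero.1 this).resolve_left hd, by
    have : (a * d - b * c) * y = 0 := by linear_combination a * h0.2 - c * h0.1
    exact (mul_eq_zero.1 this).resolve_left hd⟩

/-- The norm on the unit circle. -/
noncomputable def kap (p : ℝ → ℝ → ℝ) (θ : ℝ) : ℝ := p (cos θ) (sin θ)

/-- Its right derivative. -/
noncomputable def dd (p : ℝ → ℝ → ℝ) (θ : ℝ) : ℝ := derivWithin (kap p) (Ioi θ) θ

lemma Nm.kap_pos (h : Nm p) (θ : ℝ) : 0 < kap p θ := h.pos _ _ fun h0 => by
  have := Real.cos_sq_add_sin_sq θ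
  rw [h0.1, h0.2] at this
  norm_num at this

lemma Nm.kap_cont (h : Nm p) : Continuous (kap p) := h.cont continuous_cos continuous_sin

lemma Nm.kap_per (h : Nm p) : Function.Periodic (kap p) π := fun θ => by
  unfold kap
  rw [Real.cos_add_pi, Real.sin_add_pi, h.neg]

lemma Nm.ex (h : Nm p) (θ : ℝ) : ∃ D : ℝ, HasDerivWithinAt (kap p) D (Ioi θ) θ ∧
    ∀ x y, (kap p θ * cos θ - D * sin θ) * x + (kap p θ * sin θ + D * cos θ) * y ≤ p x y := by
  set q : ℝ → ℝ := fun k => p (cos θ - k * sin θ) (sin θ + k * cos θ) with hq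
  have cv : ConvexOn ℝ univ q := by
    refine ⟨convex_univ, fun x _ y _ a b ha hb hab => ?_⟩
    have := h.add (a * (cos θ - x * sin θ)) (a * (sin θ + x * cos θ))
      (b * (cos θ - y * sin θ)) (b * (sin θ + y * cos θ))
    rw [h.smul, h.smul, abs_of_nonneg ha, abs_of_nonneg hb] at this
    simp only [hq, smul_eq_mul]
    rwa [show a * (cos θ - x * sin θ) + b * (cos θ - y * sin θ) =
        cos θ - (a * x + b * y) * sin θ by linear_combination cos θ * hab,
      show a * (sin θ + x * cos θ) + b * (sin θ + y * cos θ) =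
        sin θ + (a * x + b * y) * cos θ by linear_combination sin θ * hab] at this
  have i0 : (0 : ℝ) ∈ interior (univ : Set ℝ) := by simp
  have q0 : q 0 = kap p θ := by simp [hq, kap]
  set D := derivWithin q (Ioi 0) 0 with hD
  have dq : HasDerivWithinAt q D (Ioi 0) 0 := cv.hasDerivWithinAt_rightDeriv_of_mem_interior i0
  have sup : ∀ k, kap p θ + D * k ≤ q k := fun k => by
    rcases lt_trichotomy k 0 with hk | hk | hk
    · have h1 := (cv.slope_le_leftDeriv_of_mem_interior (mem_univ k) i0 hk).trans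
        (cv.leftDeriv_le_rightDeriv_of_mem_interior i0)
      rw [slope_def_field, q0, div_le_iff₀ (by linarith)] at h1
      linarith
    · rw [hk, q0]; simp
    · have h1 := cv.rightDeriv_le_slope_of_mem_interior i0 (mem_univ k) hk
      rw [slope_def_field, q0, le_div_iff₀ (by linarith)] at h1
      linarith
  refine ⟨D, ?_, fun x y => ?_⟩
  · have t1 : HasDerivAt (fun t => tan (t - θ)) 1 θ := by
      have := HasDerivAt.comp (h₂ := tan) (h := fun t => t - θ) θ
        (Real.hasDerivAt_tan (x := θ - θ) (by simp)) ((hasDerivAt_id θ).sub_const θ)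
      exact this.congr_deriv (by simp)
    have t2 : HasDerivAt (fun t => cos (t - θ)) 0 θ := by
      have := ((hasDerivAt_id θ).sub_const θ).cos
      exact this.congr_deriv (by simp)
    have t3 : HasDerivWithinAt (q ∘ fun t => tan (t - θ)) (D * 1) (Ioo θ (θ + π / 2)) θ := by
      refine HasDerivWithinAt.comp θ (s' := Ioi 0) (by simpa using dq) t1.hasDerivWithinAt
        fun t ht => ?_
      exact Real.tan_pos_of_pos_of_lt_pi_div_two (by linarith [ht.1]) (by linarith [ht.2])
    have t4 := t2.hasDerivWithinAt.mul t3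
    have e : ∀ t, 0 < cos (t - θ) → kap p t = cos (t - θ) * q (tan (t - θ)) := fun t ht => by
      have := h.smul (cos (t - θ)) (cos θ - tan (t - θ) * sin θ) (sin θ + tan (t - θ) * cos θ)
      rw [abs_of_pos ht] at this
      simp only [hq]
      rw [← this]
      unfold kap
      have e1 : cos t = cos (t - θ) * cos θ - sin (t - θ) * sin θ := by
        rw [← Real.cos_add]; congr 1; ring
      have e2 : sin t = sin (t - θ) * cos θ + cos (t - θ) * sin θ := by
        rw [← Real.sin_add]; congr 1; ring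
      rw [Real.tan_eq_sin_div_cos]
      congr 1
      · rw [e1]; field_simp
      · rw [e2]; field_simp; ring
    have t5 : HasDerivWithinAt (kap p) D (Ioo θ (θ + π / 2)) θ := by
      refine (t4.congr (fun t ht => e t ?_) (e θ (by simp))).congr_deriv (by simp)
      exact Real.cos_pos_of_mem_Ioo ⟨by linarith [ht.1, Real.pi_pos], by linarith [ht.2]⟩
    exact t5.mono_of_mem_nhdsWithin (Ioo_mem_nhdsGT (by linarith [Real.pi_pos]))
  · have sc := Real.cos_sq_add_sin_sq θ
    set X := x * cos θ + y * sin θ with hX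
    set Y := -(x * sin θ) + y * cos θ with hY
    set t := |X| + 1 with ht
    have t0 : 0 < t := by positivity
    have tX : 0 < X + t := by linarith [neg_abs_le X]
    have h1 := h.add x y (t * cos θ) (t * sin θ)
    rw [h.smul, abs_of_pos t0] at h1
    have h2 := h.smul (X + t) (cos θ - Y / (X + t) * sin θ) (sin θ + Y / (X + t) * cos θ)
    rw [abs_of_pos tX] at h2
    have e1 : (X + t) * (cos θ - Y / (X + t) * sin θ) = x + t * cos θ := by
      field_simp
      rw [hX, hY]
      linear_combination x * sc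
    have e2 : (X + t) * (sin θ + Y / (X + t) * cos θ) = y + t * sin θ := by
      field_simp
      rw [hX, hY]
      linear_combination y * sc
    rw [e1, e2] at h2
    have h3 := mul_le_mul_of_nonneg_left (sup (Y / (X + t))) tX.le
    have e3 : (X + t) * (kap p θ + D * (Y / (X + t))) = (X + t) * kap p θ + D * Y := by
      field_simp
    rw [e3] at h3
    simp only [hq] at h3
    have e4 : (kap p θ * cos θ - D * sin θ) * x + (kap p θ * sin θ + D * cos θ) * y =
        X * kap p θ + D * Y := by rw [hX, hY]; ring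
    rw [e4]
    change _ ≤ _ + t * kap p θ at h1
    linarith

lemma Nm.kap_der (h : Nm p) (θ : ℝ) : HasDerivWithinAt (kap p) (dd p θ) (Ioi θ) θ :=
  (h.ex θ).choose_spec.1.differentiableWithinAt.hasDerivWithinAt

/-- The first coordinate of the subgradient. -/
noncomputable def g1 (p : ℝ → ℝ → ℝ) (θ : ℝ) : ℝ := kap p θ * cos θ - dd p θ * sin θ

/-- The second coordinate of the subgradient. -/
noncomputable def g2 (p : ℝ → ℝ → ℝ) (θ : ℝ) : ℝ := kap p θ * sin θ + dd p θ * cos θ

lemma Nm.sub (h : Nm p) (θ x y : ℝ) : |g1 p θ * x + g2 p θ * y| ≤ p x y := by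
  obtain ⟨D, h1, h2⟩ := h.ex θ
  have e : dd p θ = D := h1.derivWithin (uniqueDiffWithinAt_Ioi θ)
  unfold g1 g2
  rw [e, abs_le]
  have := h2 (-x) (-y)
  rw [h.neg] at this
  exact ⟨by linarith, h2 x y⟩

lemma Nm.dd_int (h : Nm p) (a b : ℝ) : IntervalIntegrable (dd p) volume a b := by
  have bd : ∀ θ, |dd p θ| ≤ p 1 0 + p 0 1 := fun θ => by
    have h1 := (h.sub θ (-sin θ) (cos θ)).trans (h.bound _ _)
    have e : g1 p θ * -sin θ + g2 p θ * cos θ = dd p θ := by
      unfold g1 g2
      linear_combination dd p θ * Real.cos_sq_add_sin_sq θ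
    rw [e, abs_neg] at h1
    have a1 := mul_le_of_le_one_left (h.nonneg 1 0) (Real.abs_sin_le_one θ)
    have a2 := mul_le_of_le_one_left (h.nonneg 0 1) (Real.abs_cos_le_one θ)
    linarith
  refine (intervalIntegrable_const (c := p 1 0 + p 0 1)).mono_fun'
    (measurable_derivWithin_Ioi (kap p)).aestronglyMeasurable (ae_of_all _ bd)

lemma Nm.wedge (h : Nm p) {φ θ : ℝ} (h1 : φ < θ) (h2 : θ < φ + π) :
    0 ≤ g1 p φ * g2 p θ - g2 p φ * g1 p θ := by
  have s0 : 0 < sin (θ - φ) := Real.sin_pos_of_pos_of_lt_pi (by linarith) (by linarith)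
  have a1 : |g1 p φ * cos θ + g2 p φ * sin θ| ≤ kap p θ := h.sub φ _ _
  have a2 : |g1 p θ * cos φ + g2 p θ * sin φ| ≤ kap p φ := h.sub θ _ _
  have e : ∀ t, g1 p t * cos t + g2 p t * sin t = kap p t := fun t => by
    unfold g1 g2
    linear_combination kap p t * Real.cos_sq_add_sin_sq t
  have a3 : (g1 p φ * cos θ + g2 p φ * sin θ) * (g1 p θ * cos φ + g2 p θ * sin φ) ≤
      kap p θ * kap p φ := by
    refine (le_abs_self _).trans ?_
    rw [abs_mul]
    exact mul_le_mul a1 a2 (abs_nonneg _) (h.kap_pos θ).le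
  refine nonneg_of_mul_nonneg_left ?_ s0
  rw [← e θ, ← e φ] at a3
  rw [Real.sin_sub]
  nlinarith

/-- A path with integrable right derivative whose end points are opposite. -/
structure Pth (A a : ℝ → ℝ) : Prop where
  cont : Continuous A
  der : ∀ θ, HasDerivWithinAt A (a θ) (Ioi θ) θ
  int : ∀ x y, IntervalIntegrable a volume x y
  anti : A (π / 2) = -A (-(π / 2))

variable {A a B b : ℝ → ℝ}

lemma Pth.ftc (h : Pth A a) (x y : ℝ) : ∫ t in x..y, a t = A y - A x :=
  integral_eq_sub_of_hasDeriv_right h.cont.continuousOn (fun t _ => h.der t) (h.int x y)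

lemma Pth.mint (h : Pth A a) (h' : Pth B b) (x y : ℝ) :
    IntervalIntegrable (fun t => A t * b t) volume x y :=
  (h'.int x y).continuousOn_mul h.cont.continuousOn

lemma Pth.ibp (h : Pth A a) (h' : Pth B b) :
    ∫ t in (-(π / 2))..(π / 2), A t * b t = -∫ t in (-(π / 2))..(π / 2), B t * a t := by
  have := integral_eq_sub_of_hasDeriv_right (f := fun t => A t * B t)
    (f' := fun t => A t * b t + B t * a t) (a := -(π / 2)) (b := π / 2)
    (h.cont.mul h'.cont).continuousOn
    (fun t _ => ((h.der t).mul (h'.der t)).congr_deriv (by ring))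
    ((h.mint h' _ _).add (h'.mint h _ _))
  rw [integral_add (h.mint h' _ _) (h'.mint h _ _), h.anti, h'.anti] at this
  linarith

lemma Pth.wedge (h : Pth A a) (h' : Pth B b)
    (hw : ∀ φ θ, φ < θ → θ < φ + π → 0 ≤ a φ * b θ - b φ * a θ) :
    0 ≤ ∫ t in (-(π / 2))..(π / 2), A t * b t := by
  have pi := Real.pi_pos
  have k : 0 ≤ ∫ t in (-(π / 2))..(π / 2),
      ((A t * b t - B t * a t) - (A (-(π / 2)) * b t - B (-(π / 2)) * a t)) := by
    refine integral_nonneg (by linarith) fun θ hθ => ?_
    have e : (A θ * b θ - B θ * a θ) - (A (-(π / 2)) * b θ - B (-(π / 2)) * a θ) =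
        ∫ φ in (-(π / 2))..θ, (a φ * b θ - b φ * a θ) := by
      rw [integral_sub ((h.int _ _).mul_const _) ((h'.int _ _).mul_const _),
        intervalIntegral.integral_mul_const, intervalIntegral.integral_mul_const, h.ftc, h'.ftc]
      ring
    rw [e, integral_of_le hθ.1, integral_Ioc_eq_integral_Ioo]
    exact setIntegral_nonneg measurableSet_Ioo fun φ hφ =>
      hw φ θ hφ.2 (by linarith [hφ.1, hθ.2])
  rw [integral_sub ((h.mint h' _ _).sub (h'.mint h _ _))
      (((h'.int _ _).const_mul _).sub ((h.int _ _).const_mul _)),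
    integral_sub (h.mint h' _ _) (h'.mint h _ _),
    integral_sub ((h'.int _ _).const_mul _) ((h.int _ _).const_mul _),
    intervalIntegral.integral_const_mul, intervalIntegral.integral_const_mul, h.ftc, h'.ftc, h.anti, h'.anti, h'.ibp h] at k
  linarith

/-- The primitive with opposite end points. -/
noncomputable def prim (f : ℝ → ℝ) (θ : ℝ) : ℝ :=
  (∫ t in (0 : ℝ)..θ, f t) - ((∫ t in (0 : ℝ)..(π / 2), f t) + ∫ t in (0 : ℝ)..(-(π / 2)), f t) / 2

lemma prim_der {f : ℝ → ℝ} (hf : Continuous f) (θ : ℝ) : HasDerivAt (prim f) (f θ) θ :=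
  (hf.integral_hasStrictDerivAt 0 θ).hasDerivAt.sub_const _

lemma prim_pth {f : ℝ → ℝ} (hf : Continuous f) : Pth (prim f) f where
  cont := continuous_iff_continuousAt.2 fun θ => (prim_der hf θ).continuousAt
  der θ := (prim_der hf θ).hasDerivWithinAt
  int := hf.intervalIntegrable
  anti := by unfold prim; ring

lemma Pth.lin (h : Pth A a) (h' : Pth B b) (c : ℝ) :
    Pth (fun t => A t + c * B t) fun t => a t + c * b t where
  cont := h.cont.add (continuous_const.mul h'.cont)
  der θ := (h.der θ).add ((h'.der θ).const_mul c)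
  int x y := (h.int x y).add ((h'.int x y).const_mul c)
  anti := by rw [h.anti, h'.anti]; ring

end Pool.Agent.P.MP_5a340a_gt.Def
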