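import Pool.Agent.P.MP_5a340a_gt.D2

/-! Polar coordinates and the isoperimetric inequality of a normed plane (Schmidt's argument). -/

set_option autoImplicit false

namespace Pool.Agent.P.MP_5a340a_gt.Def

open Real Set MeasureTheory intervalIntegral Filter Topology
open scoped ENNReal

lemma polar_lint {F : ℝ × ℝ → ℝ≥0∞} (hF : Measurable F) :
    ∫⁻ z, F z = ∫⁻ θ in Ioo (-π) π, ∫⁻ r in Ioi (0 : ℝ),
      ENNReal.ofReal r * F (r * cos θ, r * sin θ) := by
  rw [← lintegral_comp_polarCoord_symm, polarCoord_target, Measure.volume_eq_prod,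
    ← Measure.prod_restrict]
  simp only [polarCoord_symm_apply, smul_eq_mul]
  refine lintegral_prod_symm _ (Measurable.aemeasurable ?_)
  exact measurable_fst.ennreal_ofReal.mul (hF.comp (by fun_prop))

lemma lint_Ioc {f : ℝ → ℝ} (hf : Continuous f) {x y : ℝ} (hxy : x ≤ y)
    (h0 : ∀ r ∈ Ioc x y, 0 ≤ f r) :
    ∫⁻ r in Ioc x y, ENNReal.ofReal (f r) = ENNReal.ofReal (∫ r in x..y, f r) := by
  rw [integral_of_le hxy, ofReal_integral_eq_lintegral_ofReal (hf.intervalIntegrable x y).1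
    ((ae_restrict_iff' measurableSet_Ioc).2 (ae_of_all _ h0))]

lemma radial {f : ℝ → ℝ} (hf : Continuous f) {ρ : ℝ} (hρ : 0 ≤ ρ) (h0 : ∀ r, 0 < r → 0 ≤ f r) :
    ∫⁻ r in Ioi (0 : ℝ), (Iic ρ).indicator (fun r => ENNReal.ofReal (f r)) r =
      ENNReal.ofReal (∫ r in (0 : ℝ)..ρ, f r) := by
  rw [lintegral_indicator measurableSet_Iic, Measure.restrict_restrict measurableSet_Iic,
    Iic_inter_Ioi, lint_Ioc hf hρ fun r hr => h0 r hr.1]

lemma polar_le {S : Set (ℝ × ℝ)} (hS : MeasurableSet S) {R : ℝ → ℝ} (hR : Continuous R)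
    (h0 : ∀ θ, 0 ≤ R θ) (h : ∀ θ r, 0 < r → r ≤ R θ → (r * cos θ, r * sin θ) ∈ S) :
    ENNReal.ofReal (∫ θ in (-π)..π, R θ ^ 2 / 2) ≤ volume S := by
  rw [← lintegral_indicator_one hS, polar_lint (measurable_one.indicator hS),
    ← lint_Ioc (by fun_prop) (by linarith [Real.pi_pos]) fun _ _ => by positivity,
    ← Measure.restrict_congr_set Ioo_ae_eq_Ioc]
  refine lintegral_mono fun θ => ?_
  have e : R θ ^ 2 / 2 = ∫ r in (0 : ℝ)..R θ, r := by rw [integral_id]; ring
  rw [e, ← radial (f := fun r => r) continuous_id (h0 θ) fun r hr => hr.le]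
  refine setLIntegral_mono' measurableSet_Ioi fun r hr => ?_
  by_cases hr' : r ≤ R θ
  · rw [indicator_of_mem (mem_Iic.2 hr'), indicator_of_mem (h θ r hr hr')]
    simp
  · rw [indicator_of_notMem (fun h => hr' (mem_Iic.1 h))]
    exact zero_le

variable {G a1 a2 N : ℝ → ℝ}

lemma Pth.neg (h : Pth G a1) : Pth (fun t => -G t) fun t => -a1 t where
  cont := h.cont.neg
  der θ := (h.der θ).neg
  int x y := (h.int x y).neg
  anti := by rw [h.anti]

lemma core (hG : Pth G a1) (i2 : ∀ x y, IntervalIntegrable a2 volume x y) (hN : Continuous N)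
    {f : ℝ → ℝ} (hf : Continuous f) {b c : ℝ} (c0 : 0 < c)
    (h : ∀ x, |x| ≤ b → ∀ θ, |x * a2 θ - f x * a1 θ| ≤ N θ) {θ0 : ℝ}
    (m0 : θ0 ∈ Icc (-(π / 2)) (π / 2)) (m1 : G θ0 = c * b)
    (m2 : ∀ θ ∈ Icc (-(π / 2)) (π / 2), |G θ| ≤ c * b) :
    c ^ 2 * ∫ x in (-b)..b, f x ≤ c * (∫ t in (-(π / 2))..(π / 2), N t) -
      ∫ t in (-(π / 2))..(π / 2), G t * a2 t := by
  set F : ℝ → ℝ := fun x => ∫ t in (0 : ℝ)..x, f t with hF
  have dF : ∀ x, HasDerivAt F (f x) x := fun x => (hf.integral_hasStrictDerivAt 0 x).hasDerivAt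
  have cF : Continuous F := continuous_iff_continuousAt.2 fun x => (dF x).continuousAt
  have cG := hG.cont
  have iG : ∀ x y, IntervalIntegrable (fun t => G t * a2 t) volume x y := fun x y =>
    (i2 x y).continuousOn_mul cG.continuousOn
  have iφ : ∀ x y, IntervalIntegrable (fun t => c * N t - G t * a2 t) volume x y := fun x y =>
    ((hN.intervalIntegrable x y).const_mul c).sub (iG x y)
  have bd : ∀ θ ∈ Icc (-(π / 2)) (π / 2), |G θ / c| ≤ b := fun θ hθ => by
    rw [abs_div, abs_of_pos c0, div_le_iff₀' c0]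
    exact m2 θ hθ
  have h1 := sub_le_integral_of_hasDeriv_right_of_le (g := fun t => -(c ^ 2 * F (G t / c)))
    (g' := fun t => -(c * (f (G t / c) * a1 t))) (φ := fun t => c * N t - G t * a2 t) m0.2
    (by fun_prop)
    (fun t _ => ((((dF (G t / c)).comp_hasDerivWithinAt t ((hG.der t).div_const c)).const_mul
      (c ^ 2)).neg).congr_deriv (by field_simp))
    ((intervalIntegrable_iff_integrableOn_Icc_of_le m0.2).1 (iφ _ _)) fun t ht => by
      have := mul_le_mul_of_nonneg_left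
        (abs_le.1 (h _ (bd t ⟨m0.1.trans ht.1.le, ht.2.le⟩) t)).2 c0.le
      have e : c * (G t / c * a2 t - f (G t / c) * a1 t) =
          G t * a2 t - c * (f (G t / c) * a1 t) := by field_simp
      linarith
  have h2 := sub_le_integral_of_hasDeriv_right_of_le (g := fun t => -(c ^ 2 * F (-(G t / c))))
    (g' := fun t => c * (f (-(G t / c)) * a1 t)) (φ := fun t => c * N t - G t * a2 t) m0.1
    (by fun_prop)
    (fun t _ => ((((dF (-(G t / c))).comp_hasDerivWithinAt t
      ((hG.der t).div_const c).neg).const_mul (c ^ 2)).neg).congr_deriv (by field_simp))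
    ((intervalIntegrable_iff_integrableOn_Icc_of_le m0.1).1 (iφ _ _)) fun t ht => by
      have := mul_le_mul_of_nonneg_left
        (abs_le.1 (h (-(G t / c)) (by
          rw [abs_neg]; exact bd t ⟨ht.1.le, ht.2.le.trans m0.2⟩) t)).1 c0.le
      have e : c * (-(G t / c) * a2 t - f (-(G t / c)) * a1 t) =
          -(G t * a2 t) - c * (f (-(G t / c)) * a1 t) := by field_simp
      linarith
  have e1 : G θ0 / c = b := by rw [m1]; field_simp
  have e2 : ∫ x in (-b)..b, f x = F b - F (-b) :=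
    (integral_interval_sub_left (hf.intervalIntegrable _ _) (hf.intervalIntegrable _ _)).symm
  have e3 := integral_add_adjacent_intervals (iφ (-(π / 2)) θ0) (iφ θ0 (π / 2))
  rw [integral_sub ((hN.intervalIntegrable _ _).const_mul c) (iG (-(π / 2)) (π / 2)),
    intervalIntegral.integral_const_mul] at e3
  simp only [e1] at h1 h2
  rw [hG.anti, neg_div] at h1
  rw [e2, ← e3]
  linarith

lemma core2 (hG : Pth G a1) (i2 : ∀ x y, IntervalIntegrable a2 volume x y) (hN : Continuous N)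
    {f : ℝ → ℝ} (hf : Continuous f) {b : ℝ} (b0 : 0 < b)
    (h : ∀ x, |x| ≤ b → ∀ θ, |x * a2 θ - f x * a1 θ| ≤ N θ) (W0 : 0 ≤ ∫ x in (-b)..b, f x) :
    4 * (∫ t in (-(π / 2))..(π / 2), G t * a2 t) * ∫ x in (-b)..b, f x ≤
      (∫ t in (-(π / 2))..(π / 2), N t) ^ 2 := by
  have pi := Real.pi_pos
  obtain ⟨θ0, m0, m1⟩ := isCompact_Icc.exists_isMaxOn (s := Icc (-(π / 2)) (π / 2))
    ⟨0, by constructor <;> linarith⟩ hG.cont.abs.continuousOn
  have m2 : ∀ θ ∈ Icc (-(π / 2)) (π / 2), |G θ| ≤ |G θ0| := fun θ hθ => m1 hθ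
  have fin : ∀ c : ℝ, c ^ 2 * ∫ x in (-b)..b, f x ≤ c * (∫ t in (-(π / 2))..(π / 2), N t) -
      ∫ t in (-(π / 2))..(π / 2), G t * a2 t →
      4 * (∫ t in (-(π / 2))..(π / 2), G t * a2 t) * ∫ x in (-b)..b, f x ≤
      (∫ t in (-(π / 2))..(π / 2), N t) ^ 2 := fun c hc => by
    have := mul_le_mul_of_nonneg_right hc W0
    nlinarith [sq_nonneg ((∫ t in (-(π / 2))..(π / 2), N t) - 2 * c * ∫ x in (-b)..b, f x)]
  rcases lt_trichotomy (G θ0) 0 with h0 | h0 | h0
  · refine fin (-G θ0 / b) ?_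
    have := core hG.neg (a2 := fun t => -a2 t) (fun x y => (i2 x y).neg) hN hf
      (b := b) (c := -G θ0 / b) (div_pos (by linarith) b0)
      (fun x hx θ => by
        have := h x hx θ
        rwa [← abs_neg, show -(x * a2 θ - f x * a1 θ) = x * -a2 θ - f x * -a1 θ by ring] at this)
      m0 (by field_simp) fun θ hθ => by
        have := m2 θ hθ
        rw [abs_of_neg h0] at this
        rwa [abs_neg, div_mul_cancel₀ _ b0.ne']
    simpa only [neg_mul_neg] using this
  · have : ∫ t in (-(π / 2))..(π / 2), G t * a2 t = ∫ t in (-(π / 2))..(π / 2), (0 : ℝ) := by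
      refine integral_congr fun t ht => ?_
      rw [uIcc_of_le (by linarith)] at ht
      have := m2 t ht
      rw [h0, abs_zero, abs_nonpos_iff] at this
      simp [this]
    rw [this]
    simp only [intervalIntegral.integral_zero, mul_zero, zero_mul]
    positivity
  · refine fin (G θ0 / b) (core hG i2 hN hf (div_pos h0 b0) h m0 (by field_simp) fun θ hθ => ?_)
    have := m2 θ hθ
    rw [abs_of_pos h0] at this
    rwa [div_mul_cancel₀ _ b0.ne']

lemma schmidt (hG : Pth G a1) (i2 : ∀ x y, IntervalIntegrable a2 volume x y) (hN : Continuous N)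
    {R : ℝ → ℝ} (hR : Continuous R) (R0 : ∀ φ, 0 < R φ) (R2 : ∀ φ, R φ ≤ 2)
    (h : ∀ θ φ r, 0 < r → r ≤ R φ → |r * cos φ * a2 θ - r * sin φ * a1 θ| ≤ N θ) :
    2 * (∫ t in (-(π / 2))..(π / 2), G t * a2 t) * ∫ φ in (-π)..π, R φ ^ 2 / 2 ≤
      (∫ t in (-(π / 2))..(π / 2), N t) ^ 2 := by
  set S : ℝ → ℝ → Prop := fun x η => (∀ θ, |x * a2 θ - η * a1 θ| ≤ N θ) ∧ |x| ≤ 2 ∧ |η| ≤ 2
    with hS
  have Sneg : ∀ x η, S x η → S (-x) (-η) := fun x η k => by
    refine ⟨fun θ => ?_, by simpa using k.2.1, by simpa using k.2.2⟩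
    have := k.1 θ
    rwa [← abs_neg, show -(x * a2 θ - η * a1 θ) = -x * a2 θ - -η * a1 θ by ring] at this
  have cab : ∀ u v M a b : ℝ, |u| ≤ M → |v| ≤ M → 0 ≤ a → 0 ≤ b → a + b = 1 →
      |a * u + b * v| ≤ M := fun u v M a b hu hv ha hb hab => by
    rw [abs_le] at hu hv ⊢
    have e : M = a * M + b * M := by rw [← add_mul, hab, one_mul]
    constructor <;> nlinarith [hu.1, hu.2, hv.1, hv.2]
  have Scv : ∀ x η y ζ a b : ℝ, S x η → S y ζ → 0 ≤ a → 0 ≤ b → a + b = 1 →
      S (a * x + b * y) (a * η + b * ζ) := fun x η y ζ a b k l ha hb hab => by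
    refine ⟨fun θ => ?_, cab _ _ _ _ _ k.2.1 l.2.1 ha hb hab, cab _ _ _ _ _ k.2.2 l.2.2 ha hb hab⟩
    have := cab _ _ _ _ _ (k.1 θ) (l.1 θ) ha hb hab
    rwa [show a * (x * a2 θ - η * a1 θ) + b * (y * a2 θ - ζ * a1 θ) =
      (a * x + b * y) * a2 θ - (a * η + b * ζ) * a1 θ by ring] at this
  have Spol : ∀ φ r, 0 < r → r ≤ R φ → S (r * cos φ) (r * sin φ) := fun φ r r0 r1 => by
    refine ⟨fun θ => h θ φ r r0 r1, ?_, ?_⟩
    · rw [abs_mul, abs_of_pos r0]
      nlinarith [Real.abs_cos_le_one φ, R2 φ, abs_nonneg (cos φ)]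
    · rw [abs_mul, abs_of_pos r0]
      nlinarith [Real.abs_sin_le_one φ, R2 φ, abs_nonneg (sin φ)]
  set f : ℝ → ℝ := fun x => sSup {η | S x η} with hf
  have bdd : ∀ x, BddAbove {η | S x η} := fun x => ⟨2, fun η k => (abs_le.1 k.2.2).2⟩
  have fle : ∀ x η, S x η → η ≤ f x := fun x η k => le_csSup (bdd x) k
  have fmem : ∀ x η, S x η → S x (f x) := fun x η k => by
    have cl : IsClosed {η | S x η} := by
      simp only [hS, ofPred_and, ofPred_forall]
      exact (isClosed_iInter fun θ => isClosed_le (by fun_prop) continuous_const).inter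
        (isClosed_const.inter (isClosed_le (by fun_prop) continuous_const))
    exact cl.csSup_mem ⟨η, k⟩ (bdd x)
  set B : ℝ := sSup {x | ∃ η, S x η} with hB
  have bD : BddAbove {x | ∃ η, S x η} := ⟨2, fun x ⟨_, k⟩ => (abs_le.1 k.2.1).2⟩
  have leB : ∀ x η, S x η → |x| ≤ B := fun x η k => abs_le.2
    ⟨neg_le.1 (le_csSup bD ⟨_, Sneg _ _ k⟩), le_csSup bD ⟨_, k⟩⟩
  have B0 : 0 < B := by
    have := leB _ _ (Spol 0 (R 0) (R0 0) le_rfl)
    rw [Real.cos_zero, mul_one, abs_of_pos (R0 0)] at this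
    exact (R0 0).trans_le this
  have inD : ∀ x ∈ Ioo (-B) B, S x (f x) := fun x hx => by
    obtain ⟨y, ⟨η, k⟩, hy⟩ := exists_lt_of_lt_csSup (s := {x | ∃ η, S x η})
      ⟨_, _, Spol 0 (R 0) (R0 0) le_rfl⟩ (abs_lt.2 hx)
    have y0 : 0 < y := (abs_nonneg x).trans_lt hy
    rw [abs_lt] at hy
    have := Scv _ _ _ _ ((y + x) / (2 * y)) ((y - x) / (2 * y)) k (Sneg _ _ k)
      (div_nonneg (by linarith) (by linarith)) (div_nonneg (by linarith) (by linarith))
      (by field_simp; ring)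
    rw [show (y + x) / (2 * y) * y + (y - x) / (2 * y) * -y = x by field_simp; ring] at this
    exact fmem _ _ this
  have cc : ConcaveOn ℝ (Ioo (-B) B) f := ⟨convex_Ioo _ _, fun x hx y hy a b ha hb hab =>
    fle _ _ (Scv _ _ _ _ _ _ (inD x hx) (inD y hy) ha hb hab)⟩
  have cf : ContinuousOn f (Ioo (-B) B) := by simpa using cc.continuousOn_interior
  set V := ∫ φ in (-π)..π, R φ ^ 2 / 2 with hV
  have V0 : 0 ≤ V := integral_nonneg (by linarith [Real.pi_pos]) fun _ _ => by positivity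
  by_cases hneg : ∫ t in (-(π / 2))..(π / 2), G t * a2 t ≤ 0
  · nlinarith [sq_nonneg (∫ t in (-(π / 2))..(π / 2), N t)]
  rw [not_le] at hneg
  have step : ∀ l ∈ Ioo (0 : ℝ) 1, 2 * (∫ t in (-(π / 2))..(π / 2), G t * a2 t) * (l ^ 2 * V) ≤
      (∫ t in (-(π / 2))..(π / 2), N t) ^ 2 := fun l hl => by
    set b := l * B with hb
    have b0 : 0 < b := mul_pos hl.1 B0
    have bB : b < B := mul_lt_of_lt_one_left B0 hl.2
    set k : ℝ → ℝ := fun x => f (max (-b) (min b x)) with hk
    have ck : Continuous k := cf.comp_continuous (by fun_prop) fun x =>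
      ⟨lt_max_of_lt_left (by linarith), max_lt (by linarith) (min_lt_of_left_lt bB)⟩
    have ek : ∀ x, |x| ≤ b → k x = f x := fun x hx => by
      rw [abs_le] at hx
      simp only [hk]
      rw [min_eq_right hx.2, max_eq_right hx.1]
    have Sk : ∀ x, |x| ≤ b → S x (k x) := fun x hx => by
      rw [ek x hx]
      exact inD x (abs_lt.1 (hx.trans_lt bB))
    have kk : ∀ x, |x| ≤ b → 0 ≤ k x + k (-x) := fun x hx => by
      have h1 := Sneg _ _ (Sk (-x) (by rwa [abs_neg]))
      rw [neg_neg] at h1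
      have := fle _ _ h1
      rw [← ek x hx] at this
      linarith
    have e2 : ∫ x in (-b)..b, (k x + k (-x)) = 2 * ∫ x in (-b)..b, k x := by
      rw [integral_add (g := fun x => k (-x)) (ck.intervalIntegrable _ _)
        ((ck.comp continuous_neg).intervalIntegrable _ _), intervalIntegral.integral_comp_neg,
        neg_neg]
      ring
    have W0 : 0 ≤ ∫ x in (-b)..b, (k x + k (-x)) :=
      integral_nonneg (by linarith) fun x hx => kk x (abs_le.2 hx)
    set T : Set (ℝ × ℝ) := {z | |z.1| ≤ b ∧ -k (-z.1) ≤ z.2 ∧ z.2 ≤ k z.1} with hT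
    have mT : MeasurableSet T := by
      refine IsClosed.measurableSet ?_
      simp only [hT, ofPred_and]
      exact (isClosed_le (by fun_prop) (by fun_prop)).inter
        ((isClosed_le (by fun_prop) (by fun_prop)).inter (isClosed_le (by fun_prop) (by fun_prop)))
    have v1 := polar_le mT (R := fun θ => l * R θ) (by fun_prop)
      (fun θ => (mul_pos hl.1 (R0 θ)).le) fun θ r r0 r1 => by
        have s1 := Spol θ r r0 (r1.trans (mul_le_of_le_one_left (R0 θ).le hl.2.le))
        have s2 := leB _ _ (Spol θ (r / l) (div_pos r0 hl.1) ((div_le_iff₀' hl.1).2 r1))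
        have s3 : |r * cos θ| ≤ b := by
          rw [show r / l * cos θ = r * cos θ / l by ring, abs_div, abs_of_pos hl.1,
            div_le_iff₀' hl.1] at s2
          exact s2
        refine ⟨s3, ?_, ?_⟩
        · rw [ek _ (by rwa [abs_neg]), neg_le]
          exact fle _ _ (Sneg _ _ s1)
        · rw [ek _ s3]
          exact fle _ _ s1
    have v2 : volume T ≤ ENNReal.ofReal (∫ x in (-b)..b, (k x + k (-x))) := by
      rw [← lint_Ioc (by fun_prop) (by linarith) fun x hx => kk x (abs_le.2 ⟨hx.1.le, hx.2⟩),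
        Measure.restrict_congr_set Ioc_ae_eq_Icc, Measure.volume_eq_prod, Measure.prod_apply mT,
        ← lintegral_indicator measurableSet_Icc]
      refine lintegral_mono fun x => ?_
      by_cases hx : |x| ≤ b
      · rw [indicator_of_mem (mem_Icc.2 (abs_le.1 hx))]
        have : Prod.mk x ⁻¹' T ⊆ Icc (-k (-x)) (k x) := fun η hη => hη.2
        refine (measure_mono this).trans ?_
        rw [Real.volume_Icc, sub_neg_eq_add]
      · have : Prod.mk x ⁻¹' T = ∅ := eq_empty_of_forall_notMem fun η hη => hx hη.1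
        rw [this, measure_empty]
        exact zero_le
    have v3 := (ENNReal.ofReal_le_ofReal_iff W0).1 (v1.trans v2)
    have e3 : ∫ θ in (-π)..π, (l * R θ) ^ 2 / 2 = l ^ 2 * V := by
      rw [hV, ← intervalIntegral.integral_const_mul]
      exact integral_congr fun θ _ => by ring
    rw [e3, e2] at v3
    rw [e2] at W0
    have := core2 hG i2 hN ck b0 (fun x hx => (Sk x hx).1) (by linarith)
    nlinarith
  have c : Continuous fun l : ℝ => 2 * (∫ t in (-(π / 2))..(π / 2), G t * a2 t) * (l ^ 2 * V) := by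
    fun_prop
  have := le_of_tendsto ((c.tendsto 1).mono_left (nhdsWithin_le_nhds (s := Iio 1)))
    (mem_of_superset (Ioo_mem_nhdsLT one_pos) step)
  simpa using this

end Pool.Agent.P.MP_5a340a_gt.Def
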