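import Pool.Agent.P.MP_5a340a_gt.D3

/-! The sign of the mixed coefficient of the calibrator. -/

set_option autoImplicit false

namespace Pool.Agent.P.MP_5a340a_gt.Def

open Real Set MeasureTheory intervalIntegral Filter Topology

lemma T_der {H ψ : ℝ} (H0 : 0 < H) (h0 : 0 < sin ψ) :
    HasDerivAt (fun t => rr (H * sin t)⁻¹)
      (-(r1 (H * sin ψ)⁻¹ * (H * sin ψ)⁻¹ * cos ψ / sin ψ)) ψ := by
  have h1 := ((Real.hasDerivAt_sin ψ).const_mul H).fun_inv (mul_pos H0 h0).ne'
  have h2 := HasDerivAt.comp (h₂ := rr) (h := fun t => (H * sin t)⁻¹) ψ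
    (rr_deriv (inv_pos.2 (mul_pos H0 h0))) h1
  refine h2.congr_deriv ?_
  field_simp

lemma strip_abs {s : ℝ → ℝ} (hs : Continuous s) {H μ θ : ℝ} (H0 : 0 < H) (m0 : 0 ≤ μ)
    (m1 : μ < θ) (t1 : θ < π / 2)
    (hb : ∀ φ ∈ Icc (-θ) θ, φ ≠ μ → s φ ≤ ss (H * |sin (φ - μ)|)⁻¹) :
    ∫ φ in (-θ)..θ, s φ * cos φ ≤
      (rr (H * sin (θ - μ))⁻¹ + rr (H * sin (θ + μ))⁻¹) * sin θ := by
  have pi := Real.pi_pos
  have cf : Continuous fun φ => s φ * cos φ := by fun_prop
  have cp : ∀ φ ∈ Icc (-θ) θ, 0 ≤ cos φ := fun φ h =>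
    Real.cos_nonneg_of_mem_Icc ⟨by linarith [h.1], by linarith [h.2]⟩
  have p1 : ∫ ψ in (0 : ℝ)..(θ - μ), (s (μ + ψ) * cos (μ + ψ) + s (μ - ψ) * cos (μ - ψ)) ≤
      2 * cos μ * (rr (H * sin (θ - μ))⁻¹ * sin (θ - μ)) -
        2 * cos μ * (rr (H * sin 0)⁻¹ * sin 0) := by
    refine integral_le_sub_of_hasDeriv_right_of_le
      (g := fun ψ => 2 * cos μ * (rr (H * sin ψ)⁻¹ * sin ψ))
      (g' := fun ψ => 2 * cos μ * (ss (H * sin ψ)⁻¹ * cos ψ)) (by linarith)
      (continuousOn_const.mul fun ψ hψ => ?_) (fun ψ hψ => ?_)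
      (Continuous.integrableOn_Icc (by fun_prop)) fun ψ hψ => ?_
    · rcases hψ.1.eq_or_lt with h | h
      · rw [← h]
        refine ContinuousAt.continuousWithinAt ?_
        rw [ContinuousAt, Real.sin_zero, mul_zero]
        have c : Continuous fun ψ : ℝ => 2 * |sin ψ| := by fun_prop
        refine squeeze_zero_norm (a := fun ψ : ℝ => 2 * |sin ψ|) (fun t => ?_)
          (by simpa using c.tendsto 0)
        rw [norm_mul, Real.norm_eq_abs, Real.norm_eq_abs, abs_of_nonneg (rr_nonneg _)]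
        exact mul_le_mul_of_nonneg_right (rr_le _) (abs_nonneg _)
      · exact ((T_der H0 (Real.sin_pos_of_pos_of_lt_pi h (by linarith [hψ.2]))).mul
          (Real.hasDerivAt_sin ψ)).continuousAt.continuousWithinAt
    · have s0 := Real.sin_pos_of_pos_of_lt_pi hψ.1 (by linarith [hψ.2])
      refine ((((T_der H0 s0).mul (Real.hasDerivAt_sin ψ)).const_mul (2 * cos μ)).congr_deriv
        ?_).hasDerivWithinAt
      unfold ss
      field_simp
      ring
    · have s0 := Real.sin_pos_of_pos_of_lt_pi hψ.1 (by linarith [hψ.2])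
      have i1 : μ + ψ ∈ Icc (-θ) θ := ⟨by linarith [hψ.1], by linarith [hψ.2]⟩
      have i2 : μ - ψ ∈ Icc (-θ) θ := ⟨by linarith [hψ.2], by linarith [hψ.1]⟩
      have b1 := hb _ i1 (by linarith [hψ.1])
      have b2 := hb _ i2 (by linarith [hψ.1])
      rw [add_sub_cancel_left, abs_of_pos s0] at b1
      rw [sub_sub_cancel_left, Real.sin_neg, abs_neg, abs_of_pos s0] at b2
      have c1 := mul_le_mul_of_nonneg_right b1 (cp _ i1)
      have c2 := mul_le_mul_of_nonneg_right b2 (cp _ i2)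
      rw [Real.cos_add] at c1 ⊢
      rw [Real.cos_sub] at c2 ⊢
      linarith
  have p2 : ∫ φ in (-θ)..(μ - (θ - μ)), s φ * cos φ ≤
      rr (H * sin (μ - (μ - (θ - μ))))⁻¹ * sin (μ - (θ - μ)) -
        rr (H * sin (μ - -θ))⁻¹ * sin (-θ) := by
    have sp : ∀ φ ∈ Icc (-θ) (μ - (θ - μ)), 0 < sin (μ - φ) := fun φ h =>
      Real.sin_pos_of_pos_of_lt_pi (by linarith [h.2]) (by linarith [h.1])
    have dg : ∀ φ ∈ Icc (-θ) (μ - (θ - μ)), HasDerivAt (fun φ => rr (H * sin (μ - φ))⁻¹ * sin φ)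
        (ss (H * sin (μ - φ))⁻¹ * cos φ +
          r1 (H * sin (μ - φ))⁻¹ * (H * sin (μ - φ))⁻¹ * sin μ / sin (μ - φ)) φ := fun φ h => by
      have s0 := sp φ h
      have h1 := HasDerivAt.comp (h₂ := fun t => rr (H * sin t)⁻¹) (h := fun φ => μ - φ) φ
        (T_der H0 s0) ((hasDerivAt_id φ).const_sub μ)
      refine (h1.mul (Real.hasDerivAt_sin φ)).congr_deriv ?_
      have e : sin μ = sin (μ - φ) * cos φ + cos (μ - φ) * sin φ := by
        rw [← Real.sin_add]; congr 1; ring
      rw [e]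
      unfold ss
      simp only [Function.comp_apply]
      field_simp
      ring
    refine integral_le_sub_of_hasDeriv_right_of_le
      (g := fun φ => rr (H * sin (μ - φ))⁻¹ * sin φ) (by linarith)
      (fun φ hφ => (dg φ hφ).continuousAt.continuousWithinAt)
      (fun φ hφ => (dg φ (Ioo_subset_Icc_self hφ)).hasDerivWithinAt)
      cf.integrableOn_Icc fun φ hφ => ?_
    have s0 := sp φ (Ioo_subset_Icc_self hφ)
    have i1 : φ ∈ Icc (-θ) θ := ⟨hφ.1.le, by linarith [hφ.2]⟩
    have b1 := hb _ i1 (by linarith [hφ.2])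
    rw [← neg_sub μ φ, Real.sin_neg, abs_neg, abs_of_pos s0] at b1
    have c1 := mul_le_mul_of_nonneg_right b1 (cp _ i1)
    have r0 := r1_pos (inv_pos.2 (mul_pos H0 s0))
    have sm : 0 ≤ sin μ := Real.sin_nonneg_of_nonneg_of_le_pi m0 (by linarith)
    have : 0 ≤ r1 (H * sin (μ - φ))⁻¹ * (H * sin (μ - φ))⁻¹ * sin μ / sin (μ - φ) := by positivity
    linarith
  rw [integral_add (Continuous.intervalIntegrable (by fun_prop) _ _)
      (Continuous.intervalIntegrable (by fun_prop) _ _),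
    integral_comp_add_left (fun φ => s φ * cos φ), integral_comp_sub_left (fun φ => s φ * cos φ),
    add_zero, sub_zero, add_sub_cancel, add_comm, integral_add_adjacent_intervals
      (cf.intervalIntegrable _ _) (cf.intervalIntegrable _ _), Real.sin_zero, mul_zero, mul_zero,
    sub_zero] at p1
  rw [← integral_add_adjacent_intervals (b := μ - (θ - μ)) (cf.intervalIntegrable _ _)
    (cf.intervalIntegrable _ _)]
  rw [sub_sub_cancel, sub_neg_eq_add, add_comm μ θ, Real.sin_neg] at p2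
  have e : sin θ = sin (θ - μ) * cos μ + cos (θ - μ) * sin μ := by
    rw [← Real.sin_add]; congr 1; ring
  rw [Real.sin_sub μ (θ - μ)] at p2
  have e2 : rr (H * sin (θ - μ))⁻¹ * sin θ =
      rr (H * sin (θ - μ))⁻¹ * (sin (θ - μ) * cos μ + cos (θ - μ) * sin μ) := by rw [← e]
  linarith

variable {p : ℝ → ℝ → ℝ}

/-- The radial function of the Ball body. -/
noncomputable def RR (p : ℝ → ℝ → ℝ) (θ : ℝ) : ℝ := rr (kap p θ)⁻¹

/-- The weight of the round part of the calibrator. -/
noncomputable def SS (p : ℝ → ℝ → ℝ) (θ : ℝ) : ℝ := ss (kap p θ)⁻¹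

/-- The weight of the moving part of the calibrator. -/
noncomputable def WW (p : ℝ → ℝ → ℝ) (θ : ℝ) : ℝ := r1 (kap p θ)⁻¹ * (kap p θ)⁻¹ ^ 2

lemma Nm.rho_pos (h : Nm p) (θ : ℝ) : 0 < (kap p θ)⁻¹ := inv_pos.2 (h.kap_pos θ)

lemma Nm.rho_cont (h : Nm p) : Continuous fun θ => (kap p θ)⁻¹ :=
  h.kap_cont.inv₀ fun θ => (h.kap_pos θ).ne'

lemma Nm.RR_cont (h : Nm p) : Continuous (RR p) := rr_cont.comp h.rho_cont

lemma Nm.SS_cont (h : Nm p) : Continuous (SS p) := ss_contOn.comp_continuous h.rho_cont h.rho_pos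

lemma Nm.WW_cont (h : Nm p) : Continuous (WW p) :=
  (r1_contOn.comp_continuous h.rho_cont h.rho_pos).mul (h.rho_cont.pow 2)

lemma Nm.WW_pos (h : Nm p) (θ : ℝ) : 0 < WW p θ :=
  mul_pos (r1_pos (h.rho_pos θ)) (pow_pos (h.rho_pos θ) 2)

lemma Nm.even (h : Nm p) {θ : ℝ} (t0 : 0 < θ) (t1 : θ < π / 2) :
    ∫ φ in (-θ)..θ, SS p φ * cos φ ≤ (RR p θ + RR p (-θ)) * sin θ := by
  have pi := Real.pi_pos
  have s0 : 0 < sin θ := Real.sin_pos_of_pos_of_lt_pi t0 (by linarith)
  have c0 : 0 < cos θ := Real.cos_pos_of_mem_Ioo ⟨by linarith, t1⟩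
  have k1 := h.kap_pos θ
  have k2 := h.kap_pos (-θ)
  set A := (kap p θ + kap p (-θ)) / (2 * sin θ) with hA
  set B := (kap p θ - kap p (-θ)) / (2 * cos θ) with hB
  have A0 : 0 < A := by positivity
  set μ := arctan (-B / A) with hμ
  have cm : 0 < cos μ := Real.cos_arctan_pos _
  have u1 : μ < π / 2 := Real.arctan_lt_pi_div_two _
  have u2 : -(π / 2) < μ := Real.neg_pi_div_two_lt_arctan _
  have tm : A * sin μ = -B * cos μ := by
    have := Real.tan_arctan (-B / A)
    rw [← hμ, Real.tan_eq_sin_div_cos, div_eq_div_iff cm.ne' A0.ne'] at this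
    linarith
  set H := A / cos μ with hH
  have H0 : 0 < H := by positivity
  have el : ∀ φ, H * sin (φ - μ) = A * sin φ + B * cos φ := fun φ => by
    rw [Real.sin_sub, hH]
    field_simp
    linear_combination (-cos φ) * tm
  have e1 : H * sin (θ - μ) = kap p θ := by
    rw [el, hA, hB]; field_simp; ring
  have e2 : H * sin (θ + μ) = kap p (-θ) := by
    have := el (-θ)
    rw [show -θ - μ = -(θ + μ) by ring, Real.sin_neg, Real.sin_neg, Real.cos_neg] at this
    have e : A * -sin θ + B * cos θ = -kap p (-θ) := by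
      rw [hA, hB]; field_simp; ring
    linarith
  have v1 : μ < θ := by
    by_contra hc
    have : sin (θ - μ) ≤ 0 :=
      Real.sin_nonpos_of_nonpos_of_neg_pi_le (by linarith [not_lt.1 hc]) (by linarith)
    nlinarith
  have v2 : -μ < θ := by
    by_contra hc
    have : sin (θ + μ) ≤ 0 :=
      Real.sin_nonpos_of_nonpos_of_neg_pi_le (by linarith [not_lt.1 hc]) (by linarith)
    nlinarith
  have cmp : ∀ φ ∈ Icc (-θ) θ, φ ≠ μ → SS p φ ≤ ss (H * |sin (φ - μ)|)⁻¹ := fun φ hφ hne => by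
    have sn : 0 < |sin (φ - μ)| := by
      rcases lt_or_gt_of_ne hne with hl | hl
      · exact abs_pos.2 (Real.sin_neg_of_neg_of_neg_pi_lt (by linarith) (by linarith [hφ.1])).ne
      · exact abs_pos.2 (Real.sin_pos_of_pos_of_lt_pi (by linarith) (by linarith [hφ.2])).ne'
    refine ss_mono (h.rho_pos φ) (inv_pos.2 (mul_pos H0 sn)) (inv_anti₀ (mul_pos H0 sn) ?_)
    set α := sin (θ + φ) / (2 * sin θ * cos θ) with hα
    set β := sin (θ - φ) / (2 * sin θ * cos θ) with hβ
    have a0 : 0 ≤ α := div_nonneg (Real.sin_nonneg_of_nonneg_of_le_pi (by linarith [hφ.1])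
      (by linarith [hφ.2])) (by positivity)
    have b0 : 0 ≤ β := div_nonneg (Real.sin_nonneg_of_nonneg_of_le_pi (by linarith [hφ.2])
      (by linarith [hφ.1])) (by positivity)
    have x1 : cos φ = α * cos θ + β * cos (-θ) := by
      rw [hα, hβ, Real.cos_neg, Real.sin_add, Real.sin_sub]; field_simp; ring
    have x2 : sin φ = α * sin θ + β * sin (-θ) := by
      rw [hα, hβ, Real.sin_neg, Real.sin_add, Real.sin_sub]; field_simp; ring
    have y1 := h.add (cos φ) (sin φ) (-β * cos (-θ)) (-β * sin (-θ))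
    have y2 := h.add (cos φ) (sin φ) (-α * cos θ) (-α * sin θ)
    rw [show cos φ + -β * cos (-θ) = α * cos θ by linarith,
      show sin φ + -β * sin (-θ) = α * sin θ by linarith, h.smul, h.smul, abs_neg,
      abs_of_nonneg a0, abs_of_nonneg b0] at y1
    rw [show cos φ + -α * cos θ = β * cos (-θ) by linarith,
      show sin φ + -α * sin θ = β * sin (-θ) by linarith, h.smul, h.smul, abs_neg,
      abs_of_nonneg a0, abs_of_nonneg b0] at y2
    have z : H * sin (φ - μ) = α * kap p θ - β * kap p (-θ) := by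
      rw [el, hα, hβ, hA, hB, Real.sin_add, Real.sin_sub]; field_simp; ring
    rw [← abs_of_pos H0, ← abs_mul, z, abs_le]
    unfold kap
    constructor <;> linarith
  unfold RR
  rw [← e1, ← e2]
  rcases le_total 0 μ with m0 | m0
  · exact strip_abs h.SS_cont H0 m0 v1 t1 cmp
  · have := strip_abs (s := fun φ => SS p (-φ)) (h.SS_cont.comp continuous_neg) H0
      (μ := -μ) (by linarith) v2 t1 fun φ hφ hne => by
        have := cmp (-φ) ⟨by linarith [hφ.2], by linarith [hφ.1]⟩ fun e => hne (by linarith)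
        rwa [show -φ - μ = -(φ - -μ) by ring, Real.sin_neg, abs_neg] at this
    have e := intervalIntegral.integral_comp_neg (a := -θ) (b := θ) fun φ => SS p φ * cos φ
    simp only [Real.cos_neg, neg_neg] at e
    rw [e, sub_neg_eq_add, ← sub_eq_add_neg, add_comm] at this
    exact this

lemma fold {F : ℝ → ℝ} (hF : Continuous F) (c : ℝ) :
    ∫ t in (-c)..c, F t = ∫ t in (0 : ℝ)..c, (F t + F (-t)) := by
  rw [integral_add (g := fun t => F (-t)) (hF.intervalIntegrable _ _)
    ((hF.comp continuous_neg).intervalIntegrable _ _), intervalIntegral.integral_comp_neg, neg_zero,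
    add_comm, integral_add_adjacent_intervals (hF.intervalIntegrable _ _)
      (hF.intervalIntegrable _ _)]

lemma Nm.beta (h : Nm p) :
    ∫ t in (-(π / 2))..(π / 2), prim (fun φ => SS p φ * cos φ) t * (SS p t * sin t) ≤
      ∫ t in (-(π / 2))..(π / 2), RR p t * sin t * (SS p t * sin t) := by
  have pi := Real.pi_pos
  have cS := h.SS_cont
  have cR := h.RR_cont
  have cf : Continuous fun φ => SS p φ * cos φ := by fun_prop
  set Y := prim fun φ => SS p φ * cos φ with hY
  have pY : Pth Y fun φ => SS p φ * cos φ := prim_pth cf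
  have cY := pY.cont
  have S0 : ∀ t, 0 ≤ SS p t := fun t => ss_nonneg (h.rho_pos t)
  have S2 : ∀ t, SS p t ≤ 2 := fun t => (ss_le (h.rho_pos t)).trans (rr_le _)
  set O : ℝ → ℝ := fun t => Y t + Y (-t) with hO
  have dO : ∀ t, HasDerivAt O ((SS p t - SS p (-t)) * cos t) t := fun t => by
    have h1 := HasDerivAt.comp (h₂ := Y) (h := fun t => -t) t (prim_der cf (-t))
      (hasDerivAt_neg t)
    refine ((prim_der cf t).add h1).congr_deriv ?_
    rw [Real.cos_neg]; ring
  have bO : ∀ t ∈ Icc 0 (π / 2), |O t| ≤ 2 * cos t ^ 2 := fun t ht => by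
    have e := integral_eq_sub_of_hasDerivAt (a := t) (b := π / 2) (fun t _ => dO t)
      (Continuous.intervalIntegrable (by fun_prop) _ _)
    have e0 : O (π / 2) = 0 := by simp only [hO]; rw [pY.anti]; ring
    rw [e0, zero_sub] at e
    rw [← abs_neg, ← e]
    refine (abs_integral_le_integral_abs ht.2).trans ?_
    have : ∫ x in t..(π / 2), |(SS p x - SS p (-x)) * cos x| ≤ ∫ x in t..(π / 2), 2 * cos x := by
      refine integral_mono_on ht.2 (Continuous.intervalIntegrable (by fun_prop) _ _)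
        (Continuous.intervalIntegrable (by fun_prop) _ _) fun x hx => ?_
      have c0 : 0 ≤ cos x := Real.cos_nonneg_of_mem_Icc ⟨by linarith [hx.1, ht.1], hx.2⟩
      rw [abs_mul, abs_of_nonneg c0]
      refine mul_le_mul_of_nonneg_right (abs_le.2 ⟨?_, ?_⟩) c0 <;>
        linarith [S0 x, S2 x, S0 (-x), S2 (-x)]
    refine this.trans ?_
    rw [intervalIntegral.integral_const_mul, integral_cos, Real.sin_pi_div_two]
    have s0 : 0 ≤ sin t := Real.sin_nonneg_of_nonneg_of_le_pi ht.1 (by linarith [ht.2])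
    nlinarith [Real.sin_sq_add_cos_sq t, Real.sin_le_one t]
  rw [← sub_nonpos, ← integral_sub (Continuous.intervalIntegrable (by fun_prop) _ _)
    (Continuous.intervalIntegrable (by fun_prop) _ _), fold (by fun_prop)]
  have dg : ∀ t, 0 < cos t → HasDerivAt (fun t => O t ^ 2 * tan t / 4)
      (O t * (SS p t - SS p (-t)) * sin t / 2 + O t ^ 2 / cos t ^ 2 / 4) t := fun t ht => by
    refine ((((dO t).fun_pow 2).mul (Real.hasDerivAt_tan ht.ne')).div_const 4).congr_deriv ?_
    rw [Real.tan_eq_sin_div_cos]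
    field_simp
    push_cast
    ring
  refine (integral_le_sub_of_hasDeriv_right_of_le (g := fun t => O t ^ 2 * tan t / 4)
    (by linarith) (fun t ht => ?_)
    (fun t ht => (dg t (Real.cos_pos_of_mem_Ioo ⟨by linarith [ht.1], ht.2⟩)).hasDerivWithinAt)
    (Continuous.integrableOn_Icc (by fun_prop)) fun t ht => ?_).trans (by simp)
  · rcases ht.2.eq_or_lt with e | e
    · rw [e, ContinuousWithinAt, Real.tan_pi_div_two, mul_zero, zero_div]
      refine squeeze_zero_norm' (a := cos) (mem_of_superset self_mem_nhdsWithin fun x hx => ?_)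
        (by simpa using (Real.continuous_cos.tendsto (π / 2)).mono_left nhdsWithin_le_nhds)
      have c0 : 0 ≤ cos x := Real.cos_nonneg_of_mem_Icc ⟨by linarith [hx.1], hx.2⟩
      have s0 : 0 ≤ sin x := Real.sin_nonneg_of_nonneg_of_le_pi hx.1 (by linarith [hx.2])
      have b1 : O x ^ 2 ≤ (2 * cos x ^ 2) ^ 2 := sq_le_sq' (abs_le.1 (bO x hx)).1 (abs_le.1 (bO x hx)).2
      change ‖O x ^ 2 * tan x / 4‖ ≤ cos x
      rw [Real.tan_eq_sin_div_cos, Real.norm_eq_abs, abs_of_nonneg (by positivity)]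
      rcases c0.eq_or_lt with e | e
      · rw [← e]; simp
      · rw [← mul_div_assoc, div_div, div_le_iff₀ (by positivity)]
        have c1 : cos x ^ 2 ≤ 1 := Real.cos_sq_le_one x
        have b2 := mul_le_mul b1 (Real.sin_le_one x) s0 (by positivity)
        nlinarith [mul_le_mul_of_nonneg_left c1 (sq_nonneg (cos x))]
    · exact (dg t (Real.cos_pos_of_mem_Ioo ⟨by linarith [ht.1], e⟩)).continuousAt.continuousWithinAt
  · have s0 : 0 < sin t := Real.sin_pos_of_pos_of_lt_pi ht.1 (by linarith [ht.2])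
    have ev := h.even ht.1 ht.2
    rw [pY.ftc] at ev
    have ch : 0 ≤ (RR p t - RR p (-t)) * (SS p t - SS p (-t)) := by
      rcases le_total (kap p t)⁻¹ (kap p (-t))⁻¹ with l | l
      · exact mul_nonneg_of_nonpos_of_nonpos
          (sub_nonpos.2 (rr_mono (h.rho_pos _) (h.rho_pos _) l))
          (sub_nonpos.2 (ss_mono (h.rho_pos _) (h.rho_pos _) l))
      · exact mul_nonneg (sub_nonneg.2 (rr_mono (h.rho_pos _) (h.rho_pos _) l))
          (sub_nonneg.2 (ss_mono (h.rho_pos _) (h.rho_pos _) l))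
    have k1 := mul_le_mul_of_nonneg_right ev (mul_nonneg (add_nonneg (S0 t) (S0 (-t))) s0.le)
    have k2 := mul_nonneg ch (sq_nonneg (sin t))
    have k3 : 0 ≤ O t ^ 2 / cos t ^ 2 / 4 := by positivity
    simp only [Real.sin_neg, hO] at k3 ⊢
    nlinarith

end Pool.Agent.P.MP_5a340a_gt.Def
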