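import Pool.Agent.P.MP_5a340a_gt.D4

/-! The horospherical inequality for triangular deformations of a norm on the plane. -/

set_option autoImplicit false

namespace Pool.Agent.P.MP_5a340a_gt.Def

open Real Set MeasureTheory intervalIntegral Filter Topology

variable {p : ℝ → ℝ → ℝ}

/-- The area of the Ball body. -/
noncomputable def Ar (p : ℝ → ℝ → ℝ) : ℝ := ∫ t in (-(π / 2))..(π / 2), RR p t ^ 2

lemma Nm.RR_pos (h : Nm p) (θ : ℝ) : 0 < RR p θ := rr_pos (h.rho_pos θ)

lemma Nm.Ar_pos (h : Nm p) : 0 < Ar p :=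
  intervalIntegral_pos_of_pos (h.RR_cont.pow 2 |>.intervalIntegrable _ _)
    (fun t => pow_pos (h.RR_pos t) 2) (by linarith [Real.pi_pos])

lemma shift {F : ℝ → ℝ} (hF : Function.Periodic F π) (φ : ℝ) :
    ∫ t in (-(π / 2))..(π / 2), F (t + φ) = ∫ t in (-(π / 2))..(π / 2), F t := by
  have := hF.intervalIntegral_add_eq (-(π / 2) + φ) (-(π / 2))
  rw [show -(π / 2) + φ + π = π / 2 + φ by ring, show -(π / 2) + π = π / 2 by ring] at this
  rw [integral_comp_add_right, this]

lemma full {F : ℝ → ℝ} (hF : Function.Periodic F π) (cF : Continuous F) :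
    ∫ t in (-π)..π, F t = 2 * ∫ t in (-(π / 2))..(π / 2), F t := by
  have h1 := hF.intervalIntegral_add_eq (-π) (-(π / 2))
  have h2 := hF.intervalIntegral_add_eq 0 (-(π / 2))
  rw [neg_add_cancel, show -(π / 2) + π = π / 2 by ring] at h1
  rw [zero_add, show -(π / 2) + π = π / 2 by ring] at h2
  rw [← integral_add_adjacent_intervals (b := 0) (cF.intervalIntegrable _ _)
    (cF.intervalIntegrable _ _), h1, h2]
  ring

lemma Nm.RR_per (h : Nm p) (t : ℝ) : RR p (t + π) = RR p t := by unfold RR; rw [h.kap_per t]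

lemma Nm.SS_per (h : Nm p) (t : ℝ) : SS p (t + π) = SS p t := by unfold SS; rw [h.kap_per t]

lemma Nm.Ar_rot (h : Nm p) {q : ℝ → ℝ → ℝ} {φ : ℝ} (e : ∀ t, kap q t = kap p (t + φ)) :
    Ar q = Ar p := by
  unfold Ar
  rw [← shift (F := fun t => RR p t ^ 2) (fun t => by simp only [h.RR_per]) φ]
  simp only [RR, e]

lemma Nm.Ar_full (h : Nm p) (φ : ℝ) : ∫ t in (-π)..π, RR p (t + φ) ^ 2 / 2 = Ar p := by
  have c := h.RR_cont
  rw [full (F := fun t => RR p (t + φ) ^ 2 / 2)
    (fun t => by simp only [add_right_comm t π φ, h.RR_per]) (by fun_prop),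
    intervalIntegral.integral_div,
    shift (F := fun t => RR p t ^ 2) (fun t => by simp only [h.RR_per]) φ]
  unfold Ar
  ring

lemma Nm.RR_der (h : Nm p) (θ : ℝ) :
    HasDerivWithinAt (RR p) (-(WW p θ * dd p θ)) (Ioi θ) θ := by
  have h1 := (h.kap_der θ).fun_inv (h.kap_pos θ).ne'
  have h2 := HasDerivAt.comp_hasDerivWithinAt (h₂ := rr) (h := fun t => (kap p t)⁻¹) θ
    (rr_deriv (h.rho_pos θ)) h1
  refine h2.congr_deriv ?_
  unfold WW
  field_simp

lemma Nm.SW (h : Nm p) (θ : ℝ) : RR p θ = SS p θ + WW p θ * kap p θ := by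
  have := (h.kap_pos θ).ne'
  unfold SS WW RR ss
  field_simp
  ring

lemma Nm.pX1 (h : Nm p) : Pth (fun t => RR p t * sin t - prim (fun φ => SS p φ * cos φ) t)
    fun t => WW p t * g1 p t := by
  have cS := h.SS_cont
  have cR := h.RR_cont
  have cW := h.WW_cont
  have cK := h.kap_cont
  have pY : Pth _ fun φ => SS p φ * cos φ := prim_pth (by fun_prop)
  refine ⟨(cR.mul continuous_sin).sub pY.cont, fun θ => ?_, fun x y => ?_, ?_⟩
  · refine (((h.RR_der θ).mul (Real.hasDerivAt_sin θ).hasDerivWithinAt).sub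
      (pY.der θ)).congr_deriv ?_
    rw [h.SW, g1]; ring
  · have : (fun t => WW p t * g1 p t) =
        fun t => WW p t * kap p t * cos t - WW p t * sin t * dd p t := by
      funext t; rw [g1]; ring
    rw [this]
    exact (Continuous.intervalIntegrable (by fun_prop) _ _).sub
      ((h.dd_int x y).continuousOn_mul (by fun_prop))
  · have := h.RR_per (-(π / 2))
    rw [show -(π / 2) + π = π / 2 by ring] at this
    rw [pY.anti, this, Real.sin_neg]
    ring

lemma Nm.pX2 (h : Nm p) : Pth (fun t => -(RR p t * cos t) - prim (fun φ => SS p φ * sin φ) t)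
    fun t => WW p t * g2 p t := by
  have cS := h.SS_cont
  have cR := h.RR_cont
  have cW := h.WW_cont
  have cK := h.kap_cont
  have pY : Pth _ fun φ => SS p φ * sin φ := prim_pth (by fun_prop)
  refine ⟨(cR.mul continuous_cos).neg.sub pY.cont, fun θ => ?_, fun x y => ?_, ?_⟩
  · refine (((h.RR_der θ).mul (Real.hasDerivAt_cos θ).hasDerivWithinAt).neg.sub
      (pY.der θ)).congr_deriv ?_
    rw [h.SW, g2]; ring
  · have : (fun t => WW p t * g2 p t) =
        fun t => WW p t * kap p t * sin t + WW p t * cos t * dd p t := by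
      funext t; rw [g2]; ring
    rw [this]
    exact (Continuous.intervalIntegrable (by fun_prop) _ _).add
      ((h.dd_int x y).continuousOn_mul (by fun_prop))
  · rw [pY.anti, Real.cos_neg, Real.cos_pi_div_two]
    ring

lemma expand {Y1 y1 Y2 y2 X1 x1 X2 x2 : ℝ → ℝ} (a1 : Pth Y1 y1) (a2 : Pth Y2 y2)
    (b1 : Pth X1 x1) (b2 : Pth X2 x2) (u σ v : ℝ) :
    ∫ t in (-(π / 2))..(π / 2), (Y1 t + u * X1 t) * (y2 t + σ * x1 t + v * x2 t) =
      (∫ t in (-(π / 2))..(π / 2), Y1 t * y2 t) + σ * (∫ t in (-(π / 2))..(π / 2), Y1 t * x1 t) +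
        v * (∫ t in (-(π / 2))..(π / 2), Y1 t * x2 t) +
        u * (∫ t in (-(π / 2))..(π / 2), X1 t * y2 t) +
        u * v * ∫ t in (-(π / 2))..(π / 2), X1 t * x2 t := by
  have z : ∫ t in (-(π / 2))..(π / 2), X1 t * x1 t = 0 := by linarith [b1.ibp b1]
  have e : ∀ {A a : ℝ → ℝ}, Pth A a →
      ∫ t in (-(π / 2))..(π / 2), A t * (y2 t + σ * x1 t + v * x2 t) =
      (∫ t in (-(π / 2))..(π / 2), A t * y2 t) + σ * (∫ t in (-(π / 2))..(π / 2), A t * x1 t) +
        v * ∫ t in (-(π / 2))..(π / 2), A t * x2 t := fun {A a} k => by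
    rw [← intervalIntegral.integral_const_mul, ← intervalIntegral.integral_const_mul,
      ← integral_add (k.mint a2 _ _) ((k.mint b1 _ _).const_mul _),
      ← integral_add ((k.mint a2 _ _).add ((k.mint b1 _ _).const_mul _))
        ((k.mint b2 _ _).const_mul _)]
    exact integral_congr fun t _ => by ring
  have pp := (a2.lin b1 σ).lin b2 v
  have e2 : ∫ t in (-(π / 2))..(π / 2), (Y1 t + u * X1 t) * (y2 t + σ * x1 t + v * x2 t) =
      (∫ t in (-(π / 2))..(π / 2), Y1 t * (y2 t + σ * x1 t + v * x2 t)) +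
        u * ∫ t in (-(π / 2))..(π / 2), X1 t * (y2 t + σ * x1 t + v * x2 t) := by
    rw [← intervalIntegral.integral_const_mul,
      ← integral_add (a1.mint pp _ _) ((b1.mint pp _ _).const_mul _)]
    exact integral_congr fun t _ => by ring
  rw [e2, e a1, e b1, z]
  ring

lemma Nm.tri (h : Nm p)
    (f1 : ∫ t in (-(π / 2))..(π / 2), RR p t * sin t * (SS p t * cos t) = 0)
    (f2 : ∫ t in (-(π / 2))..(π / 2), RR p t * sin t * (SS p t * sin t) ≤
      ∫ t in (-(π / 2))..(π / 2), RR p t * cos t * (SS p t * cos t)) :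
    ∃ p1 p2 : ℝ, 0 ≤ p1 ∧ p1 ≤ p2 ∧ p2 ≤ 1 ∧ ∀ u σ v : ℝ, 0 < u → 0 < v →
      Ar (fun x y => p (u * x + σ * y) (0 * x + v * y)) * (u ^ p1 * v ^ p2) ≤ Ar p := by
  have cS := h.SS_cont
  have cR := h.RR_cont
  have a1 : Pth _ fun φ => SS p φ * cos φ := prim_pth (by fun_prop)
  have a2 : Pth _ fun φ => SS p φ * sin φ := prim_pth (by fun_prop)
  have b1 := h.pX1
  have b2 := h.pX2
  have hb := h.beta
  set Y1 := prim fun φ => SS p φ * cos φ with hY1
  set Y2 := prim fun φ => SS p φ * sin φ with hY2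
  have S0 : ∀ t, 0 ≤ SS p t := fun t => ss_nonneg (h.rho_pos t)
  have ex := expand a1 a2 b1 b2
  have w1 := a1.wedge a2 fun φ θ l1 l2 => by
    have := mul_nonneg (mul_nonneg (S0 φ) (S0 θ))
      (Real.sin_pos_of_pos_of_lt_pi (x := θ - φ) (by linarith) (by linarith)).le
    rw [Real.sin_sub] at this
    linarith
  have w2 := b1.wedge b2 fun φ θ l1 l2 => by
    have := mul_nonneg (mul_pos (h.WW_pos φ) (h.WW_pos θ)).le (h.wedge l1 l2)
    linarith
  have n1 : ∫ t in (-(π / 2))..(π / 2), Y1 t * (WW p t * g1 p t) = 0 := by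
    rw [a1.ibp b1]
    simp only [sub_mul]
    rw [integral_sub (Continuous.intervalIntegrable (by fun_prop) _ _) (a1.mint a1 _ _), f1]
    linarith [a1.ibp a1]
  have n2 : ∫ t in (-(π / 2))..(π / 2), (RR p t * sin t - Y1 t) * (SS p t * sin t) =
      (∫ t in (-(π / 2))..(π / 2), RR p t * sin t * (SS p t * sin t)) -
        ∫ t in (-(π / 2))..(π / 2), Y1 t * (SS p t * sin t) := by
    simp only [sub_mul]
    rw [integral_sub (Continuous.intervalIntegrable (by fun_prop) _ _) (a1.mint a2 _ _)]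
  have n3 : ∫ t in (-(π / 2))..(π / 2), Y1 t * (WW p t * g2 p t) =
      (∫ t in (-(π / 2))..(π / 2), RR p t * cos t * (SS p t * cos t)) -
        ∫ t in (-(π / 2))..(π / 2), Y1 t * (SS p t * sin t) := by
    rw [a1.ibp b2]
    simp only [sub_mul, neg_mul]
    rw [integral_sub (Continuous.intervalIntegrable (by fun_prop) _ _) (a2.mint a1 _ _),
      intervalIntegral.integral_neg, a2.ibp a1]
    ring
  have n4 := ex 1 0 1
  have n5 : 2 * ∫ t in (-(π / 2))..(π / 2), (Y1 t + 1 * (RR p t * sin t - Y1 t)) *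
      (SS p t * sin t + 0 * (WW p t * g1 p t) + 1 * (WW p t * g2 p t)) = Ar p := by
    have q1 := a1.lin b1 1
    have q2 := (a2.lin b1 0).lin b2 1
    have i := q1.ibp q2
    rw [two_mul]
    nth_rewrite 2 [i]
    rw [← sub_eq_add_neg, ← integral_sub (q1.mint q2 _ _) (q2.mint q1 _ _)]
    refine integral_congr fun t _ => ?_
    simp only [g1, g2]
    rw [sq]
    nth_rewrite 4 [h.SW t]
    linear_combination RR p t * (SS p t + WW p t * kap p t) * Real.sin_sq_add_cos_sq t
  rw [n1, n2, n3] at n4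
  simp only [n1, n2, n3] at ex
  generalize ∫ t in (-(π / 2))..(π / 2), Y1 t * (SS p t * sin t) = α at *
  generalize ∫ t in (-(π / 2))..(π / 2), RR p t * sin t * (SS p t * sin t) = m1 at *
  generalize ∫ t in (-(π / 2))..(π / 2), RR p t * cos t * (SS p t * cos t) = m2 at *
  generalize ∫ t in (-(π / 2))..(π / 2), (RR p t * sin t - Y1 t) * (WW p t * g2 p t) = c at *
  have A0 := h.Ar_pos
  set H := Ar p / 2 with hH
  have H0 : 0 < H := by positivity
  have sH : α + (m1 - α) + (m2 - α) + c = H := by linarith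
  refine ⟨(m1 - α) / H + c / H, (m2 - α) / H + c / H,
    add_nonneg (div_nonneg (by linarith) H0.le) (div_nonneg w2 H0.le), by gcongr, ?_,
    fun u σ v u0 v0 => ?_⟩
  · rw [← add_div, div_le_one H0]; linarith
  have hq : Nm fun x y => p (u * x + σ * y) (0 * x + v * y) :=
    h.comp (by have := mul_pos u0 v0; linarith)
  set q : ℝ → ℝ → ℝ := fun x y => p (u * x + σ * y) (0 * x + v * y) with hq'
  have cq := hq.RR_cont
  have sch := schmidt (a1.lin b1 u) ((a2.lin b1 σ).lin b2 v).int (cR.pow 2)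
    (R := fun φ => RR q (φ + π / 2)) (by fun_prop) (fun φ => hq.RR_pos _) (fun φ => rr_le _)
    fun θ φ r r0 r1 => by
      have k0 := hq.kap_pos (φ + π / 2)
      have k1 : kap q (φ + π / 2) = p (u * -sin φ + σ * cos φ) (0 * -sin φ + v * cos φ) := by
        simp only [kap, hq', Real.cos_add_pi_div_two, Real.sin_add_pi_div_two]
      have k2 := h.sub θ (u * -sin φ + σ * cos φ) (0 * -sin φ + v * cos φ)
      rw [← k1] at k2
      have k3 := tangent (h.rho_pos θ) (hq.rho_pos (φ + π / 2))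
      rw [inv_inv] at k3
      change RR q (φ + π / 2) * (SS p θ + WW p θ * kap q (φ + π / 2)) ≤ RR p θ ^ 2 at k3
      have e : r * cos φ * (SS p θ * sin θ + σ * (WW p θ * g1 p θ) + v * (WW p θ * g2 p θ)) -
          r * sin φ * (SS p θ * cos θ + u * (WW p θ * g1 p θ)) =
          r * (SS p θ * sin (θ - φ) + WW p θ * (g1 p θ * (u * -sin φ + σ * cos φ) +
            g2 p θ * (0 * -sin φ + v * cos φ))) := by
        rw [Real.sin_sub]; ring
      rw [e, abs_mul, abs_of_pos r0]
      refine le_trans (mul_le_mul r1 ((abs_add_le _ _).trans ?_) (abs_nonneg _)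
        (hq.RR_pos _).le) k3
      rw [abs_mul, abs_mul, abs_of_nonneg (S0 θ), abs_of_pos (h.WW_pos θ)]
      exact add_le_add (mul_le_of_le_one_right (S0 θ) (Real.abs_sin_le_one _))
        (mul_le_mul_of_nonneg_left k2 (h.WW_pos θ).le)
  rw [hq.Ar_full, ex] at sch
  change _ ≤ Ar p ^ 2 at sch
  have am := Real.geom_mean_le_arith_mean4_weighted (w₁ := α / H) (w₂ := (m1 - α) / H)
    (w₃ := (m2 - α) / H) (w₄ := c / H) (p₁ := 1) (p₂ := u) (p₃ := v) (p₄ := u * v)
    (div_nonneg w1 H0.le) (div_nonneg (by linarith) H0.le) (div_nonneg (by linarith) H0.le)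
    (div_nonneg w2 H0.le) zero_le_one u0.le v0.le (mul_pos u0 v0).le
    (by rw [← add_div, ← add_div, ← add_div, sH, div_self H0.ne'])
  rw [Real.one_rpow, Real.mul_rpow u0.le v0.le] at am
  rw [Real.rpow_add u0, Real.rpow_add v0]
  have am2 := mul_le_mul_of_nonneg_left am H0.le
  have e : H * (α / H * 1 + (m1 - α) / H * u + (m2 - α) / H * v + c / H * (u * v)) =
      α + σ * 0 + v * (m2 - α) + u * (m1 - α) + u * v * c := by field_simp; ring
  rw [e] at am2
  have Q0 := hq.Ar_pos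
  refine le_of_mul_le_mul_left ?_ A0
  have := mul_le_mul_of_nonneg_right am2 Q0.le
  have e2 : Ar p = 2 * H := by rw [hH]; ring
  rw [e2] at sch ⊢
  nlinarith

lemma Nm.frame (h : Nm p) : ∃ φ : ℝ,
    ∫ t in (-(π / 2))..(π / 2), RR p (t + φ) * sin t * (SS p (t + φ) * cos t) = 0 ∧
    ∫ t in (-(π / 2))..(π / 2), RR p (t + φ) * sin t * (SS p (t + φ) * sin t) ≤
      ∫ t in (-(π / 2))..(π / 2), RR p (t + φ) * cos t * (SS p (t + φ) * cos t) := by
  have cS := h.SS_cont
  have cR := h.RR_cont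
  set C := ∫ t in (-(π / 2))..(π / 2), RR p t * SS p t * cos (2 * t) with hC
  set S := ∫ t in (-(π / 2))..(π / 2), RR p t * SS p t * sin (2 * t) with hS
  set z : ℂ := ⟨C, S⟩ with hz
  set φ := z.arg / 2 with hφ
  have z1 : ‖z‖ * cos (2 * φ) = C := by
    rw [show 2 * φ = z.arg by rw [hφ]; ring]; exact Complex.norm_mul_cos_arg z
  have z2 : ‖z‖ * sin (2 * φ) = S := by
    rw [show 2 * φ = z.arg by rw [hφ]; ring]; exact Complex.norm_mul_sin_arg z
  have lin : ∀ a b : ℝ, ∫ t in (-(π / 2))..(π / 2),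
      RR p (t + φ) * SS p (t + φ) * (a * cos (2 * (t + φ)) + b * sin (2 * (t + φ))) =
      a * C + b * S := fun a b => by
    rw [shift (F := fun t => RR p t * SS p t * (a * cos (2 * t) + b * sin (2 * t)))
      (fun t => by simp only [h.RR_per, h.SS_per, mul_add 2 t π, Real.cos_add_two_pi,
        Real.sin_add_two_pi]) φ, hC, hS, ← intervalIntegral.integral_const_mul,
      ← intervalIntegral.integral_const_mul, ← integral_add
        (Continuous.intervalIntegrable (by fun_prop) _ _)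
        (Continuous.intervalIntegrable (by fun_prop) _ _)]
    exact integral_congr fun t _ => by ring
  have sc := Real.sin_sq_add_cos_sq (2 * φ)
  refine ⟨φ, ?_, ?_⟩
  · have := lin (-sin (2 * φ) / 2) (cos (2 * φ) / 2)
    rw [← z1, ← z2] at this
    refine Eq.trans (integral_congr fun t _ => ?_) (this.trans (by ring))
    simp only [mul_add 2 t φ, Real.cos_add (2 * t), Real.sin_add (2 * t), Real.sin_two_mul t]
    linear_combination (-(RR p (t + φ) * SS p (t + φ) * sin t * cos t)) * sc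
  · have := lin (cos (2 * φ)) (sin (2 * φ))
    rw [← z1, ← z2] at this
    rw [← sub_nonneg, ← integral_sub (Continuous.intervalIntegrable (by fun_prop) _ _)
      (Continuous.intervalIntegrable (by fun_prop) _ _)]
    refine le_of_le_of_eq (b := cos (2 * φ) * (‖z‖ * cos (2 * φ)) +
      sin (2 * φ) * (‖z‖ * sin (2 * φ))) (by nlinarith [norm_nonneg z])
      (this.symm.trans (integral_congr fun t _ => ?_))
    simp only [mul_add 2 t φ, Real.cos_add (2 * t), Real.sin_add (2 * t), Real.cos_two_mul' t]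
    linear_combination (RR p (t + φ) * SS p (t + φ) * (cos t ^ 2 - sin t ^ 2)) * sc

/-- The horospherical inequality. -/
lemma Nm.horo (h : Nm p) : ∃ φ p1 p2 : ℝ, 0 ≤ p1 ∧ p1 ≤ p2 ∧ p2 ≤ 1 ∧ ∀ a b c d : ℝ,
    0 < a * d - b * c →
      Ar (fun x y => p (a * x + b * y) (c * x + d * y)) * ((a * d - b * c) ^ p1 *
        ((-sin φ * a + cos φ * c) ^ 2 + (-sin φ * b + cos φ * d) ^ 2) ^ ((p2 - p1) / 2)) ≤
        Ar p := by
  obtain ⟨φ, f1, f2⟩ := h.frame
  have sc := Real.sin_sq_add_cos_sq φ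
  have hq : Nm fun x y => p (cos φ * x + -sin φ * y) (sin φ * x + cos φ * y) :=
    h.comp (by nlinarith)
  set q : ℝ → ℝ → ℝ := fun x y => p (cos φ * x + -sin φ * y) (sin φ * x + cos φ * y) with hq'
  have kq : ∀ t, kap q t = kap p (t + φ) := fun t => by
    simp only [kap, hq', Real.cos_add, Real.sin_add]
    congr 1 <;> ring
  obtain ⟨p1, p2, l0, l1, l2, H⟩ := hq.tri (by simpa only [RR, SS, kq] using f1)
    (by simpa only [RR, SS, kq] using f2)
  refine ⟨φ, p1, p2, l0, l1, l2, fun a b c d hd => ?_⟩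
  set k1 := -sin φ * a + cos φ * c with hk1
  set k2 := -sin φ * b + cos φ * d with hk2
  set j1 := cos φ * a + sin φ * c with hj1
  set j2 := cos φ * b + sin φ * d with hj2
  have dt : j1 * k2 - j2 * k1 = a * d - b * c := by
    rw [hk1, hk2, hj1, hj2]; linear_combination (a * d - b * c) * sc
  set z : ℂ := ⟨k2, -k1⟩ with hz
  have z1 : ‖z‖ * cos z.arg = k2 := Complex.norm_mul_cos_arg z
  have z2 : ‖z‖ * sin z.arg = -k1 := Complex.norm_mul_sin_arg z
  set ψ := z.arg with hψ
  have sc2 := Real.sin_sq_add_cos_sq ψ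
  have z0 : 0 < ‖z‖ := by
    refine (norm_nonneg z).lt_of_ne fun e => ?_
    rw [← e, zero_mul] at z1 z2
    rw [← z1, show k1 = 0 by linarith] at dt
    linarith
  set v := ‖z‖ with hv
  set u := j1 * cos ψ + j2 * sin ψ with hu
  have uv : u * v = a * d - b * c := by rw [← dt, hu]; linear_combination j1 * z1 + j2 * z2
  have u0 : 0 < u := (mul_pos_iff_of_pos_right z0).1 (uv ▸ hd)
  have v2 : k1 ^ 2 + k2 ^ 2 = v ^ 2 := by
    rw [← z1, show k1 = -(v * sin ψ) by linarith]; linear_combination v ^ 2 * sc2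
  have key := H u (-(j1 * sin ψ) + j2 * cos ψ) v u0 z0
  rw [h.Ar_rot kq] at key
  have e1 : Ar (fun x y => q (u * x + (-(j1 * sin ψ) + j2 * cos ψ) * y) (0 * x + v * y)) =
      Ar (fun x y => p (a * x + b * y) (c * x + d * y)) := by
    refine (h.comp hd.ne').Ar_rot (φ := ψ) fun t => ?_
    simp only [kap, hq', Real.cos_add, Real.sin_add]
    have y1 : k1 * cos ψ + k2 * sin ψ = 0 := by linear_combination cos ψ * z2 - sin ψ * z1
    have y2 : -(k1 * sin ψ) + k2 * cos ψ = v := by
      linear_combination (-sin ψ) * z2 - cos ψ * z1 + v * sc2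
    rw [← y2, hu]
    simp only [hk1, hk2, hj1, hj2] at y1 ⊢
    congr 1
    · linear_combination (sin φ * cos t) * y1 + (a * (cos t * cos ψ - sin t * sin ψ) +
        b * (sin t * cos ψ + cos t * sin ψ)) * sc
    · linear_combination (-(cos φ * cos t)) * y1 + (c * (cos t * cos ψ - sin t * sin ψ) +
        d * (sin t * cos ψ + cos t * sin ψ)) * sc
  rw [e1] at key
  have e2 : (a * d - b * c) ^ p1 * (k1 ^ 2 + k2 ^ 2) ^ ((p2 - p1) / 2) = u ^ p1 * v ^ p2 := by
    rw [← uv, v2, Real.mul_rpow u0.le z0.le, ← Real.rpow_natCast v 2, ← Real.rpow_mul z0.le,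
      mul_assoc, ← Real.rpow_add z0]
    congr 2
    push_cast
    ring
  rw [e2]
  exact key

end Pool.Agent.P.MP_5a340a_gt.Def
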