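import Pool.Agent.P.MP_5a340a_gt.If2

/-! Log-concavity along directions that commute with the covariance matrix. -/

set_option autoImplicit false

namespace Pool.Agent.P.MP_5a340a_gt

open MeasureTheory ProbabilityTheory Real Set Filter Topology Matrix WithLp
open scoped ENNReal NNReal MatrixOrder RealInnerProductSpace

variable {n : ℕ}

/-- The matrix of second moments. -/
noncomputable def covM (μ : Measure (Fin n → ℝ)) : Matrix (Fin n) (Fin n) ℝ :=
  Matrix.of fun i j => ∫ x, x i * x j ∂μ

lemma memLp_eval (μ : Measure (Fin n → ℝ)) [IsGaussian μ] (i : Fin n) :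
    MemLp (fun x : Fin n → ℝ => x i) 2 μ :=
  IsGaussian.memLp_dual μ (ContinuousLinearMap.proj i) 2 (by simp)

lemma int_mul (μ : Measure (Fin n → ℝ)) [IsGaussian μ] (i j : Fin n) :
    Integrable (fun x : Fin n → ℝ => x i * x j) μ :=
  (memLp_eval μ i).integrable_mul (memLp_eval μ j)

lemma int_bil (μ : Measure (Fin n → ℝ)) [IsGaussian μ] (u v : Fin n → ℝ) :
    ∫ x, (u ⬝ᵥ x) * (v ⬝ᵥ x) ∂μ = u ⬝ᵥ covM μ *ᵥ v := by
  have : ∀ x : Fin n → ℝ, (u ⬝ᵥ x) * (v ⬝ᵥ x) = ∑ i, ∑ j, u i * v j * (x i * x j) := by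
    intro x
    simp only [dotProduct, Finset.sum_mul_sum]
    exact Finset.sum_congr rfl fun i _ => Finset.sum_congr rfl fun j _ => by ring
  simp only [this]
  rw [integral_finsetSum _ fun i _ => integrable_finsetSum _ fun j _ => (int_mul μ i j).const_mul _]
  simp only [dotProduct, mulVec, Finset.mul_sum, covM, Matrix.of_apply]
  refine Finset.sum_congr rfl fun i _ => ?_
  rw [integral_finsetSum _ fun j _ => (int_mul μ i j).const_mul _]
  refine Finset.sum_congr rfl fun j _ => ?_
  rw [integral_const_mul]; ring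

lemma covM_psd (μ : Measure (Fin n → ℝ)) [IsGaussian μ] : (covM μ).PosSemidef := by
  refine Matrix.PosSemidef.of_dotProduct_mulVec_nonneg ?_ fun x => ?_
  · ext i j
    simp [covM, mul_comm]
  · rw [star_trivial, ← int_bil]
    exact integral_nonneg fun y => mul_self_nonneg _

lemma gauss_rep (μ : Measure (Fin n → ℝ)) [IsGaussian μ] (h0 : ∫ x, x ∂μ = 0) :
    μ = (gam n).map fun z => CFC.sqrt (covM μ) *ᵥ z := by
  set e := (EuclideanSpace.equiv (Fin n) ℝ).symm with he
  have hS := covM_psd μ
  have key : μ.map e = multivariateGaussian 0 (covM μ) := by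
    have : IsGaussian (μ.map e) := isGaussian_map (e : (Fin n → ℝ) →L[ℝ] EuclideanSpace ℝ (Fin n))
    have m0 : ∫ x, x ∂(μ.map e) = 0 := by
      rw [integral_map e.continuous.aemeasurable (by fun_prop)]
      have := (e : (Fin n → ℝ) →L[ℝ] EuclideanSpace ℝ (Fin n)).integral_comp_comm
        (IsGaussian.integrable_fun_id (μ := μ))
      simp only [ContinuousLinearEquiv.coe_coe] at this
      rw [this, h0, map_zero]
    apply IsGaussian.ext
    · simpa using m0
    ext x y
    rw [covarianceBilin_multivariateGaussian hS, covarianceBilin_apply IsGaussian.memLp_two_id]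
    simp only [id, m0, sub_zero]
    rw [integral_map e.continuous.aemeasurable (by fun_prop), ← int_bil]
    refine integral_congr_ae (ae_of_all _ fun z => ?_)
    simp [he, PiLp.inner_apply, dotProduct, mul_comm]
  have m1 : Measurable fun z : Fin n → ℝ => CFC.sqrt (covM μ) *ᵥ z := by fun_prop
  have e2 : μ = (μ.map e).map e.symm := by
    rw [Measure.map_map e.symm.continuous.measurable e.continuous.measurable]
    simp
  conv_lhs => rw [e2, key, multivariateGaussian, ← map_pi_eq_stdGaussian]
  rw [Measure.map_map e.symm.continuous.measurable (by fun_prop),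
    Measure.map_map (by fun_prop) (by fun_prop)]
  unfold gam
  congr 1
  funext z
  simp [he]
  rfl

/-- Log-concavity between two dilations whose quotient commutes with the covariance. -/
theorem if_part (μ : Measure (Fin n → ℝ)) [IsGaussian μ] (h0 : ∫ x, x ∂μ = 0)
    (s t : Fin n → ℝ) (hc : ∀ i j, s i - t i ≠ s j - t j → ∫ x, x i * x j ∂μ = 0)
    {K : Set (Fin n → ℝ)} (hK : IsClosed K) (cK : Convex ℝ K) (sK : ∀ x ∈ K, -x ∈ K)
    {a : ℝ} (a0 : 0 ≤ a) (a1 : a ≤ 1) :
    (μ {x | (fun i => Real.exp (-(a • s + (1 - a) • t) i) * x i) ∈ K}).toReal ≥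
      (μ {x | (fun i => Real.exp (-s i) * x i) ∈ K}).toReal ^ a *
      (μ {x | (fun i => Real.exp (-t i) * x i) ∈ K}).toReal ^ (1 - a) := by
  set L := CFC.sqrt (covM μ) with hL
  set d : Fin n → ℝ := fun i => s i - t i with hd
  have comm : ∀ r : ℝ, Commute L (diagonal fun i => exp (-(r * d i))) := by
    intro r
    refine Commute.cfcₙ_nnreal (a := covM μ) ?_ _
    ext i j
    rw [mul_diagonal, diagonal_mul]
    by_cases h : d i = d j
    · rw [h, mul_comm]
    · have : covM μ i j = 0 := hc i j h
      rw [this, mul_zero, zero_mul]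
  set T : (Fin n → ℝ) →ₗ[ℝ] (Fin n → ℝ) :=
    Matrix.mulVecLin (diagonal (fun i => exp (-t i)) * L) with hT
  have key := gam_closed (K := T ⁻¹' K)
    (hK.preimage (LinearMap.continuous_of_finiteDimensional T)) (cK.linear_preimage T)
    (fun x hx => by
      change T (-x) ∈ K
      rw [map_neg]; exact sK _ hx) d a0 a1
  have m1 : Measurable fun z : Fin n → ℝ => L *ᵥ z := by fun_prop
  have tr : ∀ (r : ℝ) (τ : Fin n → ℝ), (∀ i, τ i = t i + r * d i) →
      μ {x | (fun i => exp (-τ i) * x i) ∈ K} =
        gam n {z | (fun i => exp (-(r * d i)) * z i) ∈ T ⁻¹' K} := by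
    intro r τ hτ
    have mD : Measurable fun (z : Fin n → ℝ) (i : Fin n) => exp (-τ i) * z i := by fun_prop
    have mS : MeasurableSet {x : Fin n → ℝ | (fun i => exp (-τ i) * x i) ∈ K} :=
      mD hK.measurableSet
    have rep : μ = (gam n).map fun z => L *ᵥ z := gauss_rep μ h0
    rw [rep, Measure.map_apply m1 mS]
    congr 1
    ext z
    have e1 : (fun i => exp (-(r * d i)) * z i) = diagonal (fun i => exp (-(r * d i))) *ᵥ z := by
      funext i; rw [mulVec_diagonal]
    have e2 : T (fun i => exp (-(r * d i)) * z i) = fun i => exp (-τ i) * (L *ᵥ z) i := by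
      rw [e1, hT, mulVecLin_apply, mulVec_mulVec, Matrix.mul_assoc, (comm r).eq, ← Matrix.mul_assoc,
        ← mulVec_mulVec, diagonal_mul_diagonal]
      funext i
      rw [mulVec_diagonal, ← Real.exp_add, hτ i]
      congr 2
      ring
    simp only [mem_preimage, mem_ofPred_eq, e2]
  rw [tr 1 s (fun i => by simp [hd]), tr 0 t (fun i => by simp),
    tr a (a • s + (1 - a) • t) (fun i => by simp [hd]; ring)]
  exact key

end Pool.Agent.P.MP_5a340a_gt
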