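import Pool.Agent.P.MP_5a340a_gt.D5
import Pool.Agent.P.MP_5a340a_gt.If3

/-! The defect of log-concavity in the plane is at most the mutual information. -/

set_option autoImplicit false

namespace Pool.Agent.P.MP_5a340a_gt.Def

open Real Set MeasureTheory ProbabilityTheory intervalIntegral Filter Topology Matrix
open scoped ENNReal NNReal MatrixOrder

lemma gam_polar {q : ℝ → ℝ → ℝ} (h : Nm q) :
    (gam 2 {z | q (z 0) (z 1) ≤ 1}).toReal = Ar q / (2 * π) := by
  have pi := Real.pi_pos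
  have mS : MeasurableSet {z : ℝ × ℝ | q z.1 z.2 ≤ 1} :=
    (isClosed_le h.cont2 continuous_const).measurableSet
  set F : ℝ × ℝ → ℝ≥0∞ := {z : ℝ × ℝ | q z.1 z.2 ≤ 1}.indicator
    fun z => ENNReal.ofReal (exp (-((z.1 ^ 2 + z.2 ^ 2) / 2)) / (2 * π)) with hF
  have mF : Measurable F := Measurable.indicator (by fun_prop) mS
  have mS' : MeasurableSet {z : Fin 2 → ℝ | q (z 0) (z 1) ≤ 1} :=
    (MeasurableEquiv.finTwoArrow (α := ℝ)).measurable mS
  have e1 : gam 2 {z | q (z 0) (z 1) ≤ 1} = ∫⁻ z, F z := by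
    rw [← (volume_preserving_finTwoArrow ℝ).lintegral_comp mF, gam,
      pi_gauss (fun _ => 1) fun _ => one_ne_zero, withDensity_apply _ mS',
      ← lintegral_indicator mS']
    refine lintegral_congr fun z => ?_
    by_cases hz : q (z 0) (z 1) ≤ 1
    · rw [indicator_of_mem (s := {z : Fin 2 → ℝ | q (z 0) (z 1) ≤ 1}) hz, hF,
        indicator_of_mem (s := {z : ℝ × ℝ | q z.1 z.2 ≤ 1}) hz]
      congr 1
      change _ = exp (-((z 0 ^ 2 + z 1 ^ 2) / 2)) / (2 * π)
      rw [Fin.prod_univ_two]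
      simp only [gaussianPDFReal, NNReal.coe_one, mul_one, sub_zero]
      rw [mul_mul_mul_comm, ← Real.exp_add, ← mul_inv, Real.mul_self_sqrt (by positivity),
        inv_mul_eq_div]
      congr 2
      ring
    · rw [indicator_of_notMem (s := {z : Fin 2 → ℝ | q (z 0) (z 1) ≤ 1}) hz, hF,
        indicator_of_notMem (s := {z : ℝ × ℝ | q z.1 z.2 ≤ 1}) hz]
  have cR := h.RR_cont
  have e2 : ∫⁻ z, F z = ENNReal.ofReal (∫ t in (-π)..π, RR q (t + 0) ^ 2 / 2 / (2 * π)) := by
    rw [polar_lint mF, ← lint_Ioc (by fun_prop) (by linarith) fun _ _ => by positivity,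
      ← Measure.restrict_congr_set Ioo_ae_eq_Ioc]
    refine lintegral_congr fun θ => ?_
    have e : RR q (θ + 0) ^ 2 / 2 / (2 * π) =
        ∫ r in (0 : ℝ)..(kap q θ)⁻¹, r * (exp (-(r ^ 2 / 2)) / (2 * π)) := by
      rw [integral_eq_sub_of_hasDerivAt (f := fun r => -exp (-(r ^ 2 / 2)) / (2 * π))
        (fun r _ => ((E_deriv r).fun_neg.div_const (2 * π)).congr_deriv (by ring))
        (Continuous.intervalIntegrable (by fun_prop) _ _), add_zero, RR, rr_sq]
      simp only [ne_eq, OfNat.ofNat_ne_zero, not_false_eq_true, zero_pow, zero_div, neg_zero,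
        Real.exp_zero]
      ring
    rw [e, ← radial (by fun_prop) (h.rho_pos θ).le fun r hr => by positivity]
    refine setLIntegral_congr_fun measurableSet_Ioi fun r hr => ?_
    have r0 : 0 < r := hr
    have k : q (r * cos θ) (r * sin θ) ≤ 1 ↔ r ≤ (kap q θ)⁻¹ := by
      rw [h.smul, abs_of_pos r0, ← one_div, le_div_iff₀ (h.kap_pos θ)]
      rfl
    by_cases hr' : r ≤ (kap q θ)⁻¹
    · simp only [hF]
      rw [indicator_of_mem (mem_Iic.2 hr'),
        indicator_of_mem (s := {z : ℝ × ℝ | q z.1 z.2 ≤ 1}) (k.2 hr'), ENNReal.ofReal_mul r0.le]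
      congr 5
      simp only []
      linear_combination r ^ 2 / 2 * Real.sin_sq_add_cos_sq θ
    · simp only [hF]
      rw [indicator_of_notMem (fun h => hr' (mem_Iic.1 h)),
        indicator_of_notMem (s := {z : ℝ × ℝ | q z.1 z.2 ≤ 1}) (fun h => hr' (k.1 h)), mul_zero]
  rw [e1, e2, intervalIntegral.integral_div, h.Ar_full,
    ENNReal.toReal_ofReal (div_nonneg h.Ar_pos.le (by positivity))]

lemma lowC {A B C D : ℝ} (A0 : 0 ≤ A) (C0 : 0 ≤ C) (D1 : D ≤ 1) (hD : A * C * D = A * C - B ^ 2)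
    (x y : ℝ) : D * C * y ^ 2 ≤ A * x ^ 2 + 2 * B * x * y + C * y ^ 2 := by
  rcases A0.eq_or_lt with e | e
  · have : B = 0 := by rw [← e] at hD; nlinarith
    rw [← e, this]
    nlinarith [mul_nonneg C0 (sq_nonneg y)]
  · refine le_of_mul_le_mul_left ?_ e
    nlinarith [sq_nonneg (A * x + B * y)]

lemma caseII {A B C D a xs ys xt yt : ℝ} (A0 : 0 ≤ A) (C0 : 0 ≤ C) (D0 : 0 < D) (D1 : D ≤ 1)
    (hD : A * C * D = A * C - B ^ 2) (n1 : A + 2 * B + C = 1) (neg : A + B < 0)
    (hy : a * ys + (1 - a) * yt = 0) (a0 : 0 ≤ a) (a1 : a ≤ 1) (hle : xs ≤ ys) :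
    (1 - a) * log D ≤ a * log (A * exp xs ^ 2 + 2 * B * exp xs * exp ys + C * exp ys ^ 2) +
      (1 - a) * log (A * exp xt ^ 2 + 2 * B * exp xt * exp yt + C * exp yt ^ 2) := by
  have l1 : exp xs ≤ exp ys := Real.exp_le_exp.2 hle
  have p1 := Real.exp_pos xs
  have p2 := Real.exp_pos ys
  have p3 := Real.exp_pos yt
  have h1 : exp ys ^ 2 ≤ A * exp xs ^ 2 + 2 * B * exp xs * exp ys + C * exp ys ^ 2 := by
    have k : A * (exp xs + exp ys) + 2 * B * exp ys ≤ 0 := by
      nlinarith [mul_le_mul_of_nonneg_left l1 A0]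
    have := mul_nonneg_of_nonpos_of_nonpos (sub_nonpos.2 l1) k
    have e : C = 1 - A - 2 * B := by linarith
    rw [e]
    nlinarith
  have h2 : D * exp yt ^ 2 ≤ A * exp xt ^ 2 + 2 * B * exp xt * exp yt + C * exp yt ^ 2 := by
    refine le_trans ?_ (lowC A0 C0 D1 hD _ _)
    have : D ≤ D * C := le_mul_of_one_le_right D0.le (by linarith)
    exact mul_le_mul_of_nonneg_right this (sq_nonneg _)
  have g1 := Real.log_le_log (by positivity) h1
  have g2 := Real.log_le_log (by positivity) h2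
  rw [Real.log_pow, Real.log_exp] at g1
  rw [Real.log_mul D0.ne' (by positivity), Real.log_pow, Real.log_exp] at g2
  have := mul_le_mul_of_nonneg_left g1 a0
  have := mul_le_mul_of_nonneg_left g2 (sub_nonneg.2 a1)
  push_cast at *
  nlinarith

lemma strip_log {A B C D a xs ys xt yt : ℝ} (A0 : 0 ≤ A) (C0 : 0 ≤ C) (D0 : 0 < D) (D1 : D ≤ 1)
    (hD : A * C * D = A * C - B ^ 2) (n1 : A + 2 * B + C = 1) (hx : a * xs + (1 - a) * xt = 0)
    (hy : a * ys + (1 - a) * yt = 0) (a0 : 0 < a) (a1 : a < 1) :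
    max a (1 - a) * log D ≤
      a * log (A * exp xs ^ 2 + 2 * B * exp xs * exp ys + C * exp ys ^ 2) +
      (1 - a) * log (A * exp xt ^ 2 + 2 * B * exp xt * exp yt + C * exp yt ^ 2) := by
  have lD : log D ≤ 0 := Real.log_nonpos D0.le D1
  have m1 : max a (1 - a) * log D ≤ a * log D :=
    mul_le_mul_of_nonpos_right (le_max_left _ _) lD
  have m2 : max a (1 - a) * log D ≤ (1 - a) * log D :=
    mul_le_mul_of_nonpos_right (le_max_right _ _) lD
  have b0 : 0 < 1 - a := by linarith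
  have two : ∀ {A C xs ys xt yt : ℝ}, 0 ≤ A → 0 ≤ C → A * C * D = A * C - B ^ 2 →
      A + 2 * B + C = 1 → a * xs + (1 - a) * xt = 0 → a * ys + (1 - a) * yt = 0 → A + B < 0 →
      max a (1 - a) * log D ≤
      a * log (A * exp xs ^ 2 + 2 * B * exp xs * exp ys + C * exp ys ^ 2) +
      (1 - a) * log (A * exp xt ^ 2 + 2 * B * exp xt * exp yt + C * exp yt ^ 2) := by
    intro A C xs ys xt yt A0 C0 hD n1 hx hy neg
    rcases le_total xs ys with l | l
    · exact m2.trans (caseII A0 C0 D0 D1 hD n1 neg hy a0.le a1.le l)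
    · have l2 : xt ≤ yt := by
        refine le_of_mul_le_mul_left ?_ b0
        nlinarith
      have := caseII (a := 1 - a) (xt := xs) (yt := ys) A0 C0 D0 D1 hD n1 neg
        (by linarith) b0.le (by linarith) l2
      rw [sub_sub_cancel] at this
      linarith
  by_cases c1 : A + B < 0
  · exact two A0 C0 hD n1 hx hy c1
  by_cases c2 : C + B < 0
  · have := two C0 A0 (by linarith) (by linarith) hy hx c2
    rwa [show C * exp ys ^ 2 + 2 * B * exp ys * exp xs + A * exp xs ^ 2 =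
        A * exp xs ^ 2 + 2 * B * exp xs * exp ys + C * exp ys ^ 2 by ring,
      show C * exp yt ^ 2 + 2 * B * exp yt * exp xt + A * exp xt ^ 2 =
        A * exp xt ^ 2 + 2 * B * exp xt * exp yt + C * exp yt ^ 2 by ring] at this
  rw [not_lt] at c1 c2
  have key : ∀ x y, 2 * ((A + B) * x + (C + B) * y) ≤
      log (A * exp x ^ 2 + 2 * B * exp x * exp y + C * exp y ^ 2) := fun x y => by
    have h1 := convexOn_exp.2 (mem_univ x) (mem_univ y) c1 c2 (by linarith)
    simp only [smul_eq_mul] at h1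
    have h2 := pow_le_pow_left₀ (Real.exp_pos _).le h1 2
    have h3 : 0 ≤ (A * C - B ^ 2) * (exp x - exp y) ^ 2 := by rw [← hD]; positivity
    have h4 : ((A + B) * exp x + (C + B) * exp y) ^ 2 + (A * C - B ^ 2) * (exp x - exp y) ^ 2 =
        A * exp x ^ 2 + 2 * B * exp x * exp y + C * exp y ^ 2 := by
      linear_combination (A * exp x ^ 2 + 2 * B * exp x * exp y + C * exp y ^ 2) * n1
    have h5 := Real.log_le_log (by positivity) (h2.trans (le_of_le_of_eq
      (le_add_of_nonneg_right h3) h4))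
    rw [Real.log_pow, Real.log_exp] at h5
    exact_mod_cast h5
  have k1 := mul_le_mul_of_nonneg_left (key xs ys) a0.le
  have k2 := mul_le_mul_of_nonneg_left (key xt yt) b0.le
  have k3 : a * log D ≤ 0 := mul_nonpos_of_nonneg_of_nonpos a0.le lD
  have k4 : a * (2 * ((A + B) * xs + (C + B) * ys)) +
      (1 - a) * (2 * ((A + B) * xt + (C + B) * yt)) = 0 := by
    linear_combination 2 * (A + B) * hx + 2 * (C + B) * hy
  linarith

/-- The inequality for areas of Ball bodies. -/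
lemma area_ineq {p : ℝ → ℝ → ℝ} (h : Nm p) {l11 l12 l21 l22 A B C a xs ys xt yt xm ym c : ℝ}
    (hA : l11 ^ 2 + l12 ^ 2 = A) (hB : l11 * l21 + l12 * l22 = B) (hC : l21 ^ 2 + l22 ^ 2 = C)
    (hΔ : l11 * l22 - l12 * l21 ≠ 0)
    (hx : a * xs + (1 - a) * xt = xm) (hy : a * ys + (1 - a) * yt = ym) (a0 : 0 < a)
    (a1 : a < 1) (c0 : 0 < c) (c1 : c ≤ 1)
    (hc : ∀ u v : ℝ, A * u ^ 2 + 2 * (B * u * v) + C * v ^ 2 = 1 → 2 * log c ≤
      a * log (A * u ^ 2 * exp (xs - xm) ^ 2 + 2 * (B * u * v) * exp (xs - xm) * exp (ys - ym) +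
        C * v ^ 2 * exp (ys - ym) ^ 2) +
      (1 - a) * log (A * u ^ 2 * exp (xt - xm) ^ 2 +
        2 * (B * u * v) * exp (xt - xm) * exp (yt - ym) + C * v ^ 2 * exp (yt - ym) ^ 2)) :
    c * (Ar (fun x y => p (exp xs * l11 * x + exp xs * l12 * y)
        (exp ys * l21 * x + exp ys * l22 * y)) ^ a *
      Ar (fun x y => p (exp xt * l11 * x + exp xt * l12 * y)
        (exp yt * l21 * x + exp yt * l22 * y)) ^ (1 - a)) ≤
      Ar (fun x y => p (exp xm * l11 * x + exp xm * l12 * y)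
        (exp ym * l21 * x + exp ym * l22 * y)) := by
  set P : ℝ → ℝ → ℝ → ℝ → ℝ := fun u v x y => p (exp u * l11 * x + exp u * l12 * y)
    (exp v * l21 * x + exp v * l22 * y) with hP
  have nP : ∀ u v, Nm (P u v) := fun u v => h.comp (by
    have := mul_ne_zero (mul_pos (Real.exp_pos u) (Real.exp_pos v)).ne' hΔ
    exact fun e => this (by linear_combination e))
  change c * (Ar (P xs ys) ^ a * Ar (P xt yt) ^ (1 - a)) ≤ Ar (P xm ym)
  obtain ⟨φ, p1, p2, l0, l1, l2, H⟩ := (nP xm ym).horo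
  set Δ := l11 * l22 - l12 * l21 with hΔ'
  set v1 := (-sin φ * l22 - cos φ * l21) / Δ with hv1
  set v2 := (sin φ * l12 + cos φ * l11) / Δ with hv2
  have w1 : v1 * l11 + v2 * l21 = -sin φ := by
    rw [hv1, hv2]; field_simp; rw [hΔ']; ring
  have w2 : v1 * l12 + v2 * l22 = cos φ := by
    rw [hv1, hv2]; field_simp; rw [hΔ']; ring
  have n1 : A * v1 ^ 2 + 2 * (B * v1 * v2) + C * v2 ^ 2 = 1 := by
    rw [← hA, ← hB, ← hC, ← Real.sin_sq_add_cos_sq φ, ← w2, ← neg_sq (sin φ), ← w1]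
    ring
  set Q : ℝ → ℝ → ℝ := fun x y => A * v1 ^ 2 * exp x ^ 2 + 2 * (B * v1 * v2) * exp x * exp y +
    C * v2 ^ 2 * exp y ^ 2 with hQ
  have Q0 : ∀ x y, 0 < Q x y := fun x y => by
    have e : Q x y = (exp x * v1 * l11 + exp y * v2 * l21) ^ 2 +
        (exp x * v1 * l12 + exp y * v2 * l22) ^ 2 := by
      simp only [hQ]; rw [← hA, ← hB, ← hC]; ring
    rw [e]
    refine lt_of_le_of_ne (by positivity) fun e0 => ?_
    have z1 : exp x * v1 * l11 + exp y * v2 * l21 = 0 := by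
      nlinarith [sq_nonneg (exp x * v1 * l11 + exp y * v2 * l21),
        sq_nonneg (exp x * v1 * l12 + exp y * v2 * l22)]
    have z2 : exp x * v1 * l12 + exp y * v2 * l22 = 0 := by
      nlinarith [sq_nonneg (exp x * v1 * l11 + exp y * v2 * l21),
        sq_nonneg (exp x * v1 * l12 + exp y * v2 * l22)]
    have y1 : exp x * Δ * v1 = 0 := by rw [hΔ']; linear_combination l22 * z1 - l21 * z2
    have y2 : exp y * Δ * v2 = 0 := by rw [hΔ']; linear_combination l11 * z2 - l12 * z1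
    rw [(mul_eq_zero.1 y1).resolve_left (mul_ne_zero (Real.exp_pos _).ne' hΔ),
      (mul_eq_zero.1 y2).resolve_left (mul_ne_zero (Real.exp_pos _).ne' hΔ)] at n1
    norm_num at n1
  have K : ∀ x y, log (Ar (P (xm + x) (ym + y))) + (p1 * (x + y) + (p2 - p1) / 2 * log (Q x y)) ≤
      log (Ar (P xm ym)) := fun x y => by
    have dt : (l22 * exp x * l11 - l12 * exp y * l21) / Δ *
        ((-(l21 * exp x * l12) + l11 * exp y * l22) / Δ) -
        (l22 * exp x * l12 - l12 * exp y * l22) / Δ *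
        ((-(l21 * exp x * l11) + l11 * exp y * l21) / Δ) = exp (x + y) := by
      rw [Real.exp_add]; field_simp; rw [hΔ']; ring
    have := H _ _ _ _ (dt ▸ Real.exp_pos (x + y))
    rw [dt] at this
    have e1 : (fun s t => P xm ym ((l22 * exp x * l11 - l12 * exp y * l21) / Δ * s +
        (l22 * exp x * l12 - l12 * exp y * l22) / Δ * t)
        ((-(l21 * exp x * l11) + l11 * exp y * l21) / Δ * s +
        (-(l21 * exp x * l12) + l11 * exp y * l22) / Δ * t)) = P (xm + x) (ym + y) := by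
      funext s t
      simp only [hP, Real.exp_add]
      congr 1 <;> (field_simp; rw [hΔ']; ring)
    have e2 : (-sin φ * ((l22 * exp x * l11 - l12 * exp y * l21) / Δ) +
        cos φ * ((-(l21 * exp x * l11) + l11 * exp y * l21) / Δ)) ^ 2 +
        (-sin φ * ((l22 * exp x * l12 - l12 * exp y * l22) / Δ) +
        cos φ * ((-(l21 * exp x * l12) + l11 * exp y * l22) / Δ)) ^ 2 = Q x y := by
      simp only [hQ]
      rw [← hA, ← hB, ← hC, hv1, hv2]
      ring
    rw [e1, e2] at this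
    have A1 := (nP (xm + x) (ym + y)).Ar_pos
    have q0 := Q0 x y
    have := Real.log_le_log (by positivity) this
    rwa [Real.log_mul A1.ne' (by positivity), Real.log_mul (by positivity) (by positivity),
      Real.log_rpow (Real.exp_pos _), Real.log_rpow q0, Real.log_exp] at this
  have Ks := K (xs - xm) (ys - ym)
  have Kt := K (xt - xm) (yt - ym)
  rw [add_sub_cancel, add_sub_cancel] at Ks Kt
  have st := hc v1 v2 n1
  change _ ≤ a * log (Q (xs - xm) (ys - ym)) + (1 - a) * log (Q (xt - xm) (yt - ym)) at st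
  have As := (nP xs ys).Ar_pos
  have At := (nP xt yt).Ar_pos
  have Am := (nP xm ym).Ar_pos
  rw [← Real.log_le_log_iff (by positivity) Am, Real.log_mul (by positivity) (by positivity),
    Real.log_mul (by positivity) (by positivity), Real.log_rpow As, Real.log_rpow At]
  have b0 : 0 ≤ 1 - a := by linarith
  have k1 := mul_le_mul_of_nonneg_left Ks a0.le
  have k2 := mul_le_mul_of_nonneg_left Kt b0
  have k3 := mul_le_mul_of_nonneg_left st (show 0 ≤ (p2 - p1) / 2 by linarith)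
  have k5 := mul_nonneg_of_nonpos_of_nonpos (show p2 - p1 - 1 ≤ 0 by linarith)
    (Real.log_nonpos c0.le c1)
  have k6 : a * (p1 * (xs - xm + (ys - ym))) + (1 - a) * (p1 * (xt - xm + (yt - ym))) = 0 := by
    linear_combination p1 * hx + p1 * hy
  nlinarith

/-- Thin strips are extremal among symmetric convex bodies in the plane. -/
theorem upper_pt (μ : Measure (Fin 2 → ℝ)) [IsGaussian μ] (h0 : ∫ x, x ∂μ = 0) {A B C : ℝ}
    (hA : ∫ x, x 0 * x 0 ∂μ = A) (hB : ∫ x, x 0 * x 1 ∂μ = B) (hC : ∫ x, x 1 * x 1 ∂μ = C)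
    (nd : B ^ 2 < A * C) {a : ℝ} (a0 : 0 < a) (a1 : a < 1) (s t : Fin 2 → ℝ) {c : ℝ}
    (c0 : 0 < c) (c1 : c ≤ 1)
    (hc : ∀ u v : ℝ, A * u ^ 2 + 2 * (B * u * v) + C * v ^ 2 = 1 → 2 * log c ≤
      a * log (A * u ^ 2 * exp (-s 0 - -(a • s + (1 - a) • t) 0) ^ 2 +
        2 * (B * u * v) * exp (-s 0 - -(a • s + (1 - a) • t) 0) *
          exp (-s 1 - -(a • s + (1 - a) • t) 1) +
        C * v ^ 2 * exp (-s 1 - -(a • s + (1 - a) • t) 1) ^ 2) +
      (1 - a) * log (A * u ^ 2 * exp (-t 0 - -(a • s + (1 - a) • t) 0) ^ 2 +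
        2 * (B * u * v) * exp (-t 0 - -(a • s + (1 - a) • t) 0) *
          exp (-t 1 - -(a • s + (1 - a) • t) 1) +
        C * v ^ 2 * exp (-t 1 - -(a • s + (1 - a) • t) 1) ^ 2))
    {K : Set (Fin 2 → ℝ)} (cK : Convex ℝ K) (hK : IsCompact K)
    (iK : (interior K).Nonempty) (sK : ∀ x ∈ K, -x ∈ K) :
    c * ((μ {x | (fun i => exp (-s i) * x i) ∈ K}).toReal ^ a *
        (μ {x | (fun i => exp (-t i) * x i) ∈ K}).toReal ^ (1 - a)) ≤
      (μ {x | (fun i => exp (-(a • s + (1 - a) • t) i) * x i) ∈ K}).toReal := by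
  set L := CFC.sqrt (covM μ) with hL
  have LL : L * L = covM μ := CFC.sqrt_mul_sqrt_self _ (covM_psd μ).nonneg
  have sym : L 1 0 = L 0 1 := by
    have := (CFC.sqrt_nonneg (covM μ)).posSemidef.isHermitian.apply 0 1
    simpa using this
  have eA : L 0 0 ^ 2 + L 0 1 ^ 2 = A := by
    have := congrFun (congrFun LL 0) 0
    rw [Matrix.mul_apply, Fin.sum_univ_two, sym] at this
    rw [sq, sq, ← hA]; exact this
  have eB : L 0 0 * L 1 0 + L 0 1 * L 1 1 = B := by
    have := congrFun (congrFun LL 0) 1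
    rw [Matrix.mul_apply, Fin.sum_univ_two] at this
    rw [sym, ← hB]; exact this
  have eC : L 1 0 ^ 2 + L 1 1 ^ 2 = C := by
    have := congrFun (congrFun LL 1) 1
    rw [Matrix.mul_apply, Fin.sum_univ_two, ← sym] at this
    rw [sq, sq, ← hC]; exact this
  have hΔ : L 0 0 * L 1 1 - L 0 1 * L 1 0 ≠ 0 := fun e => by
    have dd : A * C - B ^ 2 = (L 0 0 * L 1 1 - L 0 1 * L 1 0) ^ 2 := by
      rw [← eA, ← eB, ← eC]; ring
    rw [e] at dd
    linarith
  have n0 : K ∈ 𝓝 (0 : Fin 2 → ℝ) := by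
    obtain ⟨x, hx⟩ := iK
    have := cK.combo_interior_self_mem_interior hx (sK x (interior_subset hx))
      (a := 1 / 2) (b := 1 / 2) (by norm_num) (by norm_num) (by norm_num)
    rw [smul_neg, add_neg_cancel] at this
    exact mem_interior_iff_mem_nhds.1 this
  have ab : Absorbent ℝ K := absorbent_nhds_zero n0
  have hp : Nm fun x y => gauge K ![x, y] := by
    refine ⟨fun x y x' y' => ?_, fun c x y => ?_, fun x y hxy => ?_⟩
    · have := gauge_add_le cK ab ![x, y] ![x', y']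
      simpa using this
    · have := gauge_smul ((balanced_iff_neg_mem cK).2 sK) c ![x, y]
      simpa using this
    · refine (gauge_pos ab (hK.isVonNBounded ℝ)).2 fun e => hxy ⟨?_, ?_⟩
      · simpa using congrFun e 0
      · simpa using congrFun e 1
  have m1 : Measurable fun z : Fin 2 → ℝ => L *ᵥ z := by fun_prop
  have tr : ∀ τ : Fin 2 → ℝ, (μ {x | (fun i => exp (-τ i) * x i) ∈ K}).toReal =
      Ar (fun x y => gauge K ![exp (-τ 0) * L 0 0 * x + exp (-τ 0) * L 0 1 * y,
        exp (-τ 1) * L 1 0 * x + exp (-τ 1) * L 1 1 * y]) / (2 * π) := fun τ => by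
    have mD : Measurable fun (z : Fin 2 → ℝ) (i : Fin 2) => exp (-τ i) * z i := by fun_prop
    have mS : MeasurableSet {x : Fin 2 → ℝ | (fun i => exp (-τ i) * x i) ∈ K} :=
      mD hK.measurableSet
    have rep : μ = (gam 2).map fun z => L *ᵥ z := gauss_rep μ h0
    rw [← gam_polar (hp.comp (by
      have := mul_ne_zero (mul_pos (Real.exp_pos (-τ 0)) (Real.exp_pos (-τ 1))).ne' hΔ
      exact fun e => this (by linear_combination e))), rep, Measure.map_apply m1 mS]
    congr 2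
    ext z
    simp only [mem_preimage, mem_ofPred_eq]
    rw [gauge_le_one_iff_mem_closure cK n0, hK.isClosed.closure_eq]
    refine iff_of_eq (congrArg (· ∈ K) ?_)
    funext i
    fin_cases i <;> simp [mulVec, dotProduct, Fin.sum_univ_two] <;> ring
  have key := area_ineq hp (xs := -s 0) (ys := -s 1) (xt := -t 0) (yt := -t 1)
    (xm := -(a • s + (1 - a) • t) 0) (ym := -(a • s + (1 - a) • t) 1) eA eB eC hΔ
    (by simp only [Pi.add_apply, Pi.smul_apply, smul_eq_mul]; ring)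
    (by simp only [Pi.add_apply, Pi.smul_apply, smul_eq_mul]; ring) a0 a1 c0 c1 hc
  have pi : 0 < 2 * π := by have := Real.pi_pos; positivity
  have nn : ∀ τ : Fin 2 → ℝ, 0 ≤ Ar (fun x y => gauge K
      ![exp (-τ 0) * L 0 0 * x + exp (-τ 0) * L 0 1 * y,
        exp (-τ 1) * L 1 0 * x + exp (-τ 1) * L 1 1 * y]) := fun τ =>
    integral_nonneg (by linarith [Real.pi_pos]) fun _ _ => sq_nonneg _
  rw [tr, tr, tr, Real.div_rpow (nn s) pi.le, Real.div_rpow (nn t) pi.le, div_mul_div_comm,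
    ← Real.rpow_add pi, add_sub_cancel, Real.rpow_one, ← mul_div_assoc]
  exact div_le_div_of_nonneg_right key pi.le

end Pool.Agent.P.MP_5a340a_gt.Def
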