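import Mathlib

/-!
Thin strips: log-concavity between two dilations fails as soon as two coordinates that are dilated
differently are correlated (lemmas on strips by helper31).
-/

set_option autoImplicit false
open MeasureTheory ProbabilityTheory Filter Topology

namespace Pool.Agent.P.MP_5a340a_gt.Strip

/-- Two-sided bound for the Gaussian measure of a short interval. -/
theorem short {v ε : ℝ} (hv : 0 < v) (hε : 0 < ε) :
    (gaussianReal 0 v.toNNReal (Set.Icc (-ε) ε)).toReal ≤ 2 * ε / √(2 * Real.pi * v) ∧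
    2 * ε / √(2 * Real.pi * v) * (1 - ε ^ 2 / (2 * v)) ≤
      (gaussianReal 0 v.toNNReal (Set.Icc (-ε) ε)).toReal := by
  have h0 : v.toNNReal ≠ 0 := by simpa using hv
  have hc : ((v.toNNReal : NNReal) : ℝ) = v := Real.coe_toNNReal _ hv.le
  have hs : 0 < √(2 * Real.pi * v) := Real.sqrt_pos.mpr (by have := Real.pi_pos; positivity)
  rw [gaussianReal_apply_eq_integral _ h0, ENNReal.toReal_ofReal
    (integral_nonneg fun x => gaussianPDFReal_nonneg _ _ x)]
  have hi : IntegrableOn (gaussianPDFReal 0 v.toNNReal) (Set.Icc (-ε) ε) :=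
    (integrable_gaussianPDFReal _ _).integrableOn
  have hvol : volume.real (Set.Icc (-ε) ε) = 2 * ε := by
    rw [Real.volume_real_Icc_of_le (by linarith)]
    ring
  constructor
  · calc ∫ x in Set.Icc (-ε) ε, gaussianPDFReal 0 v.toNNReal x
        ≤ ∫ _ in Set.Icc (-ε) ε, (√(2 * Real.pi * v))⁻¹ := by
          refine setIntegral_mono_on hi (integrableOn_const (by simp)) measurableSet_Icc
            fun x _ => ?_
          unfold gaussianPDFReal
          rw [hc]
          refine mul_le_of_le_one_right (by positivity) (Real.exp_le_one_iff.mpr ?_)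
          exact div_nonpos_of_nonpos_of_nonneg (by nlinarith [sq_nonneg (x - 0)]) (by linarith)
      _ = _ := by rw [setIntegral_const, hvol, smul_eq_mul, div_eq_mul_inv]
  · calc 2 * ε / √(2 * Real.pi * v) * (1 - ε ^ 2 / (2 * v))
        = ∫ _ in Set.Icc (-ε) ε, (√(2 * Real.pi * v))⁻¹ * (1 - ε ^ 2 / (2 * v)) := by
          rw [setIntegral_const, hvol, smul_eq_mul, div_eq_mul_inv]
          ring
      _ ≤ _ := by
          refine setIntegral_mono_on (integrableOn_const (by simp)) hi measurableSet_Icc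
            fun x hx => ?_
          unfold gaussianPDFReal
          rw [hc]
          refine mul_le_mul_of_nonneg_left ?_ (by positivity)
          refine le_trans ?_ (Real.add_one_le_exp _)
          have h1 : (x - 0) ^ 2 ≤ ε ^ 2 := by nlinarith [hx.1, hx.2]
          have h2 : (x - 0) ^ 2 / (2 * v) ≤ ε ^ 2 / (2 * v) := by gcongr
          rw [neg_div]
          linarith

variable {n : ℕ}

/-- The linear form supported on two coordinates. -/
noncomputable def lf (i j : Fin n) (α β : ℝ) : StrongDual ℝ (Fin n → ℝ) :=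
  α • ContinuousLinearMap.proj i + β • ContinuousLinearMap.proj j

theorem lf_apply (i j : Fin n) (α β : ℝ) (x : Fin n → ℝ) : lf i j α β x = α * x i + β * x j := by
  simp [lf]

theorem mean_zero (μ : Measure (Fin n → ℝ)) [IsGaussian μ] (h0 : ∫ x, x ∂μ = 0)
    (L : StrongDual ℝ (Fin n → ℝ)) : μ[L] = 0 := by
  have := L.integral_comp_comm (IsGaussian.integrable_id (μ := μ))
  simp only [id] at this
  rw [this, h0, map_zero]

theorem var_lf (μ : Measure (Fin n → ℝ)) [IsGaussian μ] (h0 : ∫ x, x ∂μ = 0) (i j : Fin n)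
    (α β : ℝ) : Var[lf i j α β; μ] = α ^ 2 * (∫ x, x i * x i ∂μ) +
      2 * α * β * (∫ x, x i * x j ∂μ) + β ^ 2 * ∫ x, x j * x j ∂μ := by
  have hm : ∀ k : Fin n, MemLp (fun x : Fin n → ℝ => x k) 2 μ := fun k =>
    IsGaussian.memLp_dual μ (ContinuousLinearMap.proj k) 2 (by simp)
  have hI : ∀ k l : Fin n, Integrable (fun x : Fin n → ℝ => x k * x l) μ := fun k l =>
    (hm k).integrable_mul (hm l)
  rw [variance_of_integral_eq_zero (by fun_prop) (mean_zero μ h0 _), ← integral_const_mul,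
    ← integral_const_mul, ← integral_const_mul,
    ← integral_add ((hI i i).const_mul _) ((hI i j).const_mul _),
    ← integral_add (f := fun x : Fin n → ℝ => α ^ 2 * (x i * x i) + 2 * α * β * (x i * x j))
      (((hI i i).const_mul _).add ((hI i j).const_mul _)) ((hI j j).const_mul _)]
  refine integral_congr_ae (ae_of_all _ fun x => ?_)
  simp only [lf_apply]
  ring

theorem strip (μ : Measure (Fin n → ℝ)) [IsGaussian μ] (h0 : ∫ x, x ∂μ = 0)
    (L : StrongDual ℝ (Fin n → ℝ)) (ε : ℝ) :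
    μ {x | |L x| ≤ ε} = gaussianReal 0 (Var[L; μ]).toNNReal (Set.Icc (-ε) ε) := by
  rw [← mean_zero μ h0 L, ← IsGaussian.map_eq_gaussianReal L,
    Measure.map_apply (by fun_prop) measurableSet_Icc]
  congr 1
  ext x
  simp [abs_le]

/-- The truncated strip. -/
def body (L : StrongDual ℝ (Fin n → ℝ)) (ε R : ℝ) : Set (Fin n → ℝ) :=
  {y | |L y| ≤ ε} ∩ Metric.closedBall 0 R

theorem exhaust (μ : Measure (Fin n → ℝ)) [IsFiniteMeasure μ] (L : StrongDual ℝ (Fin n → ℝ))
    (ε : ℝ) (T : (Fin n → ℝ) → Fin n → ℝ) :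
    Tendsto (fun R : ℕ => (μ {x | T x ∈ body L ε (R + 1)}).toReal) atTop
      (𝓝 (μ {x | |L (T x)| ≤ ε}).toReal) := by
  have hm : Monotone fun R : ℕ => {x | T x ∈ body L ε (R + 1)} := fun R R' h x hx =>
    ⟨hx.1, Metric.closedBall_subset_closedBall (by exact_mod_cast Nat.succ_le_succ h) hx.2⟩
  have hU : ⋃ R : ℕ, {x | T x ∈ body L ε (R + 1)} = {x | |L (T x)| ≤ ε} := by
    ext x
    simp only [Set.mem_iUnion, Set.mem_ofPred_eq]
    refine ⟨fun ⟨_, h⟩ => h.1, fun h => ?_⟩
    obtain ⟨R, hR⟩ := exists_nat_ge ‖T x‖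
    exact ⟨R, h, mem_closedBall_zero_iff.mpr (by linarith)⟩
  have := tendsto_measure_iUnion_atTop (μ := μ) hm
  rw [hU] at this
  exact (ENNReal.tendsto_toReal (measure_ne_top μ _)).comp this

theorem key {u v w a : ℝ} (hu : 0 < u) (hv : 0 < v) (hw : 0 < w)
    (h : u ^ a * v ^ (1 - a) < w) :
    ∃ ε : ℝ, 0 < ε ∧ 0 ≤ 1 - ε ^ 2 / (2 * u) ∧ 0 ≤ 1 - ε ^ 2 / (2 * v) ∧
      2 * ε / √(2 * Real.pi * w) < (2 * ε / √(2 * Real.pi * u) * (1 - ε ^ 2 / (2 * u))) ^ a *
        (2 * ε / √(2 * Real.pi * v) * (1 - ε ^ 2 / (2 * v))) ^ (1 - a) := by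
  have pi := Real.pi_pos
  have su : 0 < √(2 * Real.pi * u) := Real.sqrt_pos.mpr (by positivity)
  have sv : 0 < √(2 * Real.pi * v) := Real.sqrt_pos.mpr (by positivity)
  have sw : 0 < √(2 * Real.pi * w) := Real.sqrt_pos.mpr (by positivity)
  have h1 : √(2 * Real.pi * u) ^ a * √(2 * Real.pi * v) ^ (1 - a) < √(2 * Real.pi * w) := by
    refine Real.lt_sqrt_of_sq_lt ?_
    have e : ∀ x b : ℝ, 0 < x → (√x ^ b) ^ 2 = x ^ b := fun x b hx => by
      rw [sq, ← Real.mul_rpow (Real.sqrt_nonneg _) (Real.sqrt_nonneg _), Real.mul_self_sqrt hx.le]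
    rw [mul_pow, e _ _ (by positivity), e _ _ (by positivity),
      Real.mul_rpow (by positivity) hu.le, Real.mul_rpow (by positivity) hv.le, mul_mul_mul_comm,
      ← Real.rpow_add (by positivity), add_sub_cancel, Real.rpow_one]
    exact mul_lt_mul_of_pos_left h (by positivity)
  have c1 : Tendsto (fun ε : ℝ => 1 - ε ^ 2 / (2 * u)) (𝓝[>] 0) (𝓝 1) := by
    have : Continuous fun ε : ℝ => 1 - ε ^ 2 / (2 * u) := by fun_prop
    simpa using (this.tendsto 0).mono_left nhdsWithin_le_nhds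
  have c2 : Tendsto (fun ε : ℝ => 1 - ε ^ 2 / (2 * v)) (𝓝[>] 0) (𝓝 1) := by
    have : Continuous fun ε : ℝ => 1 - ε ^ 2 / (2 * v) := by fun_prop
    simpa using (this.tendsto 0).mono_left nhdsWithin_le_nhds
  have c3 := ((c1.rpow_const (p := a) (Or.inl one_ne_zero)).mul
    (c2.rpow_const (p := 1 - a) (Or.inl one_ne_zero))).const_mul √(2 * Real.pi * w)
  rw [Real.one_rpow, Real.one_rpow, mul_one, mul_one] at c3
  obtain ⟨ε, ⟨⟨e1, e2⟩, e3⟩, e4⟩ := (((c1.eventually (le_mem_nhds one_pos)).and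
    (c2.eventually (le_mem_nhds one_pos))).and (c3.eventually (lt_mem_nhds h1))).and
    self_mem_nhdsWithin |>.exists
  have e0 : 0 < ε := e4
  refine ⟨ε, e0, e1, e2, ?_⟩
  have pu := Real.rpow_pos_of_pos su a
  have pv := Real.rpow_pos_of_pos sv (1 - a)
  have e5 : (2 * ε / √(2 * Real.pi * u) * (1 - ε ^ 2 / (2 * u))) ^ a *
      (2 * ε / √(2 * Real.pi * v) * (1 - ε ^ 2 / (2 * v))) ^ (1 - a) =
      2 * ε * ((1 - ε ^ 2 / (2 * u)) ^ a * (1 - ε ^ 2 / (2 * v)) ^ (1 - a) /
        (√(2 * Real.pi * u) ^ a * √(2 * Real.pi * v) ^ (1 - a))) := by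
    have e6 : (2 * ε) ^ a * (2 * ε) ^ (1 - a) = 2 * ε := by
      rw [← Real.rpow_add (by positivity), add_sub_cancel, Real.rpow_one]
    rw [Real.mul_rpow (by positivity) e1, Real.mul_rpow (by positivity) e2,
      Real.div_rpow (by positivity) su.le, Real.div_rpow (by positivity) sv.le]
    conv_rhs => rw [← e6]
    field_simp
  rw [e5, div_eq_mul_inv (2 * ε)]
  refine mul_lt_mul_of_pos_left ?_ (by positivity)
  rw [lt_div_iff₀ (by positivity), inv_mul_lt_iff₀ sw]
  exact e3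

theorem only_if (μ : Measure (Fin n → ℝ)) [IsGaussian μ] (h0 : ∫ x, x ∂μ = 0)
    (s t : Fin n → ℝ) {a : ℝ} (a0 : 0 < a) (a1 : a < 1) (i j : Fin n)
    (hd : s i - t i ≠ s j - t j) (hB : ∫ x, x i * x j ∂μ ≠ 0) :
    ∃ K : Set (Fin n → ℝ), Convex ℝ K ∧ IsCompact K ∧ (interior K).Nonempty ∧
      (∀ x ∈ K, -x ∈ K) ∧
      (μ {x | (fun k => Real.exp (-(a • s + (1 - a) • t) k) * x k) ∈ K}).toReal <
        (μ {x | (fun k => Real.exp (-s k) * x k) ∈ K}).toReal ^ a *
        (μ {x | (fun k => Real.exp (-t k) * x k) ∈ K}).toReal ^ (1 - a) := by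
  have hv := var_lf μ h0 i j
  generalize ∫ x, x i * x i ∂μ = A at hv
  generalize ∫ x, x i * x j ∂μ = B at hv hB
  generalize ∫ x, x j * x j ∂μ = C at hv
  have hn : ∀ α β, 0 ≤ α ^ 2 * A + 2 * α * β * B + β ^ 2 * C := fun α β =>
    hv α β ▸ variance_nonneg _ _
  have hA : 0 ≤ A := by simpa using hn 1 0
  have hC : 0 < C := by
    have h1 : 0 ≤ C := by simpa using hn 0 1
    refine h1.lt_of_ne fun h => ?_
    have h2 := hn 1 (-(A + 1) / B)
    rw [← h] at h2
    have h3 : 2 * 1 * (-(A + 1) / B) * B = -(2 * (A + 1)) := by field_simp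
    rw [h3] at h2
    linarith
  have b0 : 0 < 1 - a := by linarith
  have B2 : 0 < B ^ 2 := by positivity
  set m : Fin n → ℝ := a • s + (1 - a) • t with hm
  set r : (Fin n → ℝ) → ℝ := fun τ => Real.exp (-(τ i - τ j)) with hr
  have rp : ∀ τ, 0 < r τ := fun τ => Real.exp_pos _
  have gap : r m < a * r s + (1 - a) * r t := by
    have := strictConvexOn_exp.2 (Set.mem_univ (-(s i - s j))) (Set.mem_univ (-(t i - t j)))
      (fun h => hd (by linarith)) a0 b0 (by ring)
    simp only [smul_eq_mul] at this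
    have e : -(m i - m j) = a * -(s i - s j) + (1 - a) * -(t i - t j) := by
      simp only [hm, Pi.add_apply, Pi.smul_apply, smul_eq_mul]; ring
    simp only [hr]
    rw [e]; exact this
  have small : ∀ x y : ℝ, 0 < y → ∀ᶠ η : ℝ in 𝓝[>] 0, η * x < y := fun x y hy => by
    have : Continuous fun η : ℝ => η * x := by fun_prop
    have h2 : Tendsto (fun η : ℝ => η * x) (𝓝[>] 0) (𝓝 0) := by
      simpa using (this.tendsto 0).mono_left nhdsWithin_le_nhds
    exact h2.eventually (gt_mem_nhds hy)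
  obtain ⟨η, ⟨⟨⟨n1, n2⟩, n3⟩, n4⟩, n5⟩ := ((((small (2 * B ^ 2 * r s) C hC).and
    (small (2 * B ^ 2 * r t) C hC)).and (small (2 * B ^ 2 * r m) C hC)).and
    (small (A * (a * r s ^ 2 + (1 - a) * r t ^ 2)) (2 * (a * r s + (1 - a) * r t - r m))
      (by linarith))).and self_mem_nhdsWithin |>.exists
  have η0 : 0 < η := n5
  set κ := -(η * B) with hκ
  set q : ℝ → ℝ := fun x => C - η * (2 * B ^ 2 * x) + η ^ 2 * B ^ 2 * A * x ^ 2 with hq
  set L : (Fin n → ℝ) → StrongDual ℝ (Fin n → ℝ) :=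
    fun τ => lf i j (κ * Real.exp (-τ i)) (Real.exp (-τ j)) with hL
  have hV : ∀ τ, Var[L τ; μ] = Real.exp (-(2 * τ j)) * q (r τ) := fun τ => by
    have e1 : Real.exp (-τ i) = r τ * Real.exp (-τ j) := by
      simp only [hr]; rw [← Real.exp_add]; congr 1; ring
    have e2 : Real.exp (-(2 * τ j)) = Real.exp (-τ j) ^ 2 := by
      rw [sq, ← Real.exp_add]; congr 1; ring
    simp only [hL, hq]
    rw [hv, e1, e2, hκ]
    ring
  have qp : ∀ x, η * (2 * B ^ 2 * x) < C → 0 < q x := fun x hx => by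
    have : 0 ≤ η ^ 2 * B ^ 2 * A * x ^ 2 := by positivity
    simp only [hq]; linarith
  have p0 : 0 < Var[L s; μ] := by rw [hV]; exact mul_pos (Real.exp_pos _) (qp _ n1)
  have p2 : 0 < Var[L t; μ] := by rw [hV]; exact mul_pos (Real.exp_pos _) (qp _ n2)
  have p1 : 0 < Var[L m; μ] := by rw [hV]; exact mul_pos (Real.exp_pos _) (qp _ n3)
  obtain ⟨ε, e0, e1, e2, e3⟩ := key (a := a) p0 p2 p1 (by
    rw [hV, hV, hV, Real.mul_rpow (Real.exp_pos _).le (qp _ n1).le,
      Real.mul_rpow (Real.exp_pos _).le (qp _ n2).le, mul_mul_mul_comm, ← Real.exp_mul,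
      ← Real.exp_mul, ← Real.exp_add]
    have e : -(2 * s j) * a + -(2 * t j) * (1 - a) = -(2 * m j) := by
      simp only [hm, Pi.add_apply, Pi.smul_apply, smul_eq_mul]; ring
    rw [e]
    refine mul_lt_mul_of_pos_left ?_ (Real.exp_pos _)
    refine (Real.geom_mean_le_arith_mean2_weighted a0.le b0.le (qp _ n1).le (qp _ n2).le
      (by ring)).trans_lt ?_
    have h1 : 0 ≤ η ^ 2 * B ^ 2 * A * r m ^ 2 := by positivity
    have h2 := mul_lt_mul_of_pos_left n4 (mul_pos η0 B2)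
    simp only [hq]
    nlinarith)
  have s0 := (short p0 e0).2
  have s1 := (short p1 e0).1
  have s2 := (short p2 e0).2
  rw [← strip μ h0] at s0 s1 s2
  have t0 := exhaust μ (lf i j κ 1) ε fun x k => Real.exp (-s k) * x k
  have t2 := exhaust μ (lf i j κ 1) ε fun x k => Real.exp (-t k) * x k
  have q0 : ∀ (τ x : Fin n → ℝ), lf i j κ 1 (fun k => Real.exp (-τ k) * x k) = L τ x :=
    fun τ x => by simp only [hL, lf_apply]; ring
  simp only [q0] at t0 t2
  have lt : (μ {x | |L m x| ≤ ε}).toReal <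
      (μ {x | |L s x| ≤ ε}).toReal ^ a * (μ {x | |L t x| ≤ ε}).toReal ^ (1 - a) :=
    (s1.trans_lt e3).trans_le (mul_le_mul (Real.rpow_le_rpow (by positivity) s0 a0.le)
      (Real.rpow_le_rpow (by positivity) s2 b0.le) (by positivity) (by positivity))
  obtain ⟨R, hR⟩ := (((t0.rpow_const (Or.inr a0.le)).mul
    (t2.rpow_const (Or.inr b0.le))).eventually (lt_mem_nhds lt)).exists
  have hcl : IsClosed {y : Fin n → ℝ | |lf i j κ 1 y| ≤ ε} :=
    isClosed_le (by fun_prop) continuous_const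
  refine ⟨body (lf i j κ 1) ε (R + 1), ?_, (isCompact_closedBall _ _).inter_left hcl, ⟨0, ?_⟩,
    fun x hx => ⟨?_, ?_⟩, lt_of_le_of_lt ?_ hR⟩
  · refine Convex.inter ?_ (convex_closedBall _ _)
    have : {y : Fin n → ℝ | |lf i j κ 1 y| ≤ ε} = lf i j κ 1 ⁻¹' Set.Icc (-ε) ε := by
      ext y
      simp [abs_le]
    rw [this]
    exact (convex_Icc _ _).linear_preimage (lf i j κ 1 : (Fin n → ℝ) →ₗ[ℝ] ℝ)
  · rw [mem_interior_iff_mem_nhds]
    refine inter_mem ?_ (Metric.closedBall_mem_nhds _ (by positivity))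
    have hc : Continuous fun y : Fin n → ℝ => |lf i j κ 1 y| := by fun_prop
    exact (hc.tendsto 0).eventually (ge_mem_nhds (by simpa using e0))
  · have := hx.1
    simpa using this
  · have := hx.2
    simpa using this
  · refine ENNReal.toReal_mono (measure_ne_top _ _) (measure_mono fun x hx => ?_)
    have := hx.1
    rw [Set.mem_ofPred_eq, q0] at this
    exact this

end Pool.Agent.P.MP_5a340a_gt.Strip
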