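import Pool.Agent.P.MP_5a340a_gt.D6
import Pool.Agent.P.MP_5a340a_gt.OnlyIf

/-! Thin strips give the best constants. -/

set_option autoImplicit false

namespace Pool.Agent.P.MP_5a340a_gt.Def

open Real Set MeasureTheory ProbabilityTheory Filter Topology
open Pool.Agent.P.MP_5a340a_gt.Strip

/-- The inequality with constant `c` for all symmetric convex bodies. -/
def Ineq (μ : Measure (Fin 2 → ℝ)) (s t : Fin 2 → ℝ) (a c : ℝ) : Prop :=
  ∀ K : Set (Fin 2 → ℝ), Convex ℝ K → IsCompact K → (interior K).Nonempty →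
    (∀ x ∈ K, -x ∈ K) →
    (μ {x | (fun i => Real.exp (-(a • s + (1 - a) • t) i) * x i) ∈ K}).toReal ≥
      c * ((μ {x | (fun i => Real.exp (-s i) * x i) ∈ K}).toReal ^ a *
        (μ {x | (fun i => Real.exp (-t i) * x i) ∈ K}).toReal ^ (1 - a))

/-- The variance of a linear form of the dilated vector. -/
noncomputable def VV (A B C : ℝ) (τ : Fin 2 → ℝ) (u v : ℝ) : ℝ :=
  (u * exp (-τ 0)) ^ 2 * A + 2 * (u * exp (-τ 0)) * (v * exp (-τ 1)) * B + (v * exp (-τ 1)) ^ 2 * C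

theorem strip_nec (μ : Measure (Fin 2 → ℝ)) [IsGaussian μ] (h0 : ∫ x, x ∂μ = 0) {A B C : ℝ}
    (hA : ∫ x, x 0 * x 0 ∂μ = A) (hB : ∫ x, x 0 * x 1 ∂μ = B) (hC : ∫ x, x 1 * x 1 ∂μ = C)
    {s t : Fin 2 → ℝ} {a c : ℝ} (a0 : 0 < a) (a1 : a < 1) (c0 : 0 < c) (h : Ineq μ s t a c)
    {u v : ℝ} (p0 : 0 < VV A B C s u v) (p2 : 0 < VV A B C t u v)
    (p1 : 0 < VV A B C (a • s + (1 - a) • t) u v) :
    c ^ 2 * VV A B C (a • s + (1 - a) • t) u v ≤ VV A B C s u v ^ a * VV A B C t u v ^ (1 - a) := by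
  by_contra hlt
  rw [not_le] at hlt
  have b0 : 0 < 1 - a := by linarith
  set m : Fin 2 → ℝ := a • s + (1 - a) • t with hm
  set L : (Fin 2 → ℝ) → StrongDual ℝ (Fin 2 → ℝ) :=
    fun τ => lf 0 1 (u * Real.exp (-τ 0)) (v * Real.exp (-τ 1)) with hL
  have hV : ∀ τ, Var[L τ; μ] = VV A B C τ u v := fun τ => by
    simp only [hL]
    rw [var_lf μ h0, hA, hB, hC, VV]
  obtain ⟨ε, e0, e1, e2, e3⟩ := key (a := a) p0 p2 (by positivity) hlt
  have s0 := (short p0 e0).2
  have s1 := (short p1 e0).1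
  have s2 := (short p2 e0).2
  rw [← hV] at s0 s1 s2
  rw [← strip μ h0] at s0 s1 s2
  rw [hV] at s0 s1 s2
  have t0 := exhaust μ (lf 0 1 u v) ε fun x k => Real.exp (-s k) * x k
  have t2 := exhaust μ (lf 0 1 u v) ε fun x k => Real.exp (-t k) * x k
  have q0 : ∀ (τ x : Fin 2 → ℝ), lf 0 1 u v (fun k => Real.exp (-τ k) * x k) = L τ x :=
    fun τ x => by simp only [hL, lf_apply]; ring
  simp only [q0] at t0 t2
  have e4 : 2 * ε / √(2 * π * VV A B C m u v) =
      c * (2 * ε / √(2 * π * (c ^ 2 * VV A B C m u v))) := by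
    rw [mul_left_comm (2 * π), Real.sqrt_mul (sq_nonneg c), Real.sqrt_sq c0.le]
    field_simp
  have lt : (μ {x | |L m x| ≤ ε}).toReal <
      c * ((μ {x | |L s x| ≤ ε}).toReal ^ a * (μ {x | |L t x| ≤ ε}).toReal ^ (1 - a)) :=
    (s1.trans_eq e4).trans_lt (mul_lt_mul_of_pos_left (e3.trans_le
      (mul_le_mul (Real.rpow_le_rpow (by positivity) s0 a0.le)
      (Real.rpow_le_rpow (by positivity) s2 b0.le) (by positivity) (by positivity))) c0)
  obtain ⟨R, hR⟩ := ((((t0.rpow_const (Or.inr a0.le)).mul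
    (t2.rpow_const (Or.inr b0.le))).const_mul c).eventually (lt_mem_nhds lt)).exists
  have hcl : IsClosed {y : Fin 2 → ℝ | |lf 0 1 u v y| ≤ ε} :=
    isClosed_le (by fun_prop) continuous_const
  refine absurd (h (body (lf 0 1 u v) ε (R + 1)) ?_ ((isCompact_closedBall _ _).inter_left hcl)
    ⟨0, ?_⟩ fun x hx => ⟨?_, ?_⟩) (not_le.2 (lt_of_le_of_lt ?_ hR))
  · refine Convex.inter ?_ (convex_closedBall _ _)
    have : {y : Fin 2 → ℝ | |lf 0 1 u v y| ≤ ε} = lf 0 1 u v ⁻¹' Set.Icc (-ε) ε := by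
      ext y
      simp [abs_le]
    rw [this]
    exact (convex_Icc _ _).linear_preimage (lf (n := 2) 0 1 u v : (Fin 2 → ℝ) →ₗ[ℝ] ℝ)
  · rw [mem_interior_iff_mem_nhds]
    refine inter_mem ?_ (Metric.closedBall_mem_nhds _ (by positivity))
    have hc : Continuous fun y : Fin 2 → ℝ => |lf 0 1 u v y| := by fun_prop
    exact (hc.tendsto 0).eventually (ge_mem_nhds (by simpa using e0))
  · have := hx.1
    simpa using this
  · have := hx.2
    simpa using this
  · refine ENNReal.toReal_mono (measure_ne_top _ _) (measure_mono fun x hx => ?_)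
    have := hx.1
    rw [Set.mem_ofPred_eq, q0] at this
    exact this

lemma VV_pos {A B C : ℝ} (A0 : 0 ≤ A) (nd : B ^ 2 < A * C) (τ : Fin 2 → ℝ) {u v : ℝ}
    (h : ¬(u = 0 ∧ v = 0)) : 0 < VV A B C τ u v := by
  have A1 : 0 < A := A0.lt_of_ne fun e => by rw [← e] at nd; nlinarith [sq_nonneg B]
  unfold VV
  set x := u * exp (-τ 0) with hx
  set y := v * exp (-τ 1) with hy
  by_cases hv : v = 0
  · have : x ≠ 0 := mul_ne_zero (fun e => h ⟨e, hv⟩) (Real.exp_pos _).ne'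
    have y0 : y = 0 := by rw [hy, hv, zero_mul]
    rw [y0]
    have : 0 < x ^ 2 * A := by positivity
    linarith
  · have : y ≠ 0 := mul_ne_zero hv (Real.exp_pos _).ne'
    have y2 : 0 < y ^ 2 := by positivity
    refine (mul_pos_iff_of_pos_left A1).1 ?_
    nlinarith [sq_nonneg (A * x + B * y), mul_pos (sub_pos.2 nd) y2]

theorem point (μ : Measure (Fin 2 → ℝ)) [IsGaussian μ] (h0 : ∫ x, x ∂μ = 0) {A B C : ℝ}
    (hA : ∫ x, x 0 * x 0 ∂μ = A) (hB : ∫ x, x 0 * x 1 ∂μ = B) (hC : ∫ x, x 1 * x 1 ∂μ = C)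
    (nd : B ^ 2 < A * C) (s t : Fin 2 → ℝ) {a c : ℝ} (a0 : 0 < a) (a1 : a < 1) (c0 : 0 < c) :
    Ineq μ s t a c ↔ ∀ u v, c ^ 2 * VV A B C (a • s + (1 - a) • t) u v ≤
      VV A B C s u v ^ a * VV A B C t u v ^ (1 - a) := by
  have A0 : 0 ≤ A := hA ▸ integral_nonneg fun x => mul_self_nonneg _
  have A1 : 0 < A := A0.lt_of_ne fun e => by rw [← e] at nd; nlinarith [sq_nonneg B]
  have b0 : 0 < 1 - a := by linarith
  refine ⟨fun h u v => ?_, fun h K cK hK iK sK => ?_⟩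
  · by_cases huv : u = 0 ∧ v = 0
    · simp only [VV, huv.1, huv.2, zero_mul, mul_zero, ne_eq, OfNat.ofNat_ne_zero,
        not_false_eq_true, zero_pow, add_zero]
      positivity
    · exact strip_nec μ h0 hA hB hC a0 a1 c0 h (VV_pos A0 nd _ huv) (VV_pos A0 nd _ huv)
        (VV_pos A0 nd _ huv)
  set m : Fin 2 → ℝ := a • s + (1 - a) • t with hm
  have lg : ∀ u v, ¬(u = 0 ∧ v = 0) → 2 * log c + log (VV A B C m u v) ≤
      a * log (VV A B C s u v) + (1 - a) * log (VV A B C t u v) := fun u v huv => by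
    have q1 := VV_pos A0 nd m huv
    have q2 := VV_pos A0 nd s huv
    have q3 := VV_pos A0 nd t huv
    have := Real.log_le_log (by positivity) (h u v)
    rwa [Real.log_mul (by positivity) q1.ne', Real.log_mul (by positivity) (by positivity),
      Real.log_rpow q2, Real.log_rpow q3, Real.log_pow, Nat.cast_ofNat] at this
  refine upper_pt μ h0 hA hB hC nd a0 a1 s t c0 ?_ (fun u v n1 => ?_) cK hK iK sK
  · have := lg 1 0 (by simp)
    have e : ∀ τ : Fin 2 → ℝ, log (VV A B C τ 1 0) = 2 * -τ 0 + log A := fun τ => by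
      simp only [VV, one_mul, zero_mul, mul_zero, ne_eq, OfNat.ofNat_ne_zero,
        not_false_eq_true, zero_pow, add_zero]
      rw [Real.log_mul (by positivity) A1.ne', Real.log_pow, Real.log_exp, Nat.cast_ofNat]
    rw [e, e, e] at this
    have em : m 0 = a * s 0 + (1 - a) * t 0 := by
      simp only [hm, Pi.add_apply, Pi.smul_apply, smul_eq_mul]
    rw [em] at this
    exact (Real.log_nonpos_iff c0.le).1 (by linarith)
  · have huv : ¬(u * exp (m 0) = 0 ∧ v * exp (m 1) = 0) := fun e => by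
      rw [(mul_eq_zero.1 e.1).resolve_right (Real.exp_pos _).ne',
        (mul_eq_zero.1 e.2).resolve_right (Real.exp_pos _).ne'] at n1
      norm_num at n1
    have e : ∀ τ : Fin 2 → ℝ, VV A B C τ (u * exp (m 0)) (v * exp (m 1)) =
        A * u ^ 2 * exp (-τ 0 - -m 0) ^ 2 + 2 * (B * u * v) * exp (-τ 0 - -m 0) *
          exp (-τ 1 - -m 1) + C * v ^ 2 * exp (-τ 1 - -m 1) ^ 2 := fun τ => by
      simp only [VV, sub_neg_eq_add, Real.exp_add]
      ring
    have := lg _ _ huv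
    rw [e, e, e] at this
    simp only [sub_self, Real.exp_zero, one_pow, mul_one, n1, Real.log_one, add_zero] at this
    exact this

lemma Ineq.swap {μ : Measure (Fin 2 → ℝ)} {s t : Fin 2 → ℝ} {a c : ℝ} (h : Ineq μ s t a c) :
    Ineq μ t s (1 - a) c := fun K k1 k2 k3 k4 => by
  have := h K k1 k2 k3 k4
  rw [sub_sub_cancel, add_comm ((1 - a) • t), mul_comm (_ ^ (1 - a))]
  exact this

lemma nec_one (μ : Measure (Fin 2 → ℝ)) [IsGaussian μ] (h0 : ∫ x, x ∂μ = 0) {A B C : ℝ}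
    (hA : ∫ x, x 0 * x 0 ∂μ = A) (hB : ∫ x, x 0 * x 1 ∂μ = B) (hC : ∫ x, x 1 * x 1 ∂μ = C)
    (A0 : 0 < A) (C0 : 0 < C) (nd : B ^ 2 ≤ A * C) {a c : ℝ} (a0 : 0 < a) (a1 : a < 1)
    (c0 : 0 < c) (h : ∀ s t, Ineq μ s t a c) : c ^ 2 ≤ (1 - B ^ 2 / (A * C)) ^ a := by
  have b0 : 0 < 1 - a := by linarith
  set V : ℝ → ℝ := fun z => C - B ^ 2 / A * (2 * z - z ^ 2) with hV
  have Vp : ∀ z, z < 1 → 0 < V z := fun z hz => by
    have e : V z = (A * C - B ^ 2) / A + B ^ 2 / A * (1 - z) ^ 2 := by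
      simp only [hV]; field_simp; ring
    rw [e]
    have z0 : 0 < 1 - z := by linarith
    by_cases hB : B = 0
    · rw [hB]; simp only [ne_eq, OfNat.ofNat_ne_zero, not_false_eq_true, zero_pow, sub_zero,
        zero_div, zero_mul, add_zero]; positivity
    · exact add_pos_of_nonneg_of_pos (div_nonneg (by linarith) A0.le) (by positivity)
  have eV : ∀ (τ : Fin 2 → ℝ) (k : ℝ), τ 1 = 0 →
      VV A B C τ (-(k * B / A)) 1 = V (k * exp (-τ 0)) := fun τ k e => by
    simp only [VV, hV, e, neg_zero, Real.exp_zero]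
    field_simp
    ring
  have step : ∀ η ∈ Ioo (0 : ℝ) 1, c ^ 2 * V ((1 - η) * η ^ (1 - a)) ≤
      V (1 - η) ^ a * V ((1 - η) * η) ^ (1 - a) := fun η hη => by
    have η0 := hη.1
    have η1 : 0 < 1 - η := by linarith [hη.2]
    have e1 := eV ![0, 0] (1 - η) rfl
    have e2 := eV ![-log η, 0] (1 - η) rfl
    have e3 := eV (a • ![0, 0] + (1 - a) • ![-log η, 0]) (1 - η) (by simp)
    have x3 : exp (-(a • ![0, 0] + (1 - a) • ![-log η, 0] : Fin 2 → ℝ) 0) = η ^ (1 - a) := by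
      rw [Real.rpow_def_of_pos η0]
      congr 1
      simp
      ring
    rw [x3] at e3
    simp only [Matrix.cons_val_zero, neg_zero, neg_neg, Real.exp_zero, mul_one,
      Real.exp_log η0] at e1 e2
    have l3 : η ^ (1 - a) ≤ 1 := Real.rpow_le_one η0.le hη.2.le b0.le
    rw [← e1, ← e2, ← e3]
    refine strip_nec μ h0 hA hB hC a0 a1 c0 (h _ _) ?_ ?_ ?_
    · rw [e1]; exact Vp _ (by linarith)
    · rw [e2]; exact Vp _ (by nlinarith [hη.2])
    · rw [e3]; exact Vp _ (by nlinarith)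
  have cV : Continuous V := by simp only [hV]; fun_prop
  have c1 : Continuous fun η : ℝ => c ^ 2 * V ((1 - η) * η ^ (1 - a)) :=
    continuous_const.mul (cV.comp ((continuous_const.sub continuous_id).mul
      (Real.continuous_rpow_const b0.le)))
  have c2 : Continuous fun η : ℝ => V (1 - η) ^ a * V ((1 - η) * η) ^ (1 - a) :=
    ((Real.continuous_rpow_const a0.le).comp (cV.comp (by fun_prop))).mul
      ((Real.continuous_rpow_const b0.le).comp (cV.comp (by fun_prop)))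
  have lim := le_of_tendsto_of_tendsto
    ((c1.tendsto 0).mono_left (nhdsWithin_le_nhds (s := Ioi 0)))
    ((c2.tendsto 0).mono_left nhdsWithin_le_nhds)
    (mem_of_superset (Ioo_mem_nhdsGT one_pos) step)
  simp only [sub_zero, Real.zero_rpow b0.ne', mul_zero] at lim
  have v0 : V 0 = C := by simp [hV]
  have v1 : V 1 = (1 - B ^ 2 / (A * C)) * C := by simp only [hV]; field_simp; ring
  have D0 : 0 ≤ 1 - B ^ 2 / (A * C) := sub_nonneg.2 ((div_le_one (by positivity)).2 nd)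
  rw [v0, v1, Real.mul_rpow D0 C0.le, mul_assoc, ← Real.rpow_add C0, add_sub_cancel,
    Real.rpow_one] at lim
  exact le_of_mul_le_mul_right lim C0

theorem uniform (μ : Measure (Fin 2 → ℝ)) [IsGaussian μ] (h0 : ∫ x, x ∂μ = 0) {A B C : ℝ}
    (hA : ∫ x, x 0 * x 0 ∂μ = A) (hB : ∫ x, x 0 * x 1 ∂μ = B) (hC : ∫ x, x 1 * x 1 ∂μ = C)
    (A0 : 0 < A) (C0 : 0 < C) {a : ℝ} (a0 : 0 < a) (a1 : a < 1) (c : ℝ) :
    (∀ s t, Ineq μ s t a c) ↔ c ≤ (1 - B ^ 2 / (A * C)) ^ (max a (1 - a) / 2) := by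
  have nd : B ^ 2 ≤ A * C := by
    have := variance_nonneg (lf 0 1 B (-A)) μ
    rw [var_lf μ h0, hA, hB, hC] at this
    refine le_of_mul_le_mul_left ?_ A0
    nlinarith
  set D := 1 - B ^ 2 / (A * C) with hD
  have D0 : 0 ≤ D := sub_nonneg.2 ((div_le_one (by positivity)).2 nd)
  have D1 : D ≤ 1 := sub_le_self _ (by positivity)
  have b0 : 0 < 1 - a := by linarith
  have M0 : 0 < max a (1 - a) := lt_max_of_lt_left a0
  refine ⟨fun h => ?_, fun h s t K cK hK iK sK => ?_⟩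
  · rcases le_or_gt c 0 with c0 | c0
    · exact c0.trans (by positivity)
    have h1 := nec_one μ h0 hA hB hC A0 C0 nd a0 a1 c0 h
    have h2 := nec_one μ h0 hA hB hC A0 C0 nd b0 (by linarith) c0 fun s t => (h t s).swap
    have h3 : c ^ 2 ≤ D ^ max a (1 - a) := by
      rcases le_total a (1 - a) with l | l
      · rwa [max_eq_right l]
      · rwa [max_eq_left l]
    refine (sq_le_sq₀ c0.le (by positivity)).1 ?_
    rwa [← Real.rpow_natCast (D ^ _) 2, ← Real.rpow_mul D0, Nat.cast_ofNat,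
      div_mul_cancel₀ _ two_ne_zero]
  refine le_trans (mul_le_mul_of_nonneg_right h (by positivity)) ?_
  rcases D0.eq_or_lt with e | D0
  · rw [← e, Real.zero_rpow (by positivity), zero_mul]
    exact ENNReal.toReal_nonneg
  have hD' : A * C * D = A * C - B ^ 2 := by rw [hD]; field_simp
  refine upper_pt μ h0 hA hB hC (by nlinarith [mul_pos (mul_pos A0 C0) D0]) a0 a1 s t
    (by positivity) (Real.rpow_le_one D0.le D1 (by positivity)) (fun u v n1 => ?_) cK hK iK sK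
  rw [Real.log_rpow D0, ← mul_assoc, mul_div_cancel₀ _ two_ne_zero]
  refine strip_log (by positivity) (by positivity) D0 D1
    (by linear_combination u ^ 2 * v ^ 2 * hD') n1 ?_ ?_ a0 a1 <;>
  · simp only [Pi.add_apply, Pi.smul_apply, smul_eq_mul]
    ring

end Pool.Agent.P.MP_5a340a_gt.Def
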