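import Pool.Agent.P.MP_5c8462_an.Ord.BM

/-! Anderson's inequality and the arithmetic-harmonic doubling step for diagonal Gaussian weights. -/

set_option autoImplicit false

namespace Pool.Agent.P.MP_5a340a_gt

open MeasureTheory Real Set
open scoped ENNReal
open Pool.Agent.P.MP_5c8462_an.Ord.BM

variable {n : ℕ}

/-- Diagonal quadratic form. -/
def qf (a x : Fin n → ℝ) : ℝ := ∑ i, a i * x i ^ 2

lemma qf_cont (a : Fin n → ℝ) : Continuous (qf a) := by
  unfold qf; fun_prop

lemma qf_neg (a x : Fin n → ℝ) : qf a (-x) = qf a x := by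
  simp [qf]

lemma qf_conv {a : Fin n → ℝ} (ha : ∀ i, 0 ≤ a i) (x y : Fin n → ℝ) {s t : ℝ} (hs : 0 ≤ s)
    (ht : 0 ≤ t) (hst : s + t = 1) : qf a (s • x + t • y) ≤ s * qf a x + t * qf a y := by
  unfold qf
  rw [Finset.mul_sum, Finset.mul_sum, ← Finset.sum_add_distrib]
  refine Finset.sum_le_sum fun i _ => ?_
  have e : t = 1 - s := by linarith
  subst e
  have h1 : 0 ≤ a i * (s * (1 - s) * (x i - y i) ^ 2) :=
    mul_nonneg (ha i) (mul_nonneg (mul_nonneg hs ht) (sq_nonneg _))
  simp only [Pi.add_apply, Pi.smul_apply, smul_eq_mul]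
  nlinarith [h1]

lemma anderson_set {R : ℝ} {C E : Set (Fin n → ℝ)} (mC : MeasurableSet C) (mE : MeasurableSet E)
    (bC : C ⊆ cube n R) (cC : Convex ℝ C) (cE : Convex ℝ E) (sC : ∀ x ∈ C, -x ∈ C)
    (sE : ∀ x ∈ E, -x ∈ E) (w : Fin n → ℝ) :
    volume ({v | v + w ∈ E} ∩ C) ≤ volume (E ∩ C) := by
  set A : Set (Fin n → ℝ) := {v | v + w ∈ E} ∩ C with hA
  have mA : MeasurableSet A := ((measurable_add_const w) mE).inter mC
  have mB : MeasurableSet (-A) := mA.neg
  have bA : A ⊆ cube n R := fun x hx => bC hx.2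
  have bB : -A ⊆ cube n R := fun x hx => by
    have := sC _ (show -x ∈ A from hx).2
    rw [neg_neg] at this
    exact bC this
  have key := bm_pi (t := 1 / 2) (by norm_num) (by norm_num) R n A (-A) (E ∩ C) mA mB
    (mE.inter mC) bA bB (fun x hx => bC hx.2) (by
      intro x hx y hy
      have hy' : -y ∈ A := hy
      refine ⟨?_, ?_⟩
      · have h1 : x + w ∈ E := hx.1
        have h2 : -(-y + w) ∈ E := sE _ hy'.1
        have := cE h1 h2 (show (0 : ℝ) ≤ 1 - 1 / 2 by norm_num) (show (0 : ℝ) ≤ 1 / 2 by norm_num)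
          (by norm_num)
        have e : (1 - 1 / 2 : ℝ) • x + (1 / 2 : ℝ) • y =
            (1 - 1 / 2 : ℝ) • (x + w) + (1 / 2 : ℝ) • (-(-y + w)) := by
          funext i
          simp only [Pi.add_apply, Pi.smul_apply, Pi.neg_apply, smul_eq_mul]
          ring
        rw [e]; exact this
      · have h2 := sC _ hy'.2
        rw [neg_neg] at h2
        exact cC hx.2 h2 (by norm_num) (by norm_num) (by norm_num))
  rw [Measure.measure_neg, ← Real.rpow_add' ENNReal.toReal_nonneg (by norm_num)] at key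
  norm_num at key
  have fA : volume A ≠ ⊤ := ne_top_of_le_ne_top (cube_fin n R) (measure_mono bA)
  have fC : volume (E ∩ C) ≠ ⊤ :=
    ne_top_of_le_ne_top (cube_fin n R) (measure_mono fun x hx => bC hx.2)
  exact (ENNReal.toReal_le_toReal fA fC).1 key

/-- Anderson's inequality for a diagonal Gaussian weight. -/
lemma anderson {R : ℝ} {C : Set (Fin n → ℝ)} (mC : MeasurableSet C)
    (bC : C ⊆ cube n R) (cC : Convex ℝ C) (sC : ∀ x ∈ C, -x ∈ C) {c : Fin n → ℝ}
    (hc : ∀ i, 0 ≤ c i) (w : Fin n → ℝ) :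
    ∫⁻ v in C, ENNReal.ofReal (exp (-qf c (v + w))) ≤ ∫⁻ v in C, ENNReal.ofReal (exp (-qf c v)) := by
  have m1 : Measurable fun v : Fin n → ℝ => exp (-qf c v) :=
    ((qf_cont c).neg.rexp).measurable
  have m2 : Measurable fun v : Fin n → ℝ => exp (-qf c (v + w)) :=
    m1.comp (measurable_add_const w)
  rw [lintegral_eq_lintegral_meas_lt _ (Filter.Eventually.of_forall fun _ => (exp_pos _).le)
      m2.aemeasurable,
    lintegral_eq_lintegral_meas_lt _ (Filter.Eventually.of_forall fun _ => (exp_pos _).le)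
      m1.aemeasurable]
  refine setLIntegral_mono' measurableSet_Ioi fun t ht => ?_
  have mE : MeasurableSet {v : Fin n → ℝ | t < exp (-qf c v)} := measurableSet_lt measurable_const m1
  rw [Measure.restrict_apply (measurableSet_lt measurable_const m2), Measure.restrict_apply mE]
  refine anderson_set (E := {v : Fin n → ℝ | t < exp (-qf c v)}) mC mE bC cC ?_ sC ?_ w
  · intro x hx y hy a b ha hb hab
    have ht' : (0 : ℝ) < t := ht
    simp only [mem_ofPred_eq] at hx hy ⊢
    rw [← Real.log_lt_iff_lt_exp ht'] at hx hy ⊢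
    have := qf_conv hc x y ha hb hab
    rcases ha.eq_or_lt with rfl | ha'
    · have : b = 1 := by linarith
      subst this
      simpa using hy
    · have e : log t = a * log t + b * log t := by rw [← add_mul, hab, one_mul]
      nlinarith [mul_pos ha' (sub_pos.2 hx), mul_nonneg hb (sub_pos.2 hy).le]
  · intro x hx
    simpa [qf_neg] using hx

/-- The orthogonal involution of the doubled space. -/
noncomputable def rot (n : ℕ) : ((Fin n → ℝ) × (Fin n → ℝ)) →ₗ[ℝ] ((Fin n → ℝ) × (Fin n → ℝ)) where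
  toFun p := ((√2)⁻¹ • (p.1 + p.2), (√2)⁻¹ • (p.1 - p.2))
  map_add' p q := by
    ext i <;> simp only [Prod.fst_add, Prod.snd_add, Pi.add_apply, Pi.sub_apply, Pi.smul_apply,
      smul_eq_mul] <;> ring
  map_smul' c p := by
    ext i <;> simp only [Prod.smul_fst, Prod.smul_snd, Pi.add_apply, Pi.sub_apply, Pi.smul_apply,
      smul_eq_mul, RingHom.id_apply] <;> ring

lemma kk : (√2)⁻¹ * (√2)⁻¹ = (1 / 2 : ℝ) := by
  rw [← mul_inv, Real.mul_self_sqrt (by norm_num)]; norm_num

lemma rot_fst (p : (Fin n → ℝ) × (Fin n → ℝ)) (i : Fin n) :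
    (rot n p).1 i = (√2)⁻¹ * (p.1 i + p.2 i) := rfl

lemma rot_snd (p : (Fin n → ℝ) × (Fin n → ℝ)) (i : Fin n) :
    (rot n p).2 i = (√2)⁻¹ * (p.1 i - p.2 i) := rfl

lemma rot_rot : (rot n).comp (rot n) = LinearMap.id := by
  refine LinearMap.ext fun p => ?_
  ext i
  · simp only [LinearMap.comp_apply, rot_fst, rot_snd, LinearMap.id_apply]
    linear_combination (2 * p.1 i) * kk
  · simp only [LinearMap.comp_apply, rot_fst, rot_snd, LinearMap.id_apply]
    linear_combination (2 * p.2 i) * kk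

lemma rot_meas : Measurable (rot n) :=
  (LinearMap.continuous_of_finiteDimensional (rot n)).measurable

lemma rot_mp : MeasurePreserving (rot n) volume volume := by
  have h1 : LinearMap.det (rot n) * LinearMap.det (rot n) = 1 := by
    rw [← LinearMap.det_comp, rot_rot, LinearMap.det_id]
  have h0 : LinearMap.det (rot n) ≠ 0 := fun h => by rw [h] at h1; norm_num at h1
  refine ⟨rot_meas, ?_⟩
  have inst : (volume : Measure ((Fin n → ℝ) × (Fin n → ℝ))).IsAddHaarMeasure :=
    Measure.prod.instIsAddHaarMeasure volume volume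
  rw [Measure.map_linearMap_addHaar_eq_smul_addHaar volume h0]
  have : |(LinearMap.det (rot n))⁻¹| = 1 := by
    rw [abs_inv]
    have : |LinearMap.det (rot n)| = 1 := by
      have h2 : |LinearMap.det (rot n)| * |LinearMap.det (rot n)| = 1 := by
        rw [← abs_mul, h1, abs_one]
      nlinarith [abs_nonneg (LinearMap.det (rot n))]
    rw [this, inv_one]
  rw [this]; simp

/-- The doubled integral. -/
noncomputable def GG (S : Set ((Fin n → ℝ) × (Fin n → ℝ))) (a b : Fin n → ℝ) : ℝ≥0∞ :=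
  ∫⁻ p in S, ENNReal.ofReal (exp (-(qf a p.1 + qf b p.2)))

/-- The class of doubled sets. -/
def Good (ρ : ℝ) (S : Set ((Fin n → ℝ) × (Fin n → ℝ))) : Prop :=
  MeasurableSet S ∧ Convex ℝ S ∧ (∀ p ∈ S, (p.1, -p.2) ∈ S) ∧ (∀ p ∈ S, (p.2, p.1) ∈ S) ∧
    ∀ p ∈ S, ∀ i, p.1 i ^ 2 + p.2 i ^ 2 ≤ ρ

lemma good_rot {ρ : ℝ} {S : Set ((Fin n → ℝ) × (Fin n → ℝ))} (h : Good ρ S) :
    Good ρ (rot n ⁻¹' S) := by
  obtain ⟨m, c, s1, s2, b⟩ := h
  refine ⟨rot_meas m, c.linear_preimage _, fun p hp => ?_, fun p hp => ?_, fun p hp i => ?_⟩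
  · have := s2 _ hp
    have e : rot n (p.1, -p.2) = ((rot n p).2, (rot n p).1) := by
      ext i
      · simp only [rot_fst, rot_snd, Pi.neg_apply]; ring
      · simp only [rot_fst, rot_snd, Pi.neg_apply]; ring
    change rot n (p.1, -p.2) ∈ S
    rw [e]; exact this
  · have := s1 _ hp
    have e : rot n (p.2, p.1) = ((rot n p).1, -(rot n p).2) := by
      ext i
      · simp only [rot_fst]; ring
      · simp only [rot_snd, Pi.neg_apply]; ring
    change rot n (p.2, p.1) ∈ S
    rw [e]; exact this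
  · have := b _ hp i
    rw [rot_fst, rot_snd] at this
    have e : ((√2)⁻¹ * (p.1 i + p.2 i)) ^ 2 + ((√2)⁻¹ * (p.1 i - p.2 i)) ^ 2 =
        p.1 i ^ 2 + p.2 i ^ 2 := by
      linear_combination (2 * (p.1 i ^ 2 + p.2 i ^ 2)) * kk
    linarith

lemma w_meas (a b : Fin n → ℝ) : Measurable fun p : (Fin n → ℝ) × (Fin n → ℝ) =>
    ENNReal.ofReal (exp (-(qf a p.1 + qf b p.2))) := by
  have := qf_cont a
  have := qf_cont b
  refine Measurable.ennreal_ofReal (Continuous.measurable ?_)
  fun_prop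

lemma setl_prod {T : Set ((Fin n → ℝ) × (Fin n → ℝ))} (mT : MeasurableSet T)
    {F : (Fin n → ℝ) × (Fin n → ℝ) → ℝ≥0∞} (mF : Measurable F) :
    ∫⁻ p in T, F p = ∫⁻ u, ∫⁻ v in Prod.mk u ⁻¹' T, F (u, v) := by
  rw [← lintegral_indicator mT, Measure.volume_eq_prod,
    lintegral_prod _ (mF.indicator mT).aemeasurable]
  refine lintegral_congr fun u => ?_
  rw [← lintegral_indicator (measurable_prodMk_left mT)]
  rfl

lemma GG_rot_same {S : Set ((Fin n → ℝ) × (Fin n → ℝ))} (m : MeasurableSet S) (g : Fin n → ℝ) :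
    GG (rot n ⁻¹' S) g g = GG S g g := by
  unfold GG
  rw [← rot_mp.setLIntegral_comp_preimage m (w_meas g g)]
  refine lintegral_congr fun p => ?_
  congr 3
  unfold qf
  rw [← Finset.sum_add_distrib, ← Finset.sum_add_distrib]
  refine Finset.sum_congr rfl fun i _ => ?_
  rw [rot_fst, rot_snd]
  linear_combination (-2 * g i * (p.1 i ^ 2 + p.2 i ^ 2)) * kk

/-- The doubling step: the weights are replaced by their harmonic and arithmetic means. -/
lemma GG_step {ρ : ℝ} {S : Set ((Fin n → ℝ) × (Fin n → ℝ))} (h : Good ρ S) {a b : Fin n → ℝ}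
    (ha : ∀ i, 0 < a i) (hb : ∀ i, 0 < b i) :
    GG S a b ≤ GG (rot n ⁻¹' S) (fun i => 2 * (a i * b i) / (a i + b i))
      (fun i => (a i + b i) / 2) := by
  obtain ⟨m, c, s1, -, bd⟩ := good_rot h
  set hh : Fin n → ℝ := fun i => 2 * (a i * b i) / (a i + b i) with e1
  set cc : Fin n → ℝ := fun i => (a i + b i) / 2 with e2
  unfold GG
  rw [← rot_mp.setLIntegral_comp_preimage h.1 (w_meas a b),
    setl_prod (F := fun p => ENNReal.ofReal (exp (-(qf a (rot n p).1 + qf b (rot n p).2)))) m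
      ((w_meas a b).comp rot_meas), setl_prod m (w_meas hh cc)]
  refine lintegral_mono fun u => ?_
  set w : Fin n → ℝ := fun i => (a i - b i) / (a i + b i) * u i with e3
  have id1 : ∀ v, qf a (rot n (u, v)).1 + qf b (rot n (u, v)).2 = qf hh u + qf cc (v + w) := by
    intro v
    unfold qf
    rw [← Finset.sum_add_distrib, ← Finset.sum_add_distrib]
    refine Finset.sum_congr rfl fun i _ => ?_
    have hab : a i + b i ≠ 0 := (add_pos (ha i) (hb i)).ne'
    have e : a i * ((√2)⁻¹ * (u i + v i)) ^ 2 + b i * ((√2)⁻¹ * (u i - v i)) ^ 2 =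
        a i * (u i + v i) ^ 2 / 2 + b i * (u i - v i) ^ 2 / 2 := by
      linear_combination (a i * (u i + v i) ^ 2 + b i * (u i - v i) ^ 2) * kk
    rw [rot_fst, rot_snd]
    simp only [e1, e2, e3, Pi.add_apply]
    rw [e]
    field_simp
    ring
  have sp : ∀ x y : ℝ, ENNReal.ofReal (exp (-(x + y))) =
      ENNReal.ofReal (exp (-x)) * ENNReal.ofReal (exp (-y)) := by
    intro x y
    rw [neg_add, Real.exp_add, ENNReal.ofReal_mul (exp_pos _).le]
  have m1 : Measurable fun v : Fin n → ℝ => ENNReal.ofReal (exp (-qf cc v)) :=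
    ((qf_cont cc).neg.rexp).measurable.ennreal_ofReal
  simp only [id1, sp]
  have m2 : Measurable fun v : Fin n → ℝ => ENNReal.ofReal (exp (-qf cc (v + w))) :=
    m1.comp (measurable_add_const w)
  rw [lintegral_const_mul _ m2, lintegral_const_mul _ m1]
  refine mul_le_mul_right ?_ _
  refine anderson (R := √ρ) (measurable_prodMk_left m) ?_ ?_ ?_
    (fun i => by have := ha i; have := hb i; simp only [e2]; positivity) w
  · intro v hv i _
    have := bd _ hv i
    have h2 : v i ^ 2 ≤ ρ := by nlinarith [sq_nonneg (u i)]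
    exact abs_le.1 (Real.abs_le_sqrt h2)
  · intro x hx y hy s t hs ht hst
    have := c hx hy hs ht hst
    have e : s • ((u, x) : (Fin n → ℝ) × (Fin n → ℝ)) + t • (u, y) = (u, s • x + t • y) := by
      ext i
      · simp only [Prod.fst_add, Prod.smul_fst, Pi.add_apply, Pi.smul_apply, smul_eq_mul]
        rw [← add_mul, hst, one_mul]
      · rfl
    rw [e] at this
    exact this
  · intro x hx
    exact s1 _ hx

end Pool.Agent.P.MP_5a340a_gt
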