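import Pool.Agent.P.MP_5a340a_gt.If1

/-! The arithmetic-harmonic iteration, and log-concavity for the standard Gaussian measure. -/

set_option autoImplicit false

namespace Pool.Agent.P.MP_5a340a_gt

open MeasureTheory ProbabilityTheory Real Set Filter Topology
open scoped ENNReal NNReal
open Pool.Agent.P.MP_5c8462_an.Ord.BM

variable {n : ℕ}

lemma GG_base {ρ : ℝ} {S : Set ((Fin n → ℝ) × (Fin n → ℝ))} (h : Good ρ S)
    {a b g : Fin n → ℝ} (ha : ∀ i, 0 < a i) (hb : ∀ i, 0 < b i)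
    (hg : ∀ i, a i * b i = g i ^ 2) :
    GG S a b ≤ ENNReal.ofReal (exp (ρ * ∑ i, |a i - b i|)) * GG S g g := by
  unfold GG
  rw [← lintegral_const_mul _ (w_meas g g)]
  refine setLIntegral_mono' h.1 fun p hp => ?_
  rw [← ENNReal.ofReal_mul (exp_pos _).le, ← Real.exp_add]
  refine ENNReal.ofReal_le_ofReal (Real.exp_le_exp.2 ?_)
  have : qf g p.1 + qf g p.2 ≤ ρ * ∑ i, |a i - b i| + (qf a p.1 + qf b p.2) := by
    unfold qf
    rw [Finset.mul_sum, ← Finset.sum_add_distrib, ← Finset.sum_add_distrib,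
      ← Finset.sum_add_distrib]
    refine Finset.sum_le_sum fun i _ => ?_
    have h1 := h.2.2.2.2 p hp i
    have a0 := ha i
    have b0 := hb i
    have k1 : g i ≤ a i + |a i - b i| := by
      have : b i ≤ a i + |a i - b i| := by have := neg_abs_le (a i - b i); linarith
      refine (le_abs_self _).trans (abs_le_of_sq_le_sq' ?_ (by positivity)).2 |>.trans le_rfl
      rw [sq_abs, ← hg i]
      nlinarith [abs_nonneg (a i - b i)]
    have k2 : g i ≤ b i + |a i - b i| := by
      have : a i ≤ b i + |a i - b i| := by have := le_abs_self (a i - b i); linarith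
      refine (le_abs_self _).trans (abs_le_of_sq_le_sq' ?_ (by positivity)).2 |>.trans le_rfl
      rw [sq_abs, ← hg i]
      nlinarith [abs_nonneg (a i - b i)]
    nlinarith [mul_le_mul_of_nonneg_right k1 (sq_nonneg (p.1 i)),
      mul_le_mul_of_nonneg_right k2 (sq_nonneg (p.2 i)),
      mul_le_mul_of_nonneg_left h1 (abs_nonneg (a i - b i))]
  linarith

lemma GG_iter {ρ : ℝ} (hρ : 0 ≤ ρ) (g : Fin n → ℝ) (k : ℕ) :
    ∀ (S : Set ((Fin n → ℝ) × (Fin n → ℝ))), Good ρ S → ∀ a b : Fin n → ℝ, (∀ i, 0 < a i) →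
      (∀ i, 0 < b i) → (∀ i, a i * b i = g i ^ 2) →
      GG S a b ≤ ENNReal.ofReal (exp (ρ * (∑ i, |a i - b i|) * (1 / 2) ^ k)) * GG S g g := by
  induction k with
  | zero =>
    intro S h a b ha hb hg
    simpa using GG_base h ha hb hg
  | succ k ih =>
    intro S h a b ha hb hg
    refine (GG_step h ha hb).trans ((ih _ (good_rot h) _ _ (fun i => ?_) (fun i => ?_)
      (fun i => ?_)).trans ?_)
    · have := ha i; have := hb i; positivity
    · have := ha i; have := hb i; positivity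
    · have := ha i; have := hb i
      rw [← hg i]; field_simp
    · rw [GG_rot_same h.1]
      refine mul_le_mul_left (ENNReal.ofReal_le_ofReal (Real.exp_le_exp.2 ?_)) _
      have : ∑ i, |2 * (a i * b i) / (a i + b i) - (a i + b i) / 2| ≤ (∑ i, |a i - b i|) / 2 := by
        rw [Finset.sum_div]
        refine Finset.sum_le_sum fun i _ => ?_
        have a0 := ha i
        have b0 := hb i
        have e : 2 * (a i * b i) / (a i + b i) - (a i + b i) / 2 =
            -(|a i - b i| / 2 * (|a i - b i| / (a i + b i))) := by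
          have := sq_abs (a i - b i)
          field_simp
          linear_combination this
        rw [e, abs_neg, abs_of_nonneg (by positivity)]
        refine mul_le_of_le_one_right (by positivity) ?_
        rw [div_le_one (by positivity), abs_le]
        constructor <;> linarith
      rw [pow_succ]
      have h2 : (0 : ℝ) ≤ (1 / 2) ^ k := by positivity
      nlinarith [mul_le_mul_of_nonneg_left this (mul_nonneg hρ h2)]

lemma GG_le {ρ : ℝ} (hρ : 0 ≤ ρ) {S : Set ((Fin n → ℝ) × (Fin n → ℝ))} (h : Good ρ S)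
    {a b g : Fin n → ℝ} (ha : ∀ i, 0 < a i) (hb : ∀ i, 0 < b i)
    (hg : ∀ i, a i * b i = g i ^ 2) : GG S a b ≤ GG S g g := by
  have t1 : Tendsto (fun k : ℕ => ρ * (∑ i, |a i - b i|) * (1 / 2 : ℝ) ^ k) atTop (𝓝 0) := by
    simpa using (tendsto_pow_atTop_nhds_zero_of_lt_one (r := (1 / 2 : ℝ)) (by norm_num)
      (by norm_num)).const_mul (ρ * ∑ i, |a i - b i|)
  have t2 : Tendsto (fun k : ℕ =>
      ENNReal.ofReal (exp (ρ * (∑ i, |a i - b i|) * (1 / 2 : ℝ) ^ k))) atTop (𝓝 1) := by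
    simpa using ENNReal.tendsto_ofReal ((Real.continuous_exp.tendsto 0).comp t1)
  have t3 := ENNReal.Tendsto.mul_const (b := GG S g g) t2 (Or.inl one_ne_zero)
  rw [one_mul] at t3
  exact ge_of_tendsto' t3 fun k => GG_iter hρ g k S h a b ha hb hg

lemma ew_cont (a : Fin n → ℝ) : Continuous fun x : Fin n → ℝ => exp (-qf a x) :=
  (qf_cont a).neg.rexp

lemma ew_meas (a : Fin n → ℝ) : Measurable fun x : Fin n → ℝ => ENNReal.ofReal (exp (-qf a x)) :=
  (ew_cont a).measurable.ennreal_ofReal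

/-- The weighted volume. -/
noncomputable def FF (K : Set (Fin n → ℝ)) (a : Fin n → ℝ) : ℝ := ∫ x in K, exp (-qf a x)

lemma FF_nonneg (K : Set (Fin n → ℝ)) (a : Fin n → ℝ) : 0 ≤ FF K a :=
  integral_nonneg fun _ => (exp_pos _).le

lemma FF_lint {K : Set (Fin n → ℝ)} (hK : IsCompact K) (a : Fin n → ℝ) :
    ENNReal.ofReal (FF K a) = ∫⁻ x in K, ENNReal.ofReal (exp (-qf a x)) :=
  ofReal_integral_eq_lintegral_ofReal
    ((ew_cont a).continuousOn.integrableOn_compact hK)
    (ae_of_all _ fun _ => (exp_pos _).le)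

lemma GG_prod {K : Set (Fin n → ℝ)} (hK : IsCompact K) (a b : Fin n → ℝ) :
    GG (K ×ˢ K) a b = ENNReal.ofReal (FF K a * FF K b) := by
  rw [ENNReal.ofReal_mul (FF_nonneg K a), FF_lint hK, FF_lint hK,
    ← lintegral_prod_mul (ew_meas a).aemeasurable (ew_meas b).aemeasurable, Measure.prod_restrict]
  unfold GG
  refine lintegral_congr fun p => ?_
  rw [neg_add, Real.exp_add, ENNReal.ofReal_mul (exp_pos _).le]

lemma FF_mid {K : Set (Fin n → ℝ)} (hK : IsCompact K) (cK : Convex ℝ K) (sK : ∀ x ∈ K, -x ∈ K)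
    {a b g : Fin n → ℝ} (ha : ∀ i, 0 < a i) (hb : ∀ i, 0 < b i)
    (hg : ∀ i, a i * b i = g i ^ 2) : FF K a * FF K b ≤ FF K g * FF K g := by
  obtain ⟨R, hR⟩ := hK.isBounded.exists_norm_le
  have good : Good (2 * R ^ 2) (K ×ˢ K) := by
    refine ⟨hK.measurableSet.prod hK.measurableSet, cK.prod cK, fun p hp => ⟨hp.1, sK _ hp.2⟩,
      fun p hp => ⟨hp.2, hp.1⟩, fun p hp i => ?_⟩
    have h1 : |p.1 i| ≤ R := (norm_le_pi_norm p.1 i).trans (hR _ hp.1)
    have h2 : |p.2 i| ≤ R := (norm_le_pi_norm p.2 i).trans (hR _ hp.2)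
    have h3 := sq_le_sq' (abs_le.1 h1).1 (abs_le.1 h1).2
    have h4 := sq_le_sq' (abs_le.1 h2).1 (abs_le.1 h2).2
    linarith
  have := GG_le (by positivity) good ha hb hg
  rw [GG_prod hK, GG_prod hK] at this
  exact (ENNReal.ofReal_le_ofReal_iff (mul_nonneg (FF_nonneg _ _) (FF_nonneg _ _))).1 this

/-- A continuous midpoint-concave function lies above its chords. -/
lemma mid_concave {ψ : ℝ → ℝ} (hc : Continuous ψ) (hm : ∀ x y, ψ x + ψ y ≤ 2 * ψ ((x + y) / 2))
    {l : ℝ} (h0 : 0 ≤ l) (h1 : l ≤ 1) : l * ψ 1 + (1 - l) * ψ 0 ≤ ψ l := by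
  set χ : ℝ → ℝ := fun r => ψ r - r * ψ 1 - (1 - r) * ψ 0 with hχ
  have cχ : Continuous χ := by simp only [hχ]; fun_prop
  by_contra hlt
  have hl : χ l < 0 := by simp only [hχ]; linarith [not_le.1 hlt]
  obtain ⟨z, hz, hmin⟩ := isCompact_Icc.exists_isMinOn (s := Icc (0 : ℝ) 1) ⟨0, by simp⟩
    cχ.continuousOn
  have hZ : IsCompact (Icc (0 : ℝ) 1 ∩ χ ⁻¹' {χ z}) :=
    isCompact_Icc.inter_right (isClosed_singleton.preimage cχ)
  obtain ⟨x, ⟨hx, ex⟩, hleast⟩ := hZ.exists_isLeast ⟨z, hz, rfl⟩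
  have ex' : χ x = χ z := ex
  have neg : χ z < 0 := lt_of_le_of_lt (hmin ⟨h0, h1⟩) hl
  have x0 : 0 < x := hx.1.lt_of_ne fun e => by
    rw [← e] at ex'; simp only [hχ] at ex' neg; linarith
  have x1 : x < 1 := hx.2.lt_of_ne fun e => by
    rw [e] at ex'; simp only [hχ] at ex' neg; linarith
  set h := min x (1 - x) with hh
  have hp : 0 < h := lt_min x0 (by linarith)
  have h2 : h ≤ x := min_le_left _ _
  have h3 : h ≤ 1 - x := min_le_right _ _
  have m1 : x - h ∈ Icc (0 : ℝ) 1 := ⟨by linarith, by linarith⟩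
  have m2 : x + h ∈ Icc (0 : ℝ) 1 := ⟨by linarith, by linarith⟩
  have l1 : χ z ≤ χ (x - h) := hmin m1
  have l2 : χ z ≤ χ (x + h) := hmin m2
  have l3 : χ z ≠ χ (x - h) := fun e => by
    have := hleast ⟨m1, e.symm⟩
    linarith
  have l4 := lt_of_le_of_ne l1 l3
  have := hm (x - h) (x + h)
  rw [show (x - h + (x + h)) / 2 = x by ring] at this
  simp only [hχ] at l2 l4 ex'
  linarith

/-- Log-concavity of the weighted volume along geometric interpolation. -/
lemma FF_logconc {K : Set (Fin n → ℝ)} (hK : IsCompact K) (cK : Convex ℝ K)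
    (sK : ∀ x ∈ K, -x ∈ K) (d : Fin n → ℝ) {l : ℝ} (h0 : 0 ≤ l) (h1 : l ≤ 1) :
    FF K (fun i => exp (2 * (1 * d i)) / 2) ^ l * FF K (fun i => exp (2 * (0 * d i)) / 2) ^ (1 - l) ≤
      FF K (fun i => exp (2 * (l * d i)) / 2) := by
  set φ : ℝ → ℝ := fun r => FF K (fun i => exp (2 * (r * d i)) / 2) with hφ
  change φ 1 ^ l * φ 0 ^ (1 - l) ≤ φ l
  by_cases hv : volume K = 0
  · have z : ∀ r, φ r = 0 := fun r => by
      simp only [hφ, FF]
      rw [Measure.restrict_eq_zero.2 hv, integral_zero_measure]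
    rw [z, z, z]
    by_cases hl : l = 0
    · rw [hl]; simp
    · rw [Real.zero_rpow hl, zero_mul]
  have pos : ∀ r, 0 < φ r := fun r => by
    simp only [hφ, FF]
    rw [setIntegral_pos_iff_support_of_nonneg_ae (ae_of_all _ fun _ => (exp_pos _).le)
      ((ew_cont _).continuousOn.integrableOn_compact hK)]
    have : Function.support (fun x => exp (-qf (fun i => exp (2 * (r * d i)) / 2) x)) = univ :=
      eq_univ_of_forall fun x => (exp_pos _).ne'
    rw [this, univ_inter]
    exact pos_iff_ne_zero.2 hv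
  have cφ : Continuous φ := by
    simp only [hφ, FF]
    refine continuous_parametric_integral_of_continuous
      (f := fun (r : ℝ) (x : Fin n → ℝ) => exp (-qf (fun i => exp (2 * (r * d i)) / 2) x)) ?_ hK
    unfold qf Function.uncurry
    fun_prop
  have key := mid_concave (ψ := fun r => log (φ r)) (cφ.log fun r => (pos r).ne') (fun x y => by
    have := FF_mid hK cK sK (a := fun i => exp (2 * (x * d i)) / 2)
      (b := fun i => exp (2 * (y * d i)) / 2) (g := fun i => exp (2 * ((x + y) / 2 * d i)) / 2)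
      (fun i => by positivity) (fun i => by positivity) (fun i => by
        rw [div_pow, sq (exp _), div_mul_div_comm, ← Real.exp_add, ← Real.exp_add]
        rw [show 2 * (x * d i) + 2 * (y * d i) =
          2 * ((x + y) / 2 * d i) + 2 * ((x + y) / 2 * d i) by ring]
        norm_num)
    change φ x * φ y ≤ φ ((x + y) / 2) * φ ((x + y) / 2) at this
    have h2 := Real.log_le_log (mul_pos (pos x) (pos y)) this
    rw [Real.log_mul (pos _).ne' (pos _).ne', Real.log_mul (pos _).ne' (pos _).ne'] at h2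
    linarith) h0 h1
  rw [← Real.log_le_log_iff (mul_pos (Real.rpow_pos_of_pos (pos _) _)
    (Real.rpow_pos_of_pos (pos _) _)) (pos _), Real.log_mul (Real.rpow_pos_of_pos (pos _) _).ne'
    (Real.rpow_pos_of_pos (pos _) _).ne', Real.log_rpow (pos _), Real.log_rpow (pos _)]
  exact key

lemma pi_gauss (v : Fin n → ℝ≥0) (hv : ∀ i, v i ≠ 0) :
    Measure.pi (fun i => gaussianReal 0 (v i)) =
      volume.withDensity fun x => ENNReal.ofReal (∏ i, gaussianPDFReal 0 (v i) (x i)) := by
  refine Measure.pi_eq fun s hs => ?_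
  rw [withDensity_apply _ (MeasurableSet.univ_pi hs), volume_pi, Measure.restrict_pi_pi,
    ← ofReal_integral_eq_lintegral_ofReal
      (Integrable.fintype_prod fun i => (integrable_gaussianPDFReal 0 (v i)).restrict)
      (ae_of_all _ fun x => Finset.prod_nonneg fun i _ => gaussianPDFReal_nonneg _ _ _),
    integral_fintype_prod_eq_prod (fun i x => gaussianPDFReal 0 (v i) x),
    ENNReal.ofReal_prod_of_nonneg fun i _ => integral_nonneg (gaussianPDFReal_nonneg _ _)]
  exact Finset.prod_congr rfl fun i _ => (gaussianReal_apply_eq_integral 0 (hv i) _).symm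

/-- The standard Gaussian measure in coordinates. -/
noncomputable def gam (n : ℕ) : Measure (Fin n → ℝ) := Measure.pi fun _ => gaussianReal 0 1

instance : IsProbabilityMeasure (gam n) := by unfold gam; infer_instance

lemma gam_dil {K : Set (Fin n → ℝ)} (hK : IsCompact K) (τ : Fin n → ℝ) :
    (gam n {z | (fun i => exp (-τ i) * z i) ∈ K}).toReal =
      ((√(2 * π))⁻¹ ^ n * exp (∑ i, τ i)) * FF K (fun i => exp (2 * τ i) / 2) := by
  have mD : Measurable fun (z : Fin n → ℝ) (i : Fin n) => exp (-τ i) * z i := by fun_prop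
  set v : Fin n → ℝ≥0 := fun i => (.mk (exp (-τ i) ^ 2) (sq_nonneg _) * 1) with hv
  have v0 : ∀ i, v i ≠ 0 := fun i h => by
    have := congrArg (fun x : ℝ≥0 => (x : ℝ)) h
    simp only [hv, mul_one, NNReal.coe_mk, NNReal.coe_zero] at this
    exact (pow_pos (exp_pos _) 2).ne' this
  have e1 : (gam n).map (fun (z : Fin n → ℝ) (i : Fin n) => exp (-τ i) * z i) =
      Measure.pi fun i => gaussianReal 0 (v i) := by
    unfold gam
    rw [Measure.pi_map_pi (f := fun i (x : ℝ) => exp (-τ i) * x) (fun i => by fun_prop)]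
    congr 1
    funext i
    rw [gaussianReal_map_const_mul, mul_zero]
  have e2 : gam n {z | (fun i => exp (-τ i) * z i) ∈ K} =
      (gam n).map (fun (z : Fin n → ℝ) (i : Fin n) => exp (-τ i) * z i) K := by
    rw [Measure.map_apply mD hK.measurableSet]; rfl
  have e3 : ∀ x : Fin n → ℝ, ∏ i, gaussianPDFReal 0 (v i) (x i) =
      ((√(2 * π))⁻¹ ^ n * exp (∑ i, τ i)) * exp (-qf (fun i => exp (2 * τ i) / 2) x) := by
    intro x
    unfold qf
    rw [← Finset.sum_neg_distrib, Real.exp_sum, Real.exp_sum,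
      show (√(2 * π))⁻¹ ^ n = ∏ _i : Fin n, (√(2 * π))⁻¹ by simp, ← Finset.prod_mul_distrib,
      ← Finset.prod_mul_distrib]
    refine Finset.prod_congr rfl fun i _ => ?_
    simp only [gaussianPDFReal, hv, mul_one, NNReal.coe_mk, sub_zero]
    rw [Real.sqrt_mul (by positivity), Real.sqrt_sq (exp_pos _).le, mul_inv, ← Real.exp_neg,
      neg_neg]
    congr 2
    rw [show (2 : ℝ) * τ i = τ i + τ i by ring, Real.exp_add, Real.exp_neg]
    field_simp
  rw [e2, e1, pi_gauss v v0, withDensity_apply _ hK.measurableSet]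
  simp only [e3]
  have c0 : 0 ≤ (√(2 * π))⁻¹ ^ n * exp (∑ i, τ i) := by positivity
  simp only [ENNReal.ofReal_mul c0]
  rw [lintegral_const_mul _ (ew_meas _), ← FF_lint hK,
    ← ENNReal.ofReal_mul c0, ENNReal.toReal_ofReal (mul_nonneg c0 (FF_nonneg _ _))]

lemma gam_compact {K : Set (Fin n → ℝ)} (hK : IsCompact K) (cK : Convex ℝ K)
    (sK : ∀ x ∈ K, -x ∈ K) (d : Fin n → ℝ) {l : ℝ} (h0 : 0 ≤ l) (h1 : l ≤ 1) :
    (gam n {z | (fun i => exp (-(1 * d i)) * z i) ∈ K}).toReal ^ l *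
      (gam n {z | (fun i => exp (-(0 * d i)) * z i) ∈ K}).toReal ^ (1 - l) ≤
      (gam n {z | (fun i => exp (-(l * d i)) * z i) ∈ K}).toReal := by
  rw [gam_dil hK (fun i => 1 * d i), gam_dil hK (fun i => 0 * d i), gam_dil hK (fun i => l * d i)]
  have key := FF_logconc hK cK sK d h0 h1
  set c := (√(2 * π))⁻¹ ^ n with hc
  have c0 : 0 < c := by rw [hc]; positivity
  rw [Real.mul_rpow (by positivity) (FF_nonneg _ _), Real.mul_rpow (by positivity) (FF_nonneg _ _),
    mul_mul_mul_comm]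
  have e : (c * exp (∑ i, 1 * d i)) ^ l * (c * exp (∑ i, 0 * d i)) ^ (1 - l) =
      c * exp (∑ i, l * d i) := by
    rw [Real.mul_rpow c0.le (exp_pos _).le, Real.mul_rpow c0.le (exp_pos _).le, mul_mul_mul_comm,
      ← Real.rpow_add c0, ← Real.exp_mul, ← Real.exp_mul, ← Real.exp_add]
    simp [Finset.mul_sum, mul_comm]
  rw [e]
  exact mul_le_mul_of_nonneg_left key (by positivity)

/-- The theorem of Cordero-Erausquin, Fradelizi and Maurey for closed symmetric convex sets. -/
lemma gam_closed {K : Set (Fin n → ℝ)} (hK : IsClosed K) (cK : Convex ℝ K)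
    (sK : ∀ x ∈ K, -x ∈ K) (d : Fin n → ℝ) {l : ℝ} (h0 : 0 ≤ l) (h1 : l ≤ 1) :
    (gam n {z | (fun i => exp (-(1 * d i)) * z i) ∈ K}).toReal ^ l *
      (gam n {z | (fun i => exp (-(0 * d i)) * z i) ∈ K}).toReal ^ (1 - l) ≤
      (gam n {z | (fun i => exp (-(l * d i)) * z i) ∈ K}).toReal := by
  set KK : ℕ → Set (Fin n → ℝ) := fun k => K ∩ Metric.closedBall 0 k with hKK
  have lim : ∀ r : ℝ, Tendsto (fun k : ℕ =>
      (gam n {z | (fun i => exp (-(r * d i)) * z i) ∈ KK k}).toReal) atTop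
      (𝓝 (gam n {z | (fun i => exp (-(r * d i)) * z i) ∈ K}).toReal) := by
    intro r
    have mono : Monotone fun k : ℕ => {z : Fin n → ℝ | (fun i => exp (-(r * d i)) * z i) ∈ KK k} :=
      fun k k' hk z hz => ⟨hz.1, Metric.closedBall_subset_closedBall (Nat.cast_le.2 hk) hz.2⟩
    have := tendsto_measure_iUnion_atTop (μ := gam n) mono
    have e : (⋃ k : ℕ, {z : Fin n → ℝ | (fun i => exp (-(r * d i)) * z i) ∈ KK k}) =
        {z | (fun i => exp (-(r * d i)) * z i) ∈ K} := by
      ext z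
      simp only [mem_iUnion, mem_ofPred_eq, hKK, mem_inter_iff, mem_closedBall_zero_iff]
      refine ⟨fun ⟨_, h, _⟩ => h, fun h => ?_⟩
      obtain ⟨k, hk⟩ := exists_nat_ge ‖(fun i => exp (-(r * d i)) * z i : Fin n → ℝ)‖
      exact ⟨k, h, hk⟩
    rw [e] at this
    exact (ENNReal.tendsto_toReal (measure_ne_top _ _)).comp this
  refine le_of_tendsto_of_tendsto' (((lim 1).rpow_const (Or.inr h0)).mul
    ((lim 0).rpow_const (Or.inr (sub_nonneg.2 h1)))) (lim l) fun k => ?_
  refine gam_compact ((isCompact_closedBall 0 k).inter_left hK) (cK.inter (convex_closedBall _ _))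
    (fun x hx => ⟨sK x hx.1, ?_⟩) d h0 h1
  have := hx.2
  rw [mem_closedBall_zero_iff] at this ⊢
  rwa [norm_neg]

end Pool.Agent.P.MP_5a340a_gt
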