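import Pool.Agent.P.MP_5a340a_gt.If3

/-! A variance inequality for quadratic forms under the Gaussian measure on a symmetric body. -/

set_option autoImplicit false

namespace Pool.Agent.P.MP_5a340a_gt.Semi

open MeasureTheory Real Set Filter Topology Matrix
open scoped ENNReal
open Pool.Agent.P.MP_5c8462_an.Ord.BM

variable {n : ℕ}

/-- The Gaussian weight. -/
noncomputable def ww (x : Fin n → ℝ) : ℝ := exp (-(x ⬝ᵥ x / 2))

lemma ww_eq (x : Fin n → ℝ) : exp (-qf (fun _ => 1 / 2) x) = ww x := by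
  unfold ww qf dotProduct
  rw [Finset.sum_div]
  congr 2
  exact Finset.sum_congr rfl fun i _ => by ring

@[fun_prop]
lemma ww_cont : Continuous (ww : (Fin n → ℝ) → ℝ) := by unfold ww; fun_prop

lemma ww_pos (x : Fin n → ℝ) : 0 < ww x := exp_pos _

lemma ww_neg (x : Fin n → ℝ) : ww (-x) = ww x := by simp [ww]

lemma lint_eq {E : Type} [MeasureSpace E] [TopologicalSpace E] [BorelSpace E] [T2Space E]
    [IsFiniteMeasureOnCompacts (volume : Measure E)] {C : Set E} (hC : IsCompact C) {f : E → ℝ}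
    (hf : Continuous f) (h0 : ∀ x, 0 ≤ f x) :
    ∫⁻ x in C, ENNReal.ofReal (f x) = ENNReal.ofReal (∫ x in C, f x) :=
  (ofReal_integral_eq_lintegral_ofReal (hf.continuousOn.integrableOn_compact hC)
    (ae_of_all _ h0)).symm

lemma cosh_ge (x : ℝ) : 1 + x ^ 2 / 2 ≤ cosh x := by
  have h : (x / 2) ^ 2 ≤ sinh (x / 2) ^ 2 := by
    rw [← sq_abs, ← sq_abs (sinh _), Real.abs_sinh]
    exact pow_le_pow_left₀ (abs_nonneg _) (Real.self_le_sinh_iff.2 (abs_nonneg _)) 2
  have e := Real.cosh_two_mul (x / 2)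
  rw [mul_div_cancel₀ _ two_ne_zero, Real.cosh_sq'] at e
  nlinarith

lemma cov {C : Set (Fin n → ℝ)} (hC : IsCompact C) (cC : Convex ℝ C) (sC : ∀ x ∈ C, -x ∈ C)
    (b : Fin n → ℝ) : ∫ v in C, (b ⬝ᵥ v) ^ 2 * ww v ≤ (b ⬝ᵥ b) * ∫ v in C, ww v := by
  obtain ⟨R, hR⟩ := hC.isBounded.exists_norm_le
  have bC : C ⊆ cube n R := fun x hx i _ => abs_le.1 ((norm_le_pi_norm x i).trans (hR x hx))
  have i : ∀ {f : (Fin n → ℝ) → ℝ}, Continuous f → IntegrableOn f C := fun hf =>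
    hf.continuousOn.integrableOn_compact hC
  have Z0 : 0 ≤ ∫ v in C, ww v := integral_nonneg fun v => (ww_pos v).le
  have an : ∀ u, ∫ v in C, ww (v + u) ≤ ∫ v in C, ww v := fun u => by
    have := anderson hC.measurableSet bC cC sC (c := fun _ => 1 / 2) (fun _ => by norm_num) u
    simp only [ww_eq] at this
    rw [lint_eq hC (f := fun v => ww (v + u)) (by fun_prop) fun v => (ww_pos _).le,
      lint_eq hC ww_cont fun v => (ww_pos _).le] at this
    exact (ENNReal.ofReal_le_ofReal_iff Z0).1 this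
  set β := b ⬝ᵥ b with hβ
  set I := ∫ v in C, (b ⬝ᵥ v) ^ 2 * ww v with hI
  set Z := ∫ v in C, ww v with hZ
  have step : ∀ ε ∈ Ioi (0 : ℝ), I ≤ β * Z * exp (ε ^ 2 * β / 2) := fun ε hε => by
    have ε0 : 0 < ε := hε
    have h1 : ∫ v in C, exp (-(ε ^ 2 * β / 2)) * (2 * ww v + ε ^ 2 * ((b ⬝ᵥ v) ^ 2 * ww v)) ≤
        ∫ v in C, (ww (v + ε • b) + ww (v + -ε • b)) := by
      refine setIntegral_mono (i (by fun_prop)) (i (by fun_prop)) fun v => ?_
      have e : ∀ η : ℝ, ww (v + η • b) =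
          exp (-(η ^ 2 * β / 2)) * ww v * exp (-(η * (b ⬝ᵥ v))) := fun η => by
        unfold ww
        rw [← Real.exp_add, ← Real.exp_add]
        congr 1
        simp only [add_dotProduct, dotProduct_add, smul_dotProduct, dotProduct_smul, smul_eq_mul,
          dotProduct_comm v b, hβ]
        ring
      simp only [e, neg_sq, neg_mul, neg_neg]
      have c := cosh_ge (ε * (b ⬝ᵥ v))
      rw [Real.cosh_eq] at c
      have := mul_le_mul_of_nonneg_left c (mul_pos (exp_pos (-(ε ^ 2 * β / 2))) (ww_pos v)).le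
      nlinarith
    rw [integral_add (i (by fun_prop)) (i (by fun_prop)), integral_const_mul,
      integral_add (i (by fun_prop)) (i (by fun_prop)), integral_const_mul,
      integral_const_mul] at h1
    have h2 := h1.trans (add_le_add (an _) (an _))
    have h3 := mul_le_mul_of_nonneg_left h2 (exp_pos (ε ^ 2 * β / 2)).le
    rw [← mul_assoc, ← Real.exp_add, add_neg_cancel, Real.exp_zero, one_mul] at h3
    have h4 : (1 - ε ^ 2 * β / 2) * exp (ε ^ 2 * β / 2) ≤ 1 := by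
      have h := Real.add_one_le_exp (-(ε ^ 2 * β / 2))
      have := mul_le_mul_of_nonneg_right h (exp_pos (ε ^ 2 * β / 2)).le
      rw [← Real.exp_add, neg_add_cancel, Real.exp_zero] at this
      linarith
    refine le_of_mul_le_mul_left ?_ (pow_pos ε0 2)
    nlinarith [mul_le_mul_of_nonneg_left h4 Z0]
  have c : Continuous fun ε : ℝ => β * Z * exp (ε ^ 2 * β / 2) := by fun_prop
  have := ge_of_tendsto ((c.tendsto 0).mono_left (nhdsWithin_le_nhds (s := Ioi 0)))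
    (mem_of_superset self_mem_nhdsWithin step)
  simpa using this

lemma odd_int {K : Set (Fin n → ℝ)} (mK : MeasurableSet K) (sK : ∀ x ∈ K, -x ∈ K)
    {f : (Fin n → ℝ) → ℝ} (hf : ∀ x, f (-x) = -f x) : ∫ x in K, f x = 0 := by
  have h := integral_neg_eq_self (K.indicator f) volume
  have e : ∀ x, K.indicator f (-x) = -K.indicator f x := fun x => by
    by_cases hx : x ∈ K
    · rw [indicator_of_mem hx, indicator_of_mem (sK x hx), hf]
    · rw [indicator_of_notMem hx, indicator_of_notMem fun h => hx (by simpa using sK _ h),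
        neg_zero]
  simp only [e, integral_neg] at h
  rw [← integral_indicator mK]
  linarith

lemma rot_ww (p : (Fin n → ℝ) × (Fin n → ℝ)) :
    ww (rot n p).1 * ww (rot n p).2 = ww p.1 * ww p.2 := by
  unfold ww
  rw [← Real.exp_add, ← Real.exp_add]
  congr 1
  change -((((√2)⁻¹ • (p.1 + p.2)) ⬝ᵥ ((√2)⁻¹ • (p.1 + p.2))) / 2) +
    -((((√2)⁻¹ • (p.1 - p.2)) ⬝ᵥ ((√2)⁻¹ • (p.1 - p.2))) / 2) = _
  simp only [add_dotProduct, dotProduct_add, sub_dotProduct, dotProduct_sub, smul_dotProduct,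
    dotProduct_smul, smul_eq_mul]
  linear_combination (-(p.1 ⬝ᵥ p.1 + p.2 ⬝ᵥ p.2)) * kk

lemma dbl {K : Set (Fin n → ℝ)} (hK : IsCompact K) (cK : Convex ℝ K)
    (G : Matrix (Fin n) (Fin n) ℝ) :
    ∫ x in K, ∫ y in K, ((G *ᵥ (x + y)) ⬝ᵥ (x - y) / 2) ^ 2 * (ww x * ww y) ≤
      ∫ x in K, ∫ y in K, (G *ᵥ (x + y)) ⬝ᵥ (G *ᵥ (x + y)) / 2 * (ww x * ww y) := by
  have hKK := hK.prod hK
  have cr : Continuous (rot n) := LinearMap.continuous_of_finiteDimensional _
  have rr : ∀ p, rot n (rot n p) = p := fun p => LinearMap.congr_fun rot_rot p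
  set T := rot n ⁻¹' (K ×ˢ K) with hT
  have hTc : IsCompact T := by
    have : T = rot n '' (K ×ˢ K) := by
      ext p
      exact ⟨fun h => ⟨rot n p, h, rr p⟩, fun ⟨q, hq, e⟩ => by
        change rot n p ∈ K ×ˢ K
        rw [← e, rr]; exact hq⟩
    rw [this]
    exact hKK.image cr
  have dn : ∀ z : Fin n → ℝ, 0 ≤ z ⬝ᵥ z := fun z => Finset.sum_nonneg fun i _ => mul_self_nonneg _
  have tr : ∀ {f g : (Fin n → ℝ) × (Fin n → ℝ) → ℝ}, Continuous f → Continuous g →
      (∀ p, 0 ≤ f p) → (∀ p, f (rot n p) = g p) →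
      ENNReal.ofReal (∫ x in K, ∫ y in K, f (x, y)) =
        ∫⁻ u, ∫⁻ v in Prod.mk u ⁻¹' T, ENNReal.ofReal (g (u, v)) := fun {f g} hf hg h0 e => by
    rw [← setIntegral_prod f (hf.continuousOn.integrableOn_compact hKK), ← Measure.volume_eq_prod,
      ← lint_eq hKK hf h0, ← rot_mp.setLIntegral_comp_preimage hKK.measurableSet
        hf.measurable.ennreal_ofReal, ← setl_prod (F := fun p => ENNReal.ofReal (g p))
        hTc.measurableSet hg.measurable.ennreal_ofReal]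
    simp only [e]
    rfl
  have e1 : ∀ p : (Fin n → ℝ) × (Fin n → ℝ),
      (rot n p).1 + (rot n p).2 = (2 * (√2)⁻¹) • p.1 := fun p => by
    funext i; simp only [Pi.add_apply, rot_fst, rot_snd, Pi.smul_apply, smul_eq_mul]; ring
  have e2 : ∀ p : (Fin n → ℝ) × (Fin n → ℝ),
      (rot n p).1 - (rot n p).2 = (2 * (√2)⁻¹) • p.2 := fun p => by
    funext i; simp only [Pi.sub_apply, rot_fst, rot_snd, Pi.smul_apply, smul_eq_mul]; ring
  have t1 := tr (f := fun p => ((G *ᵥ (p.1 + p.2)) ⬝ᵥ (p.1 - p.2) / 2) ^ 2 * (ww p.1 * ww p.2))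
    (g := fun p => ((G *ᵥ p.1) ⬝ᵥ p.2) ^ 2 * ww p.2 * ww p.1) (by fun_prop) (by fun_prop)
    (fun p => mul_nonneg (sq_nonneg _) (mul_pos (ww_pos _) (ww_pos _)).le) fun p => by
      simp only [rot_ww, e1, e2, mulVec_smul, smul_dotProduct, dotProduct_smul, smul_eq_mul]
      have : 2 * (√2)⁻¹ * (2 * (√2)⁻¹ * ((G *ᵥ p.1) ⬝ᵥ p.2)) / 2 = (G *ᵥ p.1) ⬝ᵥ p.2 := by
        linear_combination (2 * ((G *ᵥ p.1) ⬝ᵥ p.2)) * kk
      rw [this]; ring
  have t2 := tr
    (f := fun p => (G *ᵥ (p.1 + p.2)) ⬝ᵥ (G *ᵥ (p.1 + p.2)) / 2 * (ww p.1 * ww p.2))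
    (g := fun p => (G *ᵥ p.1) ⬝ᵥ (G *ᵥ p.1) * ww p.2 * ww p.1) (by fun_prop) (by fun_prop)
    (fun p => mul_nonneg (div_nonneg (dn _) zero_le_two) (mul_pos (ww_pos _) (ww_pos _)).le)
    fun p => by
      simp only [rot_ww, e1, mulVec_smul, smul_dotProduct, dotProduct_smul, smul_eq_mul]
      linear_combination (2 * ((G *ᵥ p.1) ⬝ᵥ (G *ᵥ p.1)) * ww p.1 * ww p.2) * kk
  refine (ENNReal.ofReal_le_ofReal_iff (integral_nonneg fun x => integral_nonneg fun y =>
    mul_nonneg (div_nonneg (dn _) zero_le_two) (mul_pos (ww_pos _) (ww_pos _)).le)).1 ?_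
  rw [t1, t2]
  refine lintegral_mono fun u => ?_
  have hs : IsCompact (Prod.mk u ⁻¹' T) := by
    refine (hTc.image continuous_snd).of_isClosed_subset
      (hTc.isClosed.preimage (by fun_prop)) fun v hv => ⟨_, hv, rfl⟩
  have cs : Convex ℝ (Prod.mk u ⁻¹' T) := fun x hx y hy s t hs ht hst => by
    have := ((cK.prod cK).linear_preimage (rot n)) hx hy hs ht hst
    have e : s • ((u, x) : (Fin n → ℝ) × (Fin n → ℝ)) + t • (u, y) = (u, s • x + t • y) := by
      ext i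
      · simp only [Prod.fst_add, Prod.smul_fst, Pi.add_apply, Pi.smul_apply, smul_eq_mul]
        rw [← add_mul, hst, one_mul]
      · rfl
    rw [e] at this
    exact this
  have ss : ∀ v ∈ Prod.mk u ⁻¹' T, -v ∈ Prod.mk u ⁻¹' T := fun v hv => by
    have e : rot n (u, -v) = ((rot n (u, v)).2, (rot n (u, v)).1) := by
      ext i
      · simp only [rot_fst, rot_snd, Pi.neg_apply]; ring
      · simp only [rot_fst, rot_snd, Pi.neg_apply]; ring
    change rot n (u, -v) ∈ K ×ˢ K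
    rw [e]
    exact ⟨hv.2, hv.1⟩
  simp only []
  rw [lint_eq hs (by fun_prop) fun v =>
      mul_nonneg (mul_nonneg (sq_nonneg _) (ww_pos _).le) (ww_pos _).le,
    lint_eq hs (by fun_prop) fun v =>
      mul_nonneg (mul_nonneg (dn _) (ww_pos _).le) (ww_pos _).le, integral_mul_const,
    integral_mul_const, integral_const_mul]
  exact ENNReal.ofReal_le_ofReal (mul_le_mul_of_nonneg_right (cov hs cs ss _) (ww_pos u).le)

lemma alg {M B : Matrix (Fin n) (Fin n) ℝ} {Z : ℝ} (Z0 : 0 < Z) (sM : Mᵀ = M) (sB : Bᵀ = -B)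
    (h0 : ∀ b, 0 ≤ b ⬝ᵥ M *ᵥ b) (h1 : ∀ b, b ⬝ᵥ M *ᵥ b ≤ b ⬝ᵥ b * Z) :
    Z * trace (Bᵀ * B * M) - trace (Bᵀ * M * B * M) ≤ Z ^ 2 / 2 * trace (Bᵀ * B) := by
  set N := M - (Z / 2) • (1 : Matrix (Fin n) (Fin n) ℝ) with hN
  have sN : Nᵀ = N := by rw [hN, transpose_sub, sM, transpose_smul, transpose_one]
  have sy : ∀ a b, a ⬝ᵥ M *ᵥ b = (M *ᵥ a) ⬝ᵥ b := fun a b => by
    rw [dotProduct_mulVec, ← mulVec_transpose, sM]
  have hz : ∀ z, (N *ᵥ z) ⬝ᵥ (N *ᵥ z) ≤ Z ^ 2 / 4 * (z ⬝ᵥ z) := fun z => by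
    have a1 := h0 (Z • z - M *ᵥ z)
    have a2 := h1 (M *ᵥ z)
    simp only [mulVec_sub, mulVec_smul, sub_dotProduct, dotProduct_sub, smul_dotProduct,
      dotProduct_smul, smul_eq_mul, sy z (M *ᵥ z)] at a1
    have a3 : (M *ᵥ z) ⬝ᵥ (M *ᵥ z) ≤ Z * (z ⬝ᵥ M *ᵥ z) := by
      refine le_of_mul_le_mul_left ?_ Z0
      nlinarith
    simp only [hN, sub_mulVec, smul_mulVec, one_mulVec, sub_dotProduct, dotProduct_sub,
      smul_dotProduct, dotProduct_smul, smul_eq_mul, dotProduct_comm (M *ᵥ z) z]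
    nlinarith
  have col : ∀ X : Matrix (Fin n) (Fin n) ℝ,
      trace (Xᵀ * X) = ∑ j, (fun i => X i j) ⬝ᵥ fun i => X i j := fun X => by
    simp only [trace, diag_apply, mul_apply, transpose_apply, dotProduct]
  have b1 : trace ((N * B)ᵀ * (N * B)) ≤ Z ^ 2 / 4 * trace (Bᵀ * B) := by
    rw [col, col, Finset.mul_sum]
    exact Finset.sum_le_sum fun j _ => hz fun i => B i j
  have b2 : 0 ≤ trace ((N * B + B * N)ᵀ * (N * B + B * N)) := by
    rw [col]
    exact Finset.sum_nonneg fun j _ => Finset.sum_nonneg fun i _ => mul_self_nonneg _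
  have eM : M = N + (Z / 2) • (1 : Matrix (Fin n) (Fin n) ℝ) := by rw [hN, sub_add_cancel]
  have c1 : trace (N * B * (B * N)) = trace (B * N * (N * B)) := trace_mul_comm _ _
  have c2 : trace (N * B * (N * B)) = trace (B * N * (B * N)) := by
    rw [Matrix.mul_assoc N B, trace_mul_comm, Matrix.mul_assoc B, Matrix.mul_assoc N B,
      Matrix.mul_assoc B N]
  have c3 : trace (B * N * B) = trace (B * B * N) := by
    rw [trace_mul_comm, Matrix.mul_assoc]
  have c4 : trace (B * N * B * N) = trace (B * N * (B * N)) := by rw [Matrix.mul_assoc]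
  rw [eM]
  simp only [transpose_add, transpose_mul, sN, sB, Matrix.neg_mul, Matrix.mul_neg, Matrix.add_mul,
    Matrix.mul_add, Matrix.mul_smul, Matrix.smul_mul, Matrix.mul_one, trace_add, trace_neg,
    trace_smul, smul_eq_mul, c1, c2, c3, c4] at b1 b2 ⊢
  nlinarith

/-- The matrix of second moments of the weight on `K`. -/
noncomputable def mom (K : Set (Fin n → ℝ)) : Matrix (Fin n) (Fin n) ℝ :=
  Matrix.of fun i j => ∫ x in K, x i * x j * ww x

lemma quad {K : Set (Fin n → ℝ)} (hK : IsCompact K) (C : Matrix (Fin n) (Fin n) ℝ) :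
    ∫ x in K, x ⬝ᵥ C *ᵥ x * ww x = trace (C * mom K) := by
  have i : ∀ {f : (Fin n → ℝ) → ℝ}, Continuous f → IntegrableOn f K := fun hf =>
    hf.continuousOn.integrableOn_compact hK
  have e : ∀ x : Fin n → ℝ, x ⬝ᵥ C *ᵥ x * ww x = ∑ a, ∑ b, C a b * (x b * x a * ww x) := by
    intro x
    simp only [dotProduct, mulVec, Finset.mul_sum, Finset.sum_mul]
    exact Finset.sum_congr rfl fun a _ => Finset.sum_congr rfl fun b _ => by ring
  simp only [e]
  rw [integral_finsetSum _ fun a _ => i (by fun_prop)]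
  simp only [trace, diag_apply, mul_apply, mom, of_apply]
  refine Finset.sum_congr rfl fun a _ => ?_
  rw [integral_finsetSum _ fun b _ => i (by fun_prop)]
  exact Finset.sum_congr rfl fun b _ => integral_const_mul _ _

lemma lin_sq {K : Set (Fin n → ℝ)} (hK : IsCompact K) (b : Fin n → ℝ) :
    ∫ x in K, (b ⬝ᵥ x) ^ 2 * ww x = b ⬝ᵥ mom K *ᵥ b := by
  have e : ∀ x : Fin n → ℝ, (b ⬝ᵥ x) ^ 2 = x ⬝ᵥ vecMulVec b b *ᵥ x := fun x => by
    rw [vecMulVec_mulVec, dotProduct_smul, dotProduct_comm x b, sq]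
    simp
  simp only [e]
  rw [quad hK]
  simp only [trace, diag_apply, mul_apply, vecMulVec_apply, dotProduct, mulVec, Finset.mul_sum]
  rw [Finset.sum_comm]
  exact Finset.sum_congr rfl fun a _ => Finset.sum_congr rfl fun c _ => by ring

/-- The variance inequality. -/
theorem var_le {K : Set (Fin n → ℝ)} (hK : IsCompact K) (cK : Convex ℝ K) (sK : ∀ x ∈ K, -x ∈ K)
    (Z0 : 0 < ∫ x in K, ww x) (T : Matrix (Fin n) (Fin n) ℝ) :
    (∫ x in K, (((T *ᵥ x) ⬝ᵥ x) ^ 2 - (T *ᵥ x) ⬝ᵥ (T *ᵥ x) - (T *ᵥ (T *ᵥ x)) ⬝ᵥ x) * ww x) *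
        (∫ x in K, ww x) - (∫ x in K, (T *ᵥ x) ⬝ᵥ x * ww x) ^ 2 ≤
      (trace (Tᵀ * T) - trace (T * T)) / 8 * (∫ x in K, ww x) ^ 2 := by
  have i : ∀ {f : (Fin n → ℝ) → ℝ}, Continuous f → IntegrableOn f K := fun hf =>
    hf.continuousOn.integrableOn_compact hK
  have mK := hK.measurableSet
  set B : Matrix (Fin n) (Fin n) ℝ := (1 / 4 : ℝ) • (T - Tᵀ) with hB
  set G : Matrix (Fin n) (Fin n) ℝ := T - B with hG
  have sB : Bᵀ = -B := by
    rw [hB, transpose_smul, transpose_sub, transpose_transpose, ← smul_neg, neg_sub]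
  have tp : ∀ x y : Fin n → ℝ, (Tᵀ *ᵥ x) ⬝ᵥ y = (T *ᵥ y) ⬝ᵥ x := fun x y => by
    rw [mulVec_transpose, ← dotProduct_mulVec, dotProduct_comm]
  set q : (Fin n → ℝ) → ℝ := fun x => (T *ᵥ x) ⬝ᵥ x with hq
  have cq : Continuous q := by simp only [hq]; fun_prop
  set Z := ∫ x in K, ww x with hZ
  set q1 := ∫ x in K, q x * ww x with hq1
  set q2 := ∫ x in K, q x ^ 2 * ww x with hq2
  set g2 := ∫ x in K, (G *ᵥ x) ⬝ᵥ (G *ᵥ x) * ww x with hg2
  have d := dbl hK cK G
  have L1 : ∀ x, ∫ y in K, ((G *ᵥ (x + y)) ⬝ᵥ (x - y) / 2) ^ 2 * (ww x * ww y) =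
      q x ^ 2 * ww x * (Z / 4) - q x * ww x * (q1 / 2) + ww x * (q2 / 4) +
        x ⬝ᵥ (Bᵀ * mom K * B) *ᵥ x * ww x := fun x => by
    have e : ∀ y, ((G *ᵥ (x + y)) ⬝ᵥ (x - y) / 2) ^ 2 * (ww x * ww y) =
        q x ^ 2 * ww x / 4 * ww y - q x * ww x / 2 * (q y * ww y) + ww x / 4 * (q y ^ 2 * ww y) +
          ww x * (((B *ᵥ x) ⬝ᵥ y) ^ 2 * ww y) -
          ww x * ((q x - q y) * ((B *ᵥ x) ⬝ᵥ y) * ww y) := fun y => by
      have : (G *ᵥ (x + y)) ⬝ᵥ (x - y) / 2 = (q x - q y) / 2 - (B *ᵥ x) ⬝ᵥ y := by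
        simp only [hG, hB, hq, sub_mulVec, smul_mulVec, mulVec_add, add_dotProduct, sub_dotProduct,
          dotProduct_sub, smul_dotProduct, smul_eq_mul, tp]
        ring
      rw [this]; ring
    simp only [e]
    rw [integral_sub (i (by fun_prop)) (i (by fun_prop)),
      integral_add (i (by fun_prop)) (i (by fun_prop)),
      integral_add (i (by fun_prop)) (i (by fun_prop)),
      integral_sub (i (by fun_prop)) (i (by fun_prop)), integral_const_mul, integral_const_mul,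
      integral_const_mul, integral_const_mul, integral_const_mul, lin_sq hK,
      odd_int mK sK (f := fun y => (q x - q y) * ((B *ᵥ x) ⬝ᵥ y) * ww y) fun y => by
        simp only [hq, mulVec_neg, neg_dotProduct, dotProduct_neg, neg_neg, ww_neg]; ring,
      ← mulVec_mulVec, ← mulVec_mulVec, dotProduct_mulVec x Bᵀ, vecMul_transpose]
    ring
  have L2 : ∀ x, ∫ y in K, (G *ᵥ (x + y)) ⬝ᵥ (G *ᵥ (x + y)) / 2 * (ww x * ww y) =
      (G *ᵥ x) ⬝ᵥ (G *ᵥ x) * ww x * (Z / 2) + ww x * (g2 / 2) := fun x => by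
    have e : ∀ y, (G *ᵥ (x + y)) ⬝ᵥ (G *ᵥ (x + y)) / 2 * (ww x * ww y) =
        (G *ᵥ x) ⬝ᵥ (G *ᵥ x) * ww x / 2 * ww y + ww x / 2 * ((G *ᵥ y) ⬝ᵥ (G *ᵥ y) * ww y) +
          ww x * ((G *ᵥ x) ⬝ᵥ (G *ᵥ y) * ww y) := fun y => by
      simp only [mulVec_add, add_dotProduct, dotProduct_add, dotProduct_comm (G *ᵥ y) (G *ᵥ x)]
      ring
    simp only [e]
    rw [integral_add (i (by fun_prop)) (i (by fun_prop)),
      integral_add (i (by fun_prop)) (i (by fun_prop)), integral_const_mul, integral_const_mul,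
      integral_const_mul,
      odd_int mK sK (f := fun y => (G *ᵥ x) ⬝ᵥ (G *ᵥ y) * ww y) fun y => by
        simp only [mulVec_neg, dotProduct_neg, ww_neg]; ring]
    ring
  simp only [L1, L2] at d
  rw [integral_add (i (by fun_prop)) (i (by fun_prop)),
    integral_add (i (by fun_prop)) (i (by fun_prop)),
    integral_sub (i (by fun_prop)) (i (by fun_prop)),
    integral_add (i (by fun_prop)) (i (by fun_prop)), integral_mul_const, integral_mul_const,
    integral_mul_const, integral_mul_const, integral_mul_const, quad hK] at d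
  have e3 : ∫ x in K, (q x ^ 2 - (T *ᵥ x) ⬝ᵥ (T *ᵥ x) - (T *ᵥ (T *ᵥ x)) ⬝ᵥ x) * ww x =
      q2 - 2 * g2 + 2 * trace (Bᵀ * B * mom K) := by
    rw [← quad hK, hq2, hg2, ← integral_const_mul, ← integral_const_mul,
      ← integral_sub (i (by fun_prop)) (i (by fun_prop)),
      ← integral_add (i (by fun_prop)) (i (by fun_prop))]
    refine integral_congr_ae (ae_of_all _ fun x => ?_)
    simp only []
    rw [← mulVec_mulVec, dotProduct_mulVec x Bᵀ, vecMul_transpose, ← tp x (T *ᵥ x)]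
    simp only [hG, hB, sub_mulVec, smul_mulVec, sub_dotProduct, dotProduct_sub, smul_dotProduct,
      dotProduct_smul, smul_eq_mul, dotProduct_comm (T *ᵥ x) (Tᵀ *ᵥ x)]
    ring
  have e4 : trace (Bᵀ * B) = (trace (Tᵀ * T) - trace (T * T)) / 8 := by
    have c1 : trace (T * Tᵀ) = trace (Tᵀ * T) := trace_mul_comm _ _
    have c2 : trace (Tᵀ * Tᵀ) = trace (T * T) := by rw [← transpose_mul, trace_transpose]
    simp only [hB, transpose_smul, transpose_sub, transpose_transpose, Matrix.smul_mul,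
      Matrix.mul_smul, Matrix.sub_mul, Matrix.mul_sub, trace_smul, trace_sub, smul_eq_mul, c1, c2]
    ring
  have a := alg (M := mom K) Z0 (by ext a b; simp [mom, mul_comm]) sB
    (fun b => by
      rw [← lin_sq hK]
      exact integral_nonneg fun x => mul_nonneg (sq_nonneg _) (ww_pos x).le)
    (fun b => by rw [← lin_sq hK]; exact cov hK cK sK b)
  rw [e3, ← e4]
  nlinarith

end Pool.Agent.P.MP_5a340a_gt.Semi
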