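import Pool.Agent.P.MP_5a340a_gt.S1

/-! Semi-concavity of the logarithm of the Gaussian measure of coordinate-wise dilates. -/

set_option autoImplicit false

namespace Pool.Agent.P.MP_5a340a_gt.Semi

open MeasureTheory ProbabilityTheory Real Set Filter Topology Matrix
open scoped ENNReal MatrixOrder

variable {n : ℕ}

lemma par_der {K : Set (Fin n → ℝ)} (hK : IsCompact K) {F F' : ℝ → (Fin n → ℝ) → ℝ}
    (cF : Continuous fun p : ℝ × (Fin n → ℝ) => F p.1 p.2)
    (cF' : Continuous fun p : ℝ × (Fin n → ℝ) => F' p.1 p.2)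
    (h : ∀ t x, HasDerivAt (fun t => F t x) (F' t x) t) (t : ℝ) :
    HasDerivAt (fun t => ∫ x in K, F t x) (∫ x in K, F' t x) t := by
  obtain ⟨C, hC⟩ := ((isCompact_closedBall t 1).prod hK).exists_bound_of_continuousOn
    cF'.continuousOn
  have c1 : ∀ s, Continuous (F s) := fun s => cF.comp (Continuous.prodMk_right s)
  have c2 : ∀ s, Continuous (F' s) := fun s => cF'.comp (Continuous.prodMk_right s)
  refine (hasDerivAt_integral_of_dominated_loc_of_deriv_le (μ := volume.restrict K)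
    (bound := fun _ => C) (Metric.closedBall_mem_nhds t one_pos)
    (Eventually.of_forall fun s => (c1 s).aestronglyMeasurable)
    ((c1 t).continuousOn.integrableOn_compact hK) (c2 t).aestronglyMeasurable
    ((ae_restrict_iff' hK.measurableSet).2 (ae_of_all _ fun x hx s hs => hC (s, x) ⟨hs, hx⟩))
    (continuous_const.continuousOn.integrableOn_compact hK)
    (ae_of_all _ fun x s _ => h s x)).2

lemma chg {K : Set (Fin n → ℝ)} (hK : IsCompact K) {U V : Matrix (Fin n) (Fin n) ℝ}
    (hUV : U * V = 1) (hVU : V * U = 1) :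
    IsCompact {z | V *ᵥ z ∈ K} ∧ ∀ H : (Fin n → ℝ) → ℝ, Continuous H →
      ∫ z in {z | V *ᵥ z ∈ K}, H z = |(det V)⁻¹| * ∫ x in K, H (U *ᵥ x) := by
  refine ⟨?_, fun H hH => ?_⟩
  · have : {z | V *ᵥ z ∈ K} = (fun x => U *ᵥ x) '' K := by
      ext z
      refine ⟨fun h => ⟨_, h, by simp only [mulVec_mulVec, hUV, one_mulVec]⟩, fun ⟨x, hx, e⟩ => ?_⟩
      change V *ᵥ z ∈ K
      rw [← e, mulVec_mulVec, hVU, one_mulVec]
      exact hx
    rw [this]
    exact hK.image (by fun_prop)
  · have hd : det V ≠ 0 := fun e => by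
      have := congrArg det hUV
      rw [det_mul, e, mul_zero, det_one] at this
      exact zero_ne_one this
    have := setIntegral_map (μ := volume) (g := toLin' V) (f := fun x => H (U *ᵥ x))
      hK.measurableSet (Continuous.aestronglyMeasurable (by fun_prop))
      (LinearMap.continuous_of_finiteDimensional _).aemeasurable
    rw [Real.map_matrix_volume_pi_eq_smul_volume_pi hd, Measure.restrict_smul, integral_smul_measure,
      ENNReal.toReal_ofReal (abs_nonneg _), smul_eq_mul] at this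
    rw [this]
    simp only [toLin'_apply, mulVec_mulVec, hUV, one_mulVec]
    rfl

lemma dot_der {a b : ℝ → Fin n → ℝ} {a' b' : Fin n → ℝ} {t : ℝ} (ha : HasDerivAt a a' t)
    (hb : HasDerivAt b b' t) :
    HasDerivAt (fun t => a t ⬝ᵥ b t) (a' ⬝ᵥ b t + a t ⬝ᵥ b') t := by
  unfold dotProduct
  rw [← Finset.sum_add_distrib]
  exact HasDerivAt.fun_sum fun i _ => (hasDerivAt_pi.1 ha i).mul (hasDerivAt_pi.1 hb i)

lemma mv_der (C : Matrix (Fin n) (Fin n) ℝ) {a : ℝ → Fin n → ℝ} {a' : Fin n → ℝ} {t : ℝ}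
    (ha : HasDerivAt a a' t) : HasDerivAt (fun t => C *ᵥ a t) (C *ᵥ a') t :=
  hasDerivAt_pi.2 fun i => by
    have := dot_der (hasDerivAt_const t (C i)) ha
    rwa [zero_dotProduct, zero_add] at this

/-- The dilated body in whitened coordinates: semi-concavity. -/
theorem semi {K : Set (Fin n → ℝ)} (hK : IsCompact K) (cK : Convex ℝ K) (sK : ∀ x ∈ K, -x ∈ K)
    (iK : (interior K).Nonempty) {N L : Matrix (Fin n) (Fin n) ℝ} (hNL : N * L = 1)
    (hLN : L * N = 1) (τ d : Fin n → ℝ) :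
    (∀ h : ℝ, 0 < ∫ x in K, ww (N *ᵥ fun i => exp (τ i + h * d i) * x i)) ∧
    ConcaveOn ℝ univ fun h : ℝ => log (∫ x in K, ww (N *ᵥ fun i => exp (τ i + h * d i) * x i)) -
      (trace ((N * diagonal d * L)ᵀ * (N * diagonal d * L)) -
        trace (N * diagonal d * L * (N * diagonal d * L))) / 8 * h ^ 2 / 2 := by
  set T := N * diagonal d * L with hT
  set c := (trace (Tᵀ * T) - trace (T * T)) / 8 with hc
  set y : ℝ → (Fin n → ℝ) → Fin n → ℝ := fun h x => N *ᵥ fun i => exp (τ i + h * d i) * x i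
    with hy
  have cy : Continuous fun p : ℝ × (Fin n → ℝ) => y p.1 p.2 := by simp only [hy]; fun_prop
  have dy : ∀ h x, HasDerivAt (fun h => y h x) (T *ᵥ y h x) h := fun h x => by
    have h1 : HasDerivAt (fun h : ℝ => fun i => exp (τ i + h * d i) * x i)
        (diagonal d *ᵥ fun i => exp (τ i + h * d i) * x i) h := hasDerivAt_pi.2 fun i => by
      rw [mulVec_diagonal]
      refine ((((hasDerivAt_id h).mul_const (d i)).const_add (τ i)).exp.mul_const
        (x i)).congr_deriv ?_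
      simp only [id]
      ring
    refine (mv_der N h1).congr_deriv ?_
    simp only [hy, hT, mulVec_mulVec]
    rw [Matrix.mul_assoc (N * diagonal d), hLN, Matrix.mul_one]
  set F0 : ℝ → ℝ := fun h => ∫ x in K, ww (y h x) with hF0
  set F1 : ℝ → ℝ := fun h => ∫ x in K, -((T *ᵥ y h x) ⬝ᵥ y h x * ww (y h x)) with hF1
  set F2 : ℝ → ℝ := fun h => ∫ x in K, (((T *ᵥ y h x) ⬝ᵥ y h x) ^ 2 -
    (T *ᵥ y h x) ⬝ᵥ (T *ᵥ y h x) - (T *ᵥ (T *ᵥ y h x)) ⬝ᵥ y h x) * ww (y h x) with hF2
  have dw : ∀ h x, HasDerivAt (fun h => ww (y h x))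
      (-((T *ᵥ y h x) ⬝ᵥ y h x * ww (y h x))) h := fun h x => by
    refine (((dot_der (dy h x) (dy h x)).div_const 2).fun_neg.exp).congr_deriv ?_
    rw [dotProduct_comm (y h x) (T *ᵥ y h x), ww]
    ring
  have d0 : ∀ h, HasDerivAt F0 (F1 h) h :=
    par_der hK (F := fun h x => ww (y h x)) (by fun_prop) (by fun_prop) dw
  have d1 : ∀ h, HasDerivAt F1 (F2 h) h :=
    par_der hK (F := fun h x => -((T *ᵥ y h x) ⬝ᵥ y h x * ww (y h x))) (by fun_prop) (by fun_prop)
      fun h x => (((dot_der (mv_der T (dy h x)) (dy h x)).mul (dw h x)).fun_neg).congr_deriv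
        (by ring)
  have pos : ∀ h, 0 < F0 h := fun h => by
    simp only [hF0]
    have cc : Continuous fun x => ww (y h x) := ww_cont.comp (cy.comp (Continuous.prodMk_right h))
    rw [setIntegral_pos_iff_support_of_nonneg_ae (ae_of_all _ fun _ => (ww_pos _).le)
      (cc.continuousOn.integrableOn_compact hK)]
    have : Function.support (fun x => ww (y h x)) = univ :=
      eq_univ_of_forall fun x => (ww_pos _).ne'
    rw [this, univ_inter]
    exact Measure.measure_pos_of_nonempty_interior _ iK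
  have key : ∀ h, F2 h * F0 h - F1 h ^ 2 ≤ c * F0 h ^ 2 := fun h => by
    set U := N * diagonal fun i => exp (τ i + h * d i) with hU
    set V := diagonal (fun i => exp (-(τ i + h * d i))) * L with hV
    have UV : U * V = 1 := by
      rw [hU, hV, Matrix.mul_assoc, ← Matrix.mul_assoc (diagonal _), diagonal_mul_diagonal]
      simp only [← Real.exp_add, add_neg_cancel, Real.exp_zero, diagonal_one, Matrix.one_mul, hNL]
    have VU : V * U = 1 := by
      rw [hU, hV, Matrix.mul_assoc, ← Matrix.mul_assoc L, hLN, Matrix.one_mul,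
        diagonal_mul_diagonal]
      simp only [← Real.exp_add, neg_add_cancel, Real.exp_zero, diagonal_one]
    have eU : ∀ x, U *ᵥ x = y h x := fun x => by
      simp only [hU, hy, ← mulVec_mulVec]
      congr 1
      funext i
      rw [mulVec_diagonal]
    obtain ⟨k1, k2⟩ := chg hK UV VU
    have κ0 : 0 < |(det V)⁻¹| := abs_pos.2 (inv_ne_zero fun e => by
      have := congrArg det UV
      rw [det_mul, e, mul_zero, det_one] at this
      exact zero_ne_one this)
    have z := k2 ww ww_cont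
    have v := var_le k1 (cK.linear_preimage (mulVecLin V)) (fun x hx => by
      change V *ᵥ (-x) ∈ K
      rw [mulVec_neg]; exact sK _ hx) (by
        rw [z]; simp only [eU]; exact mul_pos κ0 (pos h)) T
    rw [z, k2 _ (by fun_prop), k2 _ (by fun_prop)] at v
    simp only [eU] at v
    have e1 : F1 h = -∫ x in K, (T *ᵥ y h x) ⬝ᵥ y h x * ww (y h x) := integral_neg _
    rw [e1]
    refine le_of_mul_le_mul_left ?_ (pow_pos κ0 2)
    change |(det V)⁻¹| * F2 h * (|(det V)⁻¹| * F0 h) - _ ≤ c * (|(det V)⁻¹| * F0 h) ^ 2 at v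
    linarith
  refine ⟨pos, ?_⟩
  change ConcaveOn ℝ univ fun h => log (F0 h) - c * h ^ 2 / 2
  have g0 : ∀ h, HasDerivAt (fun h => log (F0 h) - c * h ^ 2 / 2) (F1 h / F0 h - c * h) h :=
    fun h => (((d0 h).log (pos h).ne').sub
      (((hasDerivAt_pow 2 h).const_mul c).div_const 2)).congr_deriv (by push_cast; ring)
  have g1 : ∀ h, HasDerivAt (fun h => F1 h / F0 h - c * h)
      ((F2 h * F0 h - F1 h ^ 2) / F0 h ^ 2 - c) h := fun h =>
    (((d1 h).div (d0 h) (pos h).ne').sub ((hasDerivAt_id h).const_mul c)).congr_deriv (by ring)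
  have e : deriv (fun h => log (F0 h) - c * h ^ 2 / 2) = fun h => F1 h / F0 h - c * h :=
    funext fun h => (g0 h).deriv
  refine concaveOn_univ_of_deriv2_nonpos (fun h => (g0 h).differentiableAt)
    (by rw [e]; exact fun h => (g1 h).differentiableAt) fun h => ?_
  change deriv (deriv _) h ≤ 0
  rw [e, (g1 h).deriv, sub_nonpos, div_le_iff₀ (pow_pos (pos h) 2)]
  exact key h

/-- The inequality with the constant `1 / 16`. -/
theorem upper (μ : Measure (Fin n → ℝ)) [IsGaussian μ] (h0 : ∫ x, x ∂μ = 0)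
    (hd : det (covM μ) ≠ 0) (s t : Fin n → ℝ) {K : Set (Fin n → ℝ)} (cK : Convex ℝ K)
    (hK : IsCompact K) (iK : (interior K).Nonempty) (sK : ∀ x ∈ K, -x ∈ K) {a c : ℝ}
    (a0 : 0 ≤ a) (a1 : a ≤ 1) (hc : 1 / 16 ≤ c) :
    exp (-(c * (a * (1 - a)) * (trace ((covM μ)⁻¹ * diagonal (s - t) * covM μ * diagonal (s - t)) -
        ∑ i, (s i - t i) ^ 2))) *
      ((μ {x | (fun i => exp (-s i) * x i) ∈ K}).toReal ^ a *
        (μ {x | (fun i => exp (-t i) * x i) ∈ K}).toReal ^ (1 - a)) ≤
      (μ {x | (fun i => exp (-(a • s + (1 - a) • t) i) * x i) ∈ K}).toReal := by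
  set L := CFC.sqrt (covM μ) with hL
  have LL : L * L = covM μ := CFC.sqrt_mul_sqrt_self _ (covM_psd μ).nonneg
  have sL : Lᵀ = L := (CFC.sqrt_nonneg (covM μ)).posSemidef.isHermitian
  have dL : det L ≠ 0 := fun e => hd (by rw [← LL, det_mul, e, zero_mul])
  have NL : L⁻¹ * L = 1 := nonsing_inv_mul L (Ne.isUnit dL)
  have LN : L * L⁻¹ = 1 := mul_nonsing_inv L (Ne.isUnit dL)
  obtain ⟨pos, cc⟩ := semi hK cK sK iK NL LN t (s - t)
  set D := diagonal (s - t) with hD
  have e1 : trace ((L⁻¹ * D * L)ᵀ * (L⁻¹ * D * L)) = trace ((covM μ)⁻¹ * D * covM μ * D) := by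
    rw [← LL, Matrix.mul_inv_rev, transpose_mul, transpose_mul, transpose_nonsing_inv, sL, hD,
      diagonal_transpose, ← hD, Matrix.mul_assoc L, trace_mul_comm, Matrix.mul_assoc D,
      Matrix.mul_assoc D, trace_mul_comm]
    simp only [Matrix.mul_assoc]
  have e2 : trace (L⁻¹ * D * L * (L⁻¹ * D * L)) = ∑ i, (s i - t i) ^ 2 := by
    rw [Matrix.mul_assoc L⁻¹, Matrix.mul_assoc L⁻¹, trace_mul_comm]
    simp only [Matrix.mul_assoc]
    rw [LN, Matrix.mul_one, ← Matrix.mul_assoc L, LN, Matrix.one_mul, hD, diagonal_mul_diagonal,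
      trace_diagonal]
    simp only [Pi.sub_apply, sq]
  have E0 : 0 ≤ trace ((L⁻¹ * D * L)ᵀ * (L⁻¹ * D * L)) - trace (L⁻¹ * D * L * (L⁻¹ * D * L)) := by
    generalize L⁻¹ * D * L = T
    have h1 : 0 ≤ trace ((T - Tᵀ)ᵀ * (T - Tᵀ)) := by
      simp only [trace, diag_apply, mul_apply, transpose_apply]
      exact Finset.sum_nonneg fun j _ => Finset.sum_nonneg fun i _ => mul_self_nonneg _
    have c1 : trace (T * Tᵀ) = trace (Tᵀ * T) := trace_mul_comm _ _
    have c2 : trace (Tᵀ * Tᵀ) = trace (T * T) := by rw [← transpose_mul, trace_transpose]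
    simp only [transpose_sub, transpose_transpose, Matrix.sub_mul, Matrix.mul_sub, trace_sub, c1,
      c2] at h1
    linarith
  rw [e1, e2] at cc E0
  set E := trace ((covM μ)⁻¹ * D * covM μ * D) - ∑ i, (s i - t i) ^ 2 with hE
  set Φ : ℝ → ℝ := fun h => ∫ x in K, ww (L⁻¹ *ᵥ fun i => exp (t i + h * (s - t) i) * x i)
    with hΦ
  set κ := (√(2 * π))⁻¹ ^ n * |(det L)⁻¹| * exp (∑ i, t i) with hκ
  have κ0 : 0 < κ := by
    have := abs_pos.2 (inv_ne_zero dL)
    rw [hκ]; positivity
  have m1 : Measurable fun z : Fin n → ℝ => L *ᵥ z := by fun_prop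
  have tr : ∀ (h : ℝ) (τ : Fin n → ℝ), (∀ i, τ i = t i + h * (s - t) i) →
      (μ {x | (fun i => exp (-τ i) * x i) ∈ K}).toReal =
        κ * exp (h * ∑ i, (s - t) i) * Φ h := fun h τ hτ => by
    have mD : Measurable fun (z : Fin n → ℝ) (i : Fin n) => exp (-τ i) * z i := by fun_prop
    have mS : MeasurableSet {x : Fin n → ℝ | (fun i => exp (-τ i) * x i) ∈ K} :=
      mD hK.measurableSet
    have rep : μ = (gam n).map fun z => L *ᵥ z := gauss_rep μ h0
    set U := L⁻¹ * diagonal fun i => exp (τ i) with hU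
    set V := diagonal (fun i => exp (-τ i)) * L with hV
    have UV : U * V = 1 := by
      rw [hU, hV, Matrix.mul_assoc, ← Matrix.mul_assoc (diagonal _), diagonal_mul_diagonal]
      simp only [← Real.exp_add, add_neg_cancel, Real.exp_zero, diagonal_one, Matrix.one_mul, NL]
    have VU : V * U = 1 := by
      rw [hU, hV, Matrix.mul_assoc, ← Matrix.mul_assoc L, LN, Matrix.one_mul,
        diagonal_mul_diagonal]
      simp only [← Real.exp_add, neg_add_cancel, Real.exp_zero, diagonal_one]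
    obtain ⟨k1, k2⟩ := chg hK UV VU
    have g := gam_dil k1 0
    simp only [Pi.zero_apply, neg_zero, Real.exp_zero, one_mul, mul_zero, Finset.sum_const_zero,
      mul_one, FF, ww_eq] at g
    have e3 : (fun z => L *ᵥ z) ⁻¹' {x : Fin n → ℝ | (fun i => exp (-τ i) * x i) ∈ K} =
        {z | z ∈ {z | V *ᵥ z ∈ K}} := by
      ext z
      simp only [mem_preimage, mem_ofPred_eq, hV, ← mulVec_mulVec]
      refine iff_of_eq (congrArg (· ∈ K) ?_)
      funext i
      rw [mulVec_diagonal]
    have e4 : ∀ x, U *ᵥ x = L⁻¹ *ᵥ fun i => exp (t i + h * (s - t) i) * x i := fun x => by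
      simp only [hU, ← mulVec_mulVec]
      congr 1
      funext i
      rw [mulVec_diagonal, hτ i]
    have e5 : |(det V)⁻¹| = |(det L)⁻¹| * (exp (∑ i, t i) * exp (h * ∑ i, (s - t) i)) := by
      rw [hV, det_mul, det_diagonal, ← Real.exp_sum, mul_inv, ← Real.exp_neg, abs_mul,
        abs_of_pos (exp_pos _), mul_comm, ← Real.exp_add, Finset.sum_neg_distrib, neg_neg,
        Finset.mul_sum, ← Finset.sum_add_distrib]
      simp only [hτ]
    rw [rep, Measure.map_apply m1 mS, e3, g, k2 ww ww_cont, e5, hκ]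
    simp only [e4, hΦ]
    ring
  rw [tr 1 s (fun i => by simp), tr 0 t (fun i => by simp),
    tr a (a • s + (1 - a) • t) (fun i => by simp; ring)]
  have p1 : 0 < Φ 1 := pos 1
  have p0 : 0 < Φ 0 := pos 0
  have pa : 0 < Φ a := pos a
  have k := cc.2 (mem_univ 1) (mem_univ 0) a0 (sub_nonneg.2 a1) (add_sub_cancel a 1)
  simp only [smul_eq_mul, mul_one, mul_zero, add_zero] at k
  change a * (log (Φ 1) - _) + (1 - a) * (log (Φ 0) - _) ≤ log (Φ a) - _ at k
  rw [← Real.log_le_log_iff (by positivity) (by positivity), Real.log_mul (by positivity)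
    (by positivity), Real.log_mul (by positivity) (by positivity), Real.log_rpow (by positivity),
    Real.log_rpow (by positivity), Real.log_exp]
  simp only [Real.log_mul (mul_pos κ0 (exp_pos _)).ne' p1.ne',
    Real.log_mul (mul_pos κ0 (exp_pos _)).ne' p0.ne',
    Real.log_mul (mul_pos κ0 (exp_pos _)).ne' pa.ne', Real.log_mul κ0.ne' (exp_pos _).ne',
    Real.log_exp]
  have := mul_nonneg (mul_nonneg (sub_nonneg.2 hc) (mul_nonneg a0 (sub_nonneg.2 a1))) E0
  nlinarith

end Pool.Agent.P.MP_5a340a_gt.Semi
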