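import Pool.Agent.P.MP_5a340a_gt.S2
import Pool.Agent.P.MP_5a340a_gt.D7

/-! The constant `1 / 16` cannot be improved. -/

set_option autoImplicit false

namespace Pool.Agent.P.MP_5a340a_gt.Semi

open MeasureTheory ProbabilityTheory Real Set Filter Topology Matrix

lemma ex_gauss : ∃ μ : Measure (Fin 2 → ℝ), IsGaussian μ ∧ ∫ x, x ∂μ = 0 ∧
    ∀ i j, ∫ x, x i * x j ∂μ = !![(1 : ℝ), 2; 2, 5] i j := by
  set S : Matrix (Fin 2) (Fin 2) ℝ := !![1, 2; 2, 5] with hS
  have ps : S.PosSemidef := by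
    refine Matrix.PosSemidef.of_dotProduct_mulVec_nonneg ?_ fun x => ?_
    · ext i j
      fin_cases i <;> fin_cases j <;> simp [hS]
    · simp [hS, dotProduct, mulVec, Fin.sum_univ_two]
      nlinarith [sq_nonneg (x 0 + 2 * x 1), sq_nonneg (x 1)]
  set e := EuclideanSpace.equiv (Fin 2) ℝ with he
  set ν := multivariateGaussian (0 : EuclideanSpace ℝ (Fin 2)) S with hν
  have m0 : ∀ {F : Type} [NormedAddCommGroup F] [NormedSpace ℝ F] [CompleteSpace F]
      (L : EuclideanSpace ℝ (Fin 2) →L[ℝ] F), ∫ x, L x ∂ν = 0 := fun L => by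
    rw [L.integral_comp_comm IsGaussian.integrable_fun_id, hν, integral_id_multivariateGaussian,
      map_zero]
  refine ⟨ν.map e, isGaussian_map (e : EuclideanSpace ℝ (Fin 2) →L[ℝ] (Fin 2 → ℝ)), ?_,
    fun i j => ?_⟩
  · rw [integral_map e.continuous.aemeasurable (by fun_prop)]
    exact m0 (e : EuclideanSpace ℝ (Fin 2) →L[ℝ] (Fin 2 → ℝ))
  · rw [integral_map e.continuous.aemeasurable (by fun_prop),
      ← covariance_eval_multivariateGaussian (μ := 0) ps i j, covariance]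
    have z : ∀ k, ∫ x : EuclideanSpace ℝ (Fin 2), x k ∂ν = 0 := fun k =>
      m0 (EuclideanSpace.proj k)
    simp only [← hν, z, sub_zero]
    rfl

lemma not_conv {a c : ℝ} (a0 : 0 < a) (a1 : a < 1)
    (h : ∀ x y : ℝ, log (exp (a * x + (1 - a) * y) ^ 2 - 4 * exp (a * x + (1 - a) * y) + 5) ≤
      a * log (exp x ^ 2 - 4 * exp x + 5) + (1 - a) * log (exp y ^ 2 - 4 * exp y + 5) +
        8 * c * (a * (1 - a)) * (x - y) ^ 2) : 1 / 16 ≤ c := by
  by_contra hc
  rw [not_le] at hc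
  have Vp : ∀ x, 0 < exp x ^ 2 - 4 * exp x + 5 := fun x => by nlinarith [sq_nonneg (exp x - 2)]
  set G : ℝ → ℝ := fun x => log (exp x ^ 2 - 4 * exp x + 5) + 8 * c * x ^ 2 with hG
  set G1 : ℝ → ℝ := fun x => (2 * exp x ^ 2 - 4 * exp x) / (exp x ^ 2 - 4 * exp x + 5) +
    16 * c * x with hG1
  set G2 : ℝ → ℝ := fun x => ((4 * exp x ^ 2 - 4 * exp x) * (exp x ^ 2 - 4 * exp x + 5) -
    (2 * exp x ^ 2 - 4 * exp x) ^ 2) / (exp x ^ 2 - 4 * exp x + 5) ^ 2 + 16 * c with hG2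
  have dV : ∀ x, HasDerivAt (fun x => exp x ^ 2 - 4 * exp x + 5) (2 * exp x ^ 2 - 4 * exp x) x :=
    fun x => (((((Real.hasDerivAt_exp x).fun_pow 2).sub
      ((Real.hasDerivAt_exp x).const_mul 4)).add_const 5)).congr_deriv (by push_cast; ring)
  have dW : ∀ x, HasDerivAt (fun x => 2 * exp x ^ 2 - 4 * exp x) (4 * exp x ^ 2 - 4 * exp x) x :=
    fun x => ((((Real.hasDerivAt_exp x).fun_pow 2).const_mul 2).sub
      ((Real.hasDerivAt_exp x).const_mul 4)).congr_deriv (by push_cast; ring)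
  have d0 : ∀ x, HasDerivAt G (G1 x) x := fun x => (((dV x).log (Vp x).ne').add
    ((hasDerivAt_pow 2 x).const_mul (8 * c))).congr_deriv (by simp only [hG1]; push_cast; ring)
  have d1 : ∀ x, HasDerivAt G1 (G2 x) x := fun x => (((dW x).div (dV x) (Vp x).ne').add
    ((hasDerivAt_id x).const_mul (16 * c))).congr_deriv (by simp only [hG2]; ring)
  have c2 : Continuous G2 := by
    refine Continuous.add (Continuous.div (by fun_prop) (by fun_prop) fun x => ?_) continuous_const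
    exact (pow_pos (Vp x) 2).ne'
  have z : G2 0 < 0 := by simp only [hG2, Real.exp_zero]; norm_num; linarith
  obtain ⟨δ, δ0, hδ⟩ := Metric.eventually_nhds_iff.1 ((c2.tendsto 0).eventually (gt_mem_nhds z))
  have e : deriv G = G1 := funext fun x => (d0 x).deriv
  have sc : StrictConcaveOn ℝ (Ioo (-δ) δ) G :=
    strictConcaveOn_of_deriv2_neg' (convex_Ioo _ _)
      (fun x _ => (d0 x).continuousAt.continuousWithinAt) fun x hx => by
        change deriv (deriv G) x < 0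
        rw [e, (d1 x).deriv]
        exact hδ (by rw [Real.dist_eq, sub_zero]; exact abs_lt.2 hx)
  have k := sc.2 (x := δ / 2) (y := 0) ⟨by linarith, by linarith⟩ ⟨by linarith, δ0⟩
    (by linarith) a0 (sub_pos.2 a1) (add_sub_cancel a 1)
  have := h (δ / 2) 0
  simp only [smul_eq_mul, hG] at k
  nlinarith

theorem sharp {a c : ℝ} (a0 : 0 < a) (a1 : a < 1)
    (h : ∀ (μ : Measure (Fin 2 → ℝ)), IsGaussian μ → ∫ x, x ∂μ = 0 →
      ∀ S : Matrix (Fin 2) (Fin 2) ℝ, (∀ i j, S i j = ∫ x, x i * x j ∂μ) → S.det ≠ 0 →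
      ∀ s t : Fin 2 → ℝ, Def.Ineq μ s t a (exp (-(c * (a * (1 - a)) *
        (trace (S⁻¹ * diagonal (s - t) * S * diagonal (s - t)) - ∑ i, (s i - t i) ^ 2))))) :
    1 / 16 ≤ c := by
  obtain ⟨μ, hμ, h0, hS⟩ := ex_gauss
  refine not_conv a0 a1 fun x y => ?_
  have inv : (!![(1 : ℝ), 2; 2, 5])⁻¹ = !![5, -2; -2, 1] := Matrix.inv_eq_left_inv (by
    ext i j
    fin_cases i <;> fin_cases j <;> simp [mul_apply, Fin.sum_univ_two] <;> norm_num)
  have k := h μ hμ h0 _ (fun i j => (hS i j).symm) (by simp [det_fin_two]; norm_num)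
    ![-x, 0] ![-y, 0]
  have E : trace ((!![(1 : ℝ), 2; 2, 5])⁻¹ * diagonal (![-x, 0] - ![-y, 0]) * !![(1 : ℝ), 2; 2, 5] *
      diagonal (![-x, 0] - ![-y, 0])) - ∑ i, (![-x, 0] i - ![-y, 0] i) ^ 2 = 4 * (x - y) ^ 2 := by
    have d : diagonal (![-x, 0] - ![-y, 0] : Fin 2 → ℝ) = !![y - x, 0; 0, 0] := by
      ext i j
      fin_cases i <;> fin_cases j <;> simp
      ring
    rw [inv, d]
    simp [Matrix.trace_fin_two, Fin.sum_univ_two]
    ring
  rw [E] at k
  have eV : ∀ τ : Fin 2 → ℝ, τ 1 = 0 →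
      Def.VV 1 2 5 τ (-1) 1 = exp (-τ 0) ^ 2 - 4 * exp (-τ 0) + 5 := fun τ e => by
    simp only [Def.VV, e, neg_zero, Real.exp_zero]
    ring
  have Vp : ∀ x, 0 < exp x ^ 2 - 4 * exp x + 5 := fun x => by nlinarith [sq_nonneg (exp x - 2)]
  have e1 := eV ![-x, 0] rfl
  have e2 := eV ![-y, 0] rfl
  have e3 := eV (a • ![-x, 0] + (1 - a) • ![-y, 0]) (by simp)
  have x3 : -(a • ![-x, 0] + (1 - a) • ![-y, 0] : Fin 2 → ℝ) 0 = a * x + (1 - a) * y := by
    simp
    ring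
  rw [x3] at e3
  simp only [Matrix.cons_val_zero, neg_neg] at e1 e2
  have st := Def.strip_nec μ h0 (A := 1) (B := 2) (C := 5) (by simpa using hS 0 0)
    (by simpa using hS 0 1) (by simpa using hS 1 1) a0 a1 (exp_pos _) k (u := -1) (v := 1)
    (e1 ▸ Vp _) (e2 ▸ Vp _) (e3 ▸ Vp _)
  rw [e1, e2, e3] at st
  have p1 := Vp x
  have p2 := Vp y
  have p3 := Vp (a * x + (1 - a) * y)
  have := Real.log_le_log (by positivity) st
  rw [Real.log_mul (by positivity) p3.ne', Real.log_mul (by positivity) (by positivity),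
    Real.log_rpow p1, Real.log_rpow p2, Real.log_pow, Real.log_exp] at this
  push_cast at this
  linarith

end Pool.Agent.P.MP_5a340a_gt.Semi
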